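import Pool.Agent.W870.Pg.LCount
import Pool.Agent.H500R3.Saw.Trans

/-!
The mean number of cuts, and the join inequality for the numbers of polygons.
-/

set_option autoImplicit false

namespace Pool.Agent.W870.Pg

open Pool.Agent.H924P H981

/-- number of polygons with perimeter `2 N` -/
noncomputable def nn (N : ℕ) : ℕ := (CanF (2 * N - 1)).card

lemma loops_eq {N : ℕ} (hN : 1 ≤ N) : ((LF (2 * N)).card : ℝ) = 4 * N * PP N := by
  have : NeZero (2 * N) := ⟨by omega⟩
  have hN' : (0 : ℝ) < N := by exact_mod_cast hN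
  have h1 : Nat.card {f : ZMod (2 * N) → ℤ × ℤ // H981.IsLoop (2 * N) f} = (LF (2 * N)).card := by
    have h2 : Nat.card {f : ZMod (2 * N) → ℤ × ℤ // H981.IsLoop (2 * N) f} =
        Nat.card {f : ZMod (2 * N) → ℤ × ℤ // f ∈ LF (2 * N)} := by
      apply Nat.card_congr
      apply Equiv.subtypeEquivRight
      intro f
      rw [mem_LF]
      exact Iff.rfl
    rw [h2, Nat.card_eq_fintype_card, Fintype.card_coe]
  unfold PP
  rw [h1]
  field_simp

lemma PP_le_nn {N : ℕ} (hN : 2 ≤ N) : PP N ≤ nn N := by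
  have : NeZero (2 * N) := ⟨by omega⟩
  have h1 := sum_loops_le (m := 2 * N) (by omega) (fun _ => 1) (fun _ => 1) (fun _ _ _ _ _ => le_rfl)
  rw [Finset.sum_const, Finset.sum_const, smul_eq_mul, smul_eq_mul, mul_one, mul_one] at h1
  have h2 : ((LF (2 * N)).card : ℝ) ≤ 4 * N * (nn N : ℝ) := by
    unfold nn
    calc ((LF (2 * N)).card : ℝ) ≤ ((2 * (2 * N) * (CanF (2 * N - 1)).card : ℕ) : ℝ) := by
          exact_mod_cast h1
      _ = _ := by push_cast; ring
  rw [loops_eq (by omega)] at h2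
  have hN' : (0 : ℝ) < 4 * N := by
    have : (2 : ℝ) ≤ N := by exact_mod_cast hN
    linarith
  exact le_of_mul_le_mul_left h2 hN'

lemma nn_le_PP {N : ℕ} (hN : 2 ≤ N) : (nn N : ℝ) ≤ 2 * PP N := by
  have : NeZero (2 * N) := ⟨by omega⟩
  have h1 := lists_le_loops (m := 2 * N)
  have h2 : (2 * N : ℝ) * (nn N : ℝ) ≤ ((LF (2 * N)).card : ℝ) := by
    unfold nn
    calc (2 * N : ℝ) * ((CanF (2 * N - 1)).card : ℝ) = ((2 * N * (CanF (2 * N - 1)).card : ℕ) : ℝ) := by
          push_cast; ring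
      _ ≤ _ := by exact_mod_cast h1
  rw [loops_eq (by omega)] at h2
  have hN' : (0 : ℝ) < 2 * N := by
    have : (2 : ℝ) ≤ N := by exact_mod_cast hN
    linarith
  have h3 : (2 * N : ℝ) * (nn N : ℝ) ≤ 2 * N * (2 * PP N) := by linarith
  exact le_of_mul_le_mul_left h3 hN'

/-- mean width of the loops -/
noncomputable def MW (N : ℕ) : ℝ := (∑ f ∈ LF (2 * N), (width (2 * N) f : ℝ)) / ((LF (2 * N)).card : ℝ)

lemma PP_pos {N : ℕ} (hN : 2 ≤ N) : 0 < PP N := Pool.Agent.H739K.PP_pos hN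

lemma MW_le {N : ℕ} (hN : 2 ≤ N) :
    MW N * PP N ≤ ∑ g ∈ CanF (2 * N - 1), (ht g : ℝ) := by
  have : NeZero (2 * N) := ⟨by omega⟩
  have h1 := sum_loops_le (m := 2 * N) (by omega) (fun f => width (2 * N) f) (fun g => ht g)
    (fun _ _ _ _ h => h)
  have hN' : (2 : ℝ) ≤ N := by exact_mod_cast hN
  have hP := PP_pos hN
  have h2 : (∑ f ∈ LF (2 * N), (width (2 * N) f : ℝ)) ≤
      4 * N * ∑ g ∈ CanF (2 * N - 1), (ht g : ℝ) := by
    calc (∑ f ∈ LF (2 * N), (width (2 * N) f : ℝ)) =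
          ((∑ f ∈ LF (2 * N), width (2 * N) f : ℕ) : ℝ) := by push_cast; rfl
      _ ≤ ((2 * (2 * N) * ∑ g ∈ CanF (2 * N - 1), ht g : ℕ) : ℝ) := by exact_mod_cast h1
      _ = _ := by push_cast; ring
  unfold MW
  rw [loops_eq (by omega)]
  have h3 : 0 < 4 * (N : ℝ) := by linarith
  rw [div_mul_eq_mul_div, div_le_iff₀ (by positivity)]
  calc (∑ f ∈ LF (2 * N), (width (2 * N) f : ℝ)) * PP N
      ≤ (4 * N * ∑ g ∈ CanF (2 * N - 1), (ht g : ℝ)) * PP N := by gcongr
    _ = _ := by ring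

/-- many high polygons -/
lemma high_le {N M : ℕ} (hN : 2 ≤ N) (hM : (M + 1) ^ 2 ≤ 2 * N) :
    PP N / 2 ≤ ((open Classical in (CanF (2 * N - 1)).filter (fun g => M ≤ ht g)).card : ℝ) := by
  classical
  have : NeZero (2 * N) := ⟨by omega⟩
  have h1 := sum_loops_le (m := 2 * N) (by omega) (fun f => if M ≤ width (2 * N) f then 1 else 0)
    (fun g => if M ≤ ht g then 1 else 0) (by
      intro f g _ _ h
      split_ifs with h1 h2
      · exact le_rfl
      · exact absurd (h1.trans h) h2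
      · exact Nat.zero_le _
      · exact le_rfl)
  have h2 : (∑ f ∈ LF (2 * N), if M ≤ height (2 * N) f then 1 else 0) =
      ∑ f ∈ LF (2 * N), if M ≤ width (2 * N) f then 1 else 0 :=
    sum_swp (m := 2 * N) (fun f => if M ≤ width (2 * N) f then 1 else 0)
  have h3 : (LF (2 * N)).card ≤ ∑ f ∈ LF (2 * N), ((if M ≤ width (2 * N) f then 1 else 0) +
      (if M ≤ height (2 * N) f then 1 else 0)) := by
    rw [Finset.card_eq_sum_ones]
    apply Finset.sum_le_sum
    intro f hf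
    rw [mem_LF] at hf
    have hb := box_card hf.2.1
    by_contra hcon
    have c1 : ¬ M ≤ width (2 * N) f := by
      intro h; rw [if_pos h] at hcon; omega
    have c2 : ¬ M ≤ height (2 * N) f := by
      intro h; rw [if_pos h] at hcon; omega
    have c3 : (width (2 * N) f + 1) * (height (2 * N) f + 1) ≤ M * M :=
      Nat.mul_le_mul (by omega) (by omega)
    nlinarith
  rw [Finset.sum_add_distrib, h2] at h3
  rw [← Finset.card_filter (fun g => M ≤ ht g)] at h1
  have h4 : ((LF (2 * N)).card : ℝ) ≤ 8 * N *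
      ((open Classical in (CanF (2 * N - 1)).filter (fun g => M ≤ ht g)).card : ℝ) := by
    have h5 : (LF (2 * N)).card ≤ 8 * N * ((CanF (2 * N - 1)).filter (fun g => M ≤ ht g)).card := by
      calc (LF (2 * N)).card ≤ 2 * (2 * (2 * N) *
            ((CanF (2 * N - 1)).filter (fun g => M ≤ ht g)).card) := by omega
        _ = _ := by ring
    have h6 : ((LF (2 * N)).card : ℝ) ≤
        ((8 * N * ((CanF (2 * N - 1)).filter (fun g => M ≤ ht g)).card : ℕ) : ℝ) := by
      exact_mod_cast h5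
    push_cast at h6
    convert h6
  rw [loops_eq (by omega)] at h4
  have hN' : (0 : ℝ) < 8 * N := by
    have : (2 : ℝ) ≤ N := by exact_mod_cast hN
    linarith
  refine le_of_mul_le_mul_left ?_ hN'
  calc 8 * (N : ℝ) * (PP N / 2) = 4 * N * PP N := by ring
    _ ≤ _ := h4

/-- lower bound for the mean width -/
lemma sqrt_le_MW {N : ℕ} (hN : 2 ≤ N) : Real.sqrt (2 * N) - 1 ≤ MW N := by
  have : NeZero (2 * N) := ⟨by omega⟩
  have hP := PP_pos hN
  have hN' : (2 : ℝ) ≤ N := by exact_mod_cast hN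
  have hc : (0 : ℝ) < ((LF (2 * N)).card : ℝ) := by
    rw [loops_eq (by omega)]; positivity
  unfold MW
  rw [le_div_iff₀ hc]
  have h2 := sum_swp (m := 2 * N) (fun f => width (2 * N) f)
  simp only [width_swp] at h2
  have h3 : (∑ f ∈ LF (2 * N), (height (2 * N) f : ℝ)) = ∑ f ∈ LF (2 * N), (width (2 * N) f : ℝ) := by
    exact_mod_cast h2
  have h4 : ∑ f ∈ LF (2 * N), (2 * (Real.sqrt (2 * N) - 1)) ≤
      ∑ f ∈ LF (2 * N), ((width (2 * N) f : ℝ) + (height (2 * N) f : ℝ)) := by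
    apply Finset.sum_le_sum
    intro f hf
    rw [mem_LF] at hf
    have hb : (2 * (N : ℝ)) ≤ ((width (2 * N) f : ℝ) + 1) * ((height (2 * N) f : ℝ) + 1) := by
      exact_mod_cast box_card hf.2.1
    set a : ℝ := (width (2 * N) f : ℝ) + 1 with ha
    set b : ℝ := (height (2 * N) f : ℝ) + 1 with hb'
    have ha0 : 0 ≤ a := by positivity
    have hb0 : 0 ≤ b := by positivity
    have h5 : Real.sqrt (2 * N) ≤ (a + b) / 2 := by
      rw [Real.sqrt_le_left (by positivity)]
      nlinarith [sq_nonneg (a - b)]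
    linarith
  rw [Finset.sum_add_distrib, h3, Finset.sum_const, nsmul_eq_mul] at h4
  linarith

/-! ### the mean number of cuts -/

lemma cutset_card_le (g : List V) : (cutset g).card ≤ g.length + 1 := by
  have : cutset g ⊆ Finset.range (g.length + 1) := by
    intro a ha
    simp only [cutset, Finset.mem_filter] at ha
    exact ha.1
  have := Finset.card_le_card this
  rwa [Finset.card_range] at this

/-- exponential moment of the number of cuts -/
lemma exp_moment (L : ℕ) : ∑ g ∈ CanF L, (1 + mu⁻¹ ^ 2) ^ (cutset g).card ≤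
    (L + 2) * (3 * L + 6) * mu ^ (L + 3) := by
  have hmu := mu_pos
  have h1 : ∀ g ∈ CanF L, (1 + mu⁻¹ ^ 2) ^ (cutset g).card =
      ∑ r ∈ Finset.range (L + 2), mu⁻¹ ^ (2 * r) * ((cutset g).card.choose r : ℝ) := by
    intro g hg
    rw [mem_CanF] at hg
    have h2 := cutset_card_le g
    rw [add_comm, add_pow]
    have h3 : Finset.range ((cutset g).card + 1) ⊆ Finset.range (L + 2) := by
      intro x hx
      rw [Finset.mem_range] at hx ⊢
      omega
    rw [← Finset.sum_subset h3]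
    · apply Finset.sum_congr rfl
      intro r _
      rw [one_pow, mul_one, ← pow_mul]
    · intro r _ hr
      rw [Finset.mem_range, not_lt] at hr
      rw [Nat.choose_eq_zero_of_lt (by omega)]
      simp
  rw [Finset.sum_congr rfl h1, Finset.sum_comm]
  calc ∑ r ∈ Finset.range (L + 2), ∑ g ∈ CanF L, mu⁻¹ ^ (2 * r) * ((cutset g).card.choose r : ℝ)
      ≤ ∑ r ∈ Finset.range (L + 2), (3 * L + 6) * mu ^ (L + 3) := by
        apply Finset.sum_le_sum
        intro r hr
        rw [Finset.mem_range] at hr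
        rw [← Finset.mul_sum]
        have h4 := choose_sum L r
        have hr' : (r : ℝ) ≤ L + 1 := by
          have : r ≤ L + 1 := by omega
          exact_mod_cast this
        calc mu⁻¹ ^ (2 * r) * ∑ g ∈ CanF L, ((cutset g).card.choose r : ℝ)
            ≤ mu⁻¹ ^ (2 * r) * ((L + 2 * r + 4) * mu ^ (L + 2 * r + 3)) := by gcongr
          _ = (L + 2 * r + 4) * mu ^ (L + 3) := by
            have : mu ^ (L + 2 * r + 3) = mu ^ (L + 3) * mu ^ (2 * r) := by
              rw [← pow_add]; congr 1; ring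
            rw [this, inv_pow]
            have h5 : mu ^ (2 * r) ≠ 0 := (pow_pos hmu _).ne'
            field_simp
          _ ≤ (3 * L + 6) * mu ^ (L + 3) := by
            apply mul_le_mul_of_nonneg_right _ (by positivity)
            linarith
    _ = (L + 2) * (3 * L + 6) * mu ^ (L + 3) := by
        rw [Finset.sum_const, Finset.card_range, nsmul_eq_mul]
        push_cast; ring

/-- **the mean number of cuts** -/
theorem mean_cuts : ∃ K : ℝ, 0 ≤ K ∧ ∀ N : ℕ, 2 ≤ N →
    ∑ g ∈ CanF (2 * N - 1), ((cutset g).card : ℝ) ≤ K * Real.log N ^ 5 * (nn N : ℝ) := by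
  obtain ⟨K, hK, hPP⟩ := PP_bounds5
  have hmu := mu_pos
  have hmu1 : 1 ≤ mu := one_le_mu
  set θ : ℝ := 1 + mu⁻¹ ^ 2 with hθ
  have hθ1 : 1 < θ := by
    rw [hθ]; have : 0 < mu⁻¹ ^ 2 := by positivity
    linarith
  have hlθ : 0 < Real.log θ := Real.log_pos hθ1
  have hl2 : 0 < Real.log 2 := Real.log_pos (by norm_num)
  -- a bound for the logarithm of the polynomial factor
  set C : ℝ := K + (Real.log 96 + 3 * 1 + 2 * Real.log mu) / Real.log 2 ^ 5 +
    3 / Real.log 2 ^ 4 with hC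
  have hlm : 0 ≤ Real.log mu := Real.log_nonneg hmu1
  have hl96 : 0 ≤ Real.log 96 := Real.log_nonneg (by norm_num)
  have hC0 : 0 ≤ C := by positivity
  refine ⟨C / Real.log θ + 2 / Real.log 2 ^ 5, by positivity, fun N hN => ?_⟩
  have hN' : (2 : ℝ) ≤ N := by exact_mod_cast hN
  have hlN : Real.log 2 ≤ Real.log N := Real.log_le_log (by norm_num) hN'
  have hlN0 : 0 < Real.log N := by linarith
  have hln5 : Real.log 2 ^ 5 ≤ Real.log N ^ 5 := by gcongr
  have hln4 : Real.log 2 ^ 4 ≤ Real.log N ^ 4 := by gcongr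
  obtain ⟨L, hL⟩ : ∃ L, 2 * N - 1 = L := ⟨_, rfl⟩
  have hLr : (L : ℝ) = 2 * N - 1 := by
    rw [← hL]; push_cast [Nat.cast_sub (show 1 ≤ 2 * N by omega)]; ring
  have hnn : (nn N : ℝ) = ((CanF L).card : ℝ) := by unfold nn; rw [hL]
  rw [hL]
  set k1 : ℕ := ⌈C * Real.log N ^ 5 / Real.log θ⌉₊ with hk1
  have hk1' : C * Real.log N ^ 5 / Real.log θ ≤ k1 := Nat.le_ceil _
  have hk1'' : (k1 : ℝ) ≤ C * Real.log N ^ 5 / Real.log θ + 1 :=
    (Nat.ceil_lt_add_one (by positivity)).le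
  -- pointwise bound
  have hpt : ∀ g ∈ CanF L, ((cutset g).card : ℝ) ≤ k1 + (L + 1) * (θ⁻¹ ^ k1 * θ ^ (cutset g).card) := by
    intro g hg
    rw [mem_CanF] at hg
    have h2 : ((cutset g).card : ℝ) ≤ L + 1 := by
      have := cutset_card_le g
      rw [hg.2] at this
      exact_mod_cast this
    by_cases h : (cutset g).card ≤ k1
    · have h3 : ((cutset g).card : ℝ) ≤ k1 := by exact_mod_cast h
      have : 0 ≤ ((L : ℝ) + 1) * (θ⁻¹ ^ k1 * θ ^ (cutset g).card) := by positivity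
      linarith
    · have h4 : 1 ≤ θ⁻¹ ^ k1 * θ ^ (cutset g).card := by
        rw [inv_pow, ← div_eq_inv_mul, le_div_iff₀ (by positivity), one_mul]
        exact pow_le_pow_right₀ hθ1.le (by omega)
      have h5 : ((L : ℝ) + 1) * 1 ≤ (L + 1) * (θ⁻¹ ^ k1 * θ ^ (cutset g).card) := by gcongr
      have h6 : (0 : ℝ) ≤ k1 := Nat.cast_nonneg _
      linarith
  have hsum : ∑ g ∈ CanF L, ((cutset g).card : ℝ) ≤ k1 * (nn N : ℝ) +
      (L + 1) * θ⁻¹ ^ k1 * ((L + 2) * (3 * L + 6) * mu ^ (L + 3)) := by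
    calc ∑ g ∈ CanF L, ((cutset g).card : ℝ)
        ≤ ∑ g ∈ CanF L, (k1 + (L + 1) * (θ⁻¹ ^ k1 * θ ^ (cutset g).card)) := Finset.sum_le_sum hpt
      _ = k1 * (nn N : ℝ) + (L + 1) * θ⁻¹ ^ k1 * ∑ g ∈ CanF L, θ ^ (cutset g).card := by
        rw [Finset.sum_add_distrib, Finset.sum_const, nsmul_eq_mul, hnn, Finset.mul_sum]
        congr 1
        · ring
        · apply Finset.sum_congr rfl
          intro g _
          ring
      _ ≤ _ := by
        have := exp_moment L
        gcongr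
  -- the second term is at most `nn N`
  have h2 : (L + 1) * θ⁻¹ ^ k1 * ((L + 2) * (3 * L + 6) * mu ^ (L + 3)) ≤ (nn N : ℝ) := by
    have hlow := (hPP N hN).1.trans (PP_le_nn hN)
    refine le_trans ?_ hlow
    have e1 : mu ^ (L + 3) = mu ^ (2 * N) * mu ^ 2 := by
      rw [← pow_add]; congr 1; omega
    have e2 : ((L : ℝ) + 1) * ((L + 2) * (3 * L + 6)) ≤ 96 * N ^ 3 := by
      rw [hLr]
      have : (0 : ℝ) ≤ N := by linarith
      nlinarith [mul_nonneg this this, mul_nonneg (mul_nonneg this this) this]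
    have e3 : (θ⁻¹ ^ k1 : ℝ) ≤ Real.exp (-(C * Real.log N ^ 5)) := by
      have : (θ⁻¹ ^ k1 : ℝ) = Real.exp (-(k1 * Real.log θ)) := by
        rw [Real.exp_neg, mul_comm, Real.exp_mul, Real.exp_log (by linarith), Real.rpow_natCast,
          inv_pow]
      rw [this]
      apply Real.exp_le_exp.mpr
      rw [div_le_iff₀ hlθ] at hk1'
      linarith
    have e4 : 96 * (N : ℝ) ^ 3 * mu ^ 2 ≤
        Real.exp ((C - K) * Real.log N ^ 5) := by
      have : 96 * (N : ℝ) ^ 3 * mu ^ 2 = Real.exp (Real.log 96 + 3 * Real.log N + 2 * Real.log mu) := by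
        rw [Real.exp_add, Real.exp_add, Real.exp_log (by norm_num)]
        have a1 : Real.exp (3 * Real.log N) = (N : ℝ) ^ 3 := by
          rw [show (3 : ℝ) = ((3 : ℕ) : ℝ) by norm_num, Real.exp_nat_mul, Real.exp_log (by linarith)]
        have a2 : Real.exp (2 * Real.log mu) = mu ^ 2 := by
          rw [show (2 : ℝ) = ((2 : ℕ) : ℝ) by norm_num, Real.exp_nat_mul, Real.exp_log hmu]
        rw [a1, a2]
      rw [this]
      apply Real.exp_le_exp.mpr
      have b1 : Real.log 96 + 2 * Real.log mu ≤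
          (Real.log 96 + 3 * 1 + 2 * Real.log mu) / Real.log 2 ^ 5 * Real.log N ^ 5 := by
        rw [div_mul_eq_mul_div, le_div_iff₀ (by positivity)]
        have : Real.log 96 + 2 * Real.log mu ≤ Real.log 96 + 3 * 1 + 2 * Real.log mu := by linarith
        calc (Real.log 96 + 2 * Real.log mu) * Real.log 2 ^ 5 ≤
              (Real.log 96 + 3 * 1 + 2 * Real.log mu) * Real.log N ^ 5 := by gcongr
          _ = _ := rfl
      have b2 : 3 * Real.log N ≤ 3 / Real.log 2 ^ 4 * Real.log N ^ 5 := by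
        rw [div_mul_eq_mul_div, le_div_iff₀ (by positivity)]
        calc 3 * Real.log N * Real.log 2 ^ 4 ≤ 3 * Real.log N * Real.log N ^ 4 := by gcongr
          _ = _ := by ring
      have b3 : (C - K) * Real.log N ^ 5 =
          (Real.log 96 + 3 * 1 + 2 * Real.log mu) / Real.log 2 ^ 5 * Real.log N ^ 5 +
          3 / Real.log 2 ^ 4 * Real.log N ^ 5 := by rw [hC]; ring
      rw [b3]
      linarith
    calc ((L : ℝ) + 1) * θ⁻¹ ^ k1 * ((L + 2) * (3 * L + 6) * mu ^ (L + 3))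
        = (((L : ℝ) + 1) * ((L + 2) * (3 * L + 6))) * θ⁻¹ ^ k1 * (mu ^ (2 * N) * mu ^ 2) := by
          rw [e1]; ring
      _ ≤ (96 * N ^ 3) * Real.exp (-(C * Real.log N ^ 5)) * (mu ^ (2 * N) * mu ^ 2) := by gcongr
      _ = (96 * (N : ℝ) ^ 3 * mu ^ 2) * (mu ^ (2 * N) * Real.exp (-(C * Real.log N ^ 5))) := by ring
      _ ≤ Real.exp ((C - K) * Real.log N ^ 5) *
          (mu ^ (2 * N) * Real.exp (-(C * Real.log N ^ 5))) := by gcongr
      _ = mu ^ (2 * N) * (Real.exp ((C - K) * Real.log N ^ 5) * Real.exp (-(C * Real.log N ^ 5))) := by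
          ring
      _ = mu ^ (2 * N) * Real.exp (-(K * Real.log N ^ 5)) := by
          rw [← Real.exp_add]; congr 2; ring
  have h3 : (k1 : ℝ) + 1 ≤ (C / Real.log θ + 2 / Real.log 2 ^ 5) * Real.log N ^ 5 := by
    have : (2 : ℝ) ≤ 2 / Real.log 2 ^ 5 * Real.log N ^ 5 := by
      rw [div_mul_eq_mul_div, le_div_iff₀ (by positivity)]
      gcongr
    calc (k1 : ℝ) + 1 ≤ C * Real.log N ^ 5 / Real.log θ + 1 + 1 := by linarith
      _ ≤ C * Real.log N ^ 5 / Real.log θ + 2 / Real.log 2 ^ 5 * Real.log N ^ 5 := by linarith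
      _ = _ := by ring
  calc ∑ g ∈ CanF L, ((cutset g).card : ℝ) ≤ k1 * (nn N : ℝ) + (nn N : ℝ) := by linarith
    _ = (k1 + 1) * (nn N : ℝ) := by ring
    _ ≤ _ := by gcongr

end Pool.Agent.W870.Pg
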