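import Pool.Agent.W870.Pg.Ana1

/-!
The sum of the normalised numbers of polygons, and the pointwise bound.
-/

set_option autoImplicit false

namespace Pool.Agent.W870.Pg

open Pool.Agent.H924P H981 Filter Topology

lemma MW_nonneg (N : ℕ) : 0 ≤ MW N := by unfold MW; positivity

theorem join_PP : ∃ K : ℝ, 0 ≤ K ∧ ∀ N M : ℕ, 2 ≤ M → (2 * M + 1) ^ 2 ≤ 2 * (N - M) →
    ∑ j ∈ Finset.Icc 2 M, MW j * PP j * PP (N - j) ≤
      K * ∑ c ∈ ({4, 5, 6} : Finset ℕ), Real.log ((N + c : ℕ) : ℝ) ^ 5 * PP (N + c) := by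
  classical
  obtain ⟨K, hK, hcut⟩ := mean_cuts
  refine ⟨3200 * K, by positivity, fun N M hM hNM => ?_⟩
  have hMN : M < N := by
    by_contra h
    push Not at h
    rw [Nat.sub_eq_zero_of_le h] at hNM
    nlinarith
  have hNM2 : 2 * M + 1 ≤ N - M := by nlinarith
  have h1 := join_ineq (2 * N - 2) (2 * M) (by omega)
  -- lower bound of the left side
  have h2 : ∑ j ∈ Finset.Icc 2 M, MW j * PP j * PP (N - j) ≤
      2 * ((∑ m ∈ Finset.range (2 * M + 1), ∑ A ∈ CanF m,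
      (open Classical in (CanF (2 * N - 2 - m)).filter (fun B => 2 * M ≤ ht B)).card * ht A : ℕ) : ℝ) := by
    have h3 : ∀ j ∈ Finset.Icc 2 M, MW j * PP j * PP (N - j) ≤
        2 * ((∑ A ∈ CanF (2 * j - 1), (open Classical in (CanF (2 * N - 2 - (2 * j - 1))).filter
          (fun B => 2 * M ≤ ht B)).card * ht A : ℕ) : ℝ) := by
      intro j hj
      rw [Finset.mem_Icc] at hj
      have a1 := MW_le (N := j) hj.1
      have a2 := high_le (N := N - j) (M := 2 * M) (by omega) (by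
        calc (2 * M + 1) ^ 2 ≤ 2 * (N - M) := hNM
          _ ≤ 2 * (N - j) := by omega)
      have e : 2 * N - 2 - (2 * j - 1) = 2 * (N - j) - 1 := by omega
      rw [e]
      have a3 := PP_pos hj.1
      have a4 := PP_pos (N := N - j) (by omega)
      have a5 := MW_nonneg j
      push_cast
      rw [← Finset.mul_sum]
      have a6 : MW j * PP j * PP (N - j) = 2 * ((PP (N - j) / 2) * (MW j * PP j)) := by ring
      rw [a6]
      gcongr
    calc ∑ j ∈ Finset.Icc 2 M, MW j * PP j * PP (N - j)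
        ≤ ∑ j ∈ Finset.Icc 2 M, 2 * ((∑ A ∈ CanF (2 * j - 1),
          (open Classical in (CanF (2 * N - 2 - (2 * j - 1))).filter
          (fun B => 2 * M ≤ ht B)).card * ht A : ℕ) : ℝ) := Finset.sum_le_sum h3
      _ = 2 * ((∑ j ∈ Finset.Icc 2 M, ∑ A ∈ CanF (2 * j - 1),
          (open Classical in (CanF (2 * N - 2 - (2 * j - 1))).filter
          (fun B => 2 * M ≤ ht B)).card * ht A : ℕ) : ℝ) := by
        rw [← Finset.mul_sum]; push_cast; rfl
      _ ≤ _ := by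
        apply mul_le_mul_of_nonneg_left _ (by norm_num)
        have h4 : ∑ j ∈ Finset.Icc 2 M, ∑ A ∈ CanF (2 * j - 1),
            (open Classical in (CanF (2 * N - 2 - (2 * j - 1))).filter
            (fun B => 2 * M ≤ ht B)).card * ht A =
            ∑ m ∈ (Finset.Icc 2 M).image (fun j => 2 * j - 1), ∑ A ∈ CanF m,
            (open Classical in (CanF (2 * N - 2 - m)).filter
            (fun B => 2 * M ≤ ht B)).card * ht A := by
          rw [Finset.sum_image]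
          intro a ha b hb hab
          rw [Finset.mem_coe, Finset.mem_Icc] at ha hb
          simp only at hab
          omega
        rw [h4]
        norm_cast
        apply Finset.sum_le_sum_of_subset
        intro m hm
        rw [Finset.mem_image] at hm
        obtain ⟨j, hj, rfl⟩ := hm
        rw [Finset.mem_Icc] at hj
        rw [Finset.mem_range]
        omega
  -- upper bound of the right side
  have h5 : ((∑ c ∈ ({9, 11, 13} : Finset ℕ), ∑ g ∈ CanF (2 * N - 2 + c), (cutset g).card : ℕ) : ℝ)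
      ≤ K * (2 * ∑ c ∈ ({4, 5, 6} : Finset ℕ), Real.log ((N + c : ℕ) : ℝ) ^ 5 * PP (N + c)) := by
    have key : ∀ c : ℕ, ∑ g ∈ CanF (2 * (N + c) - 1), ((cutset g).card : ℝ) ≤
        K * (2 * (Real.log ((N + c : ℕ) : ℝ) ^ 5 * PP (N + c))) := by
      intro c
      have b1 := hcut (N + c) (by omega)
      have b2 := nn_le_PP (N := N + c) (by omega)
      have b3 : 0 ≤ Real.log ((N + c : ℕ) : ℝ) := Real.log_natCast_nonneg _
      calc _ ≤ K * Real.log ((N + c : ℕ) : ℝ) ^ 5 * (nn (N + c) : ℝ) := b1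
        _ ≤ K * Real.log ((N + c : ℕ) : ℝ) ^ 5 * (2 * PP (N + c)) := by gcongr
        _ = _ := by ring
    have s1 : ({9, 11, 13} : Finset ℕ).sum (fun c => ∑ g ∈ CanF (2 * N - 2 + c), (cutset g).card) =
        (∑ g ∈ CanF (2 * N - 2 + 9), (cutset g).card) +
        ((∑ g ∈ CanF (2 * N - 2 + 11), (cutset g).card) +
        (∑ g ∈ CanF (2 * N - 2 + 13), (cutset g).card)) := by
      rw [Finset.sum_insert (by simp), Finset.sum_insert (by simp), Finset.sum_singleton]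
    have s2 : ({4, 5, 6} : Finset ℕ).sum (fun c => Real.log ((N + c : ℕ) : ℝ) ^ 5 * PP (N + c)) =
        Real.log ((N + 4 : ℕ) : ℝ) ^ 5 * PP (N + 4) +
        (Real.log ((N + 5 : ℕ) : ℝ) ^ 5 * PP (N + 5) +
        Real.log ((N + 6 : ℕ) : ℝ) ^ 5 * PP (N + 6)) := by
      rw [Finset.sum_insert (by simp), Finset.sum_insert (by simp), Finset.sum_singleton]
    rw [s1, s2]
    have e1 : 2 * N - 2 + 9 = 2 * (N + 4) - 1 := by omega
    have e2 : 2 * N - 2 + 11 = 2 * (N + 5) - 1 := by omega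
    have e3 : 2 * N - 2 + 13 = 2 * (N + 6) - 1 := by omega
    rw [e1, e2, e3]
    have k1 := key 4
    have k2 := key 5
    have k3 := key 6
    push_cast at k1 k2 k3 ⊢
    linarith
  have h6 : ((∑ m ∈ Finset.range (2 * M + 1), ∑ A ∈ CanF m,
      (open Classical in (CanF (2 * N - 2 - m)).filter (fun B => 2 * M ≤ ht B)).card * ht A : ℕ) : ℝ) ≤
      ((800 * ∑ c ∈ ({9, 11, 13} : Finset ℕ), ∑ g ∈ CanF (2 * N - 2 + c), (cutset g).card : ℕ) : ℝ) := by
    exact_mod_cast h1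
  rw [Nat.cast_mul] at h6
  calc _ ≤ _ := h2
    _ ≤ 2 * (((800 : ℕ) : ℝ) * ((∑ c ∈ ({9, 11, 13} : Finset ℕ),
        ∑ g ∈ CanF (2 * N - 2 + c), (cutset g).card : ℕ) : ℝ)) := by gcongr
    _ ≤ 2 * (((800 : ℕ) : ℝ) * (K * (2 * ∑ c ∈ ({4, 5, 6} : Finset ℕ),
        Real.log ((N + c : ℕ) : ℝ) ^ 5 * PP (N + c)))) := by gcongr
    _ = _ := by push_cast; ring

/-- normalised number of polygons -/
noncomputable def Fp (N : ℕ) : ℝ := PP N / mu ^ (2 * N)

lemma Fp_pos {N : ℕ} (hN : 2 ≤ N) : 0 < Fp N := by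
  have := PP_pos hN
  have := mu_pos
  unfold Fp; positivity

lemma Fp_ratio : ∃ C : ℝ, 0 ≤ C ∧ ∀ N : ℕ, 2 ≤ N →
    |Fp (N + 1) / Fp N - 1| ≤ C * Real.sqrt (Real.log N ^ 9 / N) := by
  obtain ⟨C, hC⟩ := Pool.Agent.H739K.f1
  refine ⟨|C|, abs_nonneg _, fun N hN => ?_⟩
  have h1 := hC N hN
  have hmu := mu_pos
  have hmu1 : 1 ≤ mu := one_le_mu
  have hP := PP_pos hN
  have e : Fp (N + 1) / Fp N - 1 = (PP (N + 1) / PP N - mu ^ 2) / mu ^ 2 := by
    unfold Fp
    have : mu ^ (2 * (N + 1)) = mu ^ (2 * N) * mu ^ 2 := by rw [← pow_add]; congr 1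
    rw [this]
    field_simp
  rw [e, abs_div, abs_of_pos (show 0 < mu ^ 2 by positivity)]
  have h2 : 1 ≤ mu ^ 2 := one_le_pow₀ hmu1
  have h3 : C * Pool.Agent.H739K.rN N ≤ |C| * Real.sqrt (Real.log N ^ 9 / N) := by
    rw [Pool.Agent.H739K.rN_eq]
    exact mul_le_mul_of_nonneg_right (le_abs_self _) (Real.sqrt_nonneg _)
  calc |PP (N + 1) / PP N - mu ^ 2| / mu ^ 2 ≤ |PP (N + 1) / PP N - mu ^ 2| :=
        div_le_self (abs_nonneg _) h2
    _ ≤ _ := h1.trans h3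

/-- windows -/
lemma win {a : ℕ} {δ : ℝ} (ha : 2 ≤ a) (hδ : 0 ≤ δ) : ∀ k : ℕ,
    (∀ i, a ≤ i → i < a + k → |Fp (i + 1) / Fp i - 1| ≤ δ) → (k : ℝ) * δ ≤ 1 / 2 →
    (1 - k * δ) * Fp a ≤ Fp (a + k) ∧ (1 - k * δ) * Fp (a + k) ≤ Fp a := by
  intro k
  induction k with
  | zero => intro _ _; simp
  | succ k ih =>
    intro h1 h2
    push_cast at h2 ⊢
    have hk0 : (0 : ℝ) ≤ k := Nat.cast_nonneg _
    have hkd : (k : ℝ) * δ ≤ 1 / 2 := by nlinarith
    obtain ⟨i1, i2⟩ := ih (fun i hi hi2 => h1 i hi (by omega)) hkd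
    have h3 := abs_le.mp (h1 (a + k) (by omega) (by omega))
    have hp := Fp_pos (N := a + k) (by omega)
    have hp2 := Fp_pos (N := a + (k + 1)) (by omega)
    have hpa := Fp_pos ha
    have e : a + k + 1 = a + (k + 1) := by ring
    rw [e] at h3
    have h4 : (1 - δ) * Fp (a + k) ≤ Fp (a + (k + 1)) := by
      have : 1 - δ ≤ Fp (a + (k + 1)) / Fp (a + k) := by linarith
      rwa [le_div_iff₀ hp] at this
    have h5 : Fp (a + (k + 1)) ≤ (1 + δ) * Fp (a + k) := by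
      have : Fp (a + (k + 1)) / Fp (a + k) ≤ 1 + δ := by linarith
      rwa [div_le_iff₀ hp] at this
    have hd1 : δ ≤ 1 / 2 := by nlinarith
    constructor
    · have h6 : (1 - δ) * ((1 - k * δ) * Fp a) ≤ (1 - δ) * Fp (a + k) :=
        mul_le_mul_of_nonneg_left i1 (by linarith)
      have h7 : (1 - (k + 1) * δ) * Fp a ≤ (1 - δ) * ((1 - k * δ) * Fp a) := by
        have : (1 - (k + 1) * δ) ≤ (1 - δ) * (1 - k * δ) := by
          nlinarith [mul_nonneg hδ (mul_nonneg hk0 hδ)]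
        calc _ ≤ ((1 - δ) * (1 - k * δ)) * Fp a := mul_le_mul_of_nonneg_right this hpa.le
          _ = _ := by ring
      linarith
    · have h8 : (1 - (k + 1) * δ) * Fp (a + (k + 1)) ≤ (1 - (k + 1) * δ) * ((1 + δ) * Fp (a + k)) :=
        mul_le_mul_of_nonneg_left h5 (by linarith)
      have h9 : (1 - (k + 1) * δ) * (1 + δ) ≤ 1 - k * δ := by
        nlinarith [mul_nonneg hδ (mul_nonneg hk0 hδ), mul_nonneg hδ hδ]
      calc _ ≤ _ := h8
        _ = ((1 - (k + 1) * δ) * (1 + δ)) * Fp (a + k) := by ring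
        _ ≤ (1 - k * δ) * Fp (a + k) := mul_le_mul_of_nonneg_right h9 hp.le
        _ ≤ Fp a := i2

lemma win2 {a k : ℕ} {δ : ℝ} (ha : 2 ≤ a) (hδ : 0 ≤ δ)
    (h : ∀ i, a ≤ i → i < a + k → |Fp (i + 1) / Fp i - 1| ≤ δ) (hk : (k : ℝ) * δ ≤ 1 / 2) :
    Fp a ≤ 2 * Fp (a + k) ∧ Fp (a + k) ≤ 2 * Fp a := by
  obtain ⟨h1, h2⟩ := win ha hδ k h hk
  have hp := Fp_pos (N := a + k) (by omega)
  have hpa := Fp_pos ha
  constructor <;> nlinarith

end Pool.Agent.W870.Pg
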