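import Pool.Agent.W870.Pg.Ana2

/-!
The sum of the normalised numbers of polygons, and the pointwise bound.
-/

set_option autoImplicit false

namespace Pool.Agent.W870.Pg

open Pool.Agent.H924P H981 Filter Topology

lemma sqrt_le_two_MW {j : ℕ} (hj : 2 ≤ j) : Real.sqrt j ≤ 2 * MW j := by
  have h1 := sqrt_le_MW hj
  have hj' : (2 : ℝ) ≤ j := by exact_mod_cast hj
  have e : Real.sqrt (2 * j) = Real.sqrt 2 * Real.sqrt j := Real.sqrt_mul (by norm_num) _
  have a1 : (1.4 : ℝ) ≤ Real.sqrt 2 := by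
    apply Real.le_sqrt_of_sq_le; norm_num
  have a2 : Real.sqrt 2 ≤ Real.sqrt j := Real.sqrt_le_sqrt hj'
  rw [e] at h1
  nlinarith

/-- **the sum bound** -/
theorem sum_bound : ∃ K : ℝ, 0 ≤ K ∧ ∀ n : ℕ, 2 ≤ n →
    ∑ j ∈ Finset.Icc 2 n, MW j * Fp j ≤ K * Real.log n ^ 5 := by
  obtain ⟨K, hK, hjoin⟩ := join_PP
  obtain ⟨C, hC, hratio⟩ := Fp_ratio
  have hmu := mu_pos
  have hmu1 : 1 ≤ mu := one_le_mu
  have hlim := Pool.Agent.H739K.pow_mul_rN (β := 1 / 4) (by norm_num)
  have hev : ∀ᶠ m : ℕ in atTop, (m : ℝ) ^ (1 / 4 : ℝ) * Pool.Agent.H739K.rN m < 1 / (8 * (C + 1)) :=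
    hlim.eventually (gt_mem_nhds (by positivity))
  obtain ⟨n0, hn0⟩ := eventually_atTop.mp hev
  set M0 : ℕ := max 3 (n0 + 1) with hM0
  set S0 : ℝ := ∑ j ∈ Finset.Icc 2 M0, MW j * Fp j with hS0
  have hterm : ∀ j, 2 ≤ j → 0 ≤ MW j * Fp j := fun j hj =>
    mul_nonneg (MW_nonneg j) (Fp_pos hj).le
  have hS0' : 0 ≤ S0 := Finset.sum_nonneg (fun j hj => hterm j (Finset.mem_Icc.mp hj).1)
  have hl2 : 0 < Real.log 2 := Real.log_pos (by norm_num)
  refine ⟨12 * 3125 * K * mu ^ 12 + S0 / Real.log 2 ^ 5, by positivity, fun n hn => ?_⟩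
  have hn' : (2 : ℝ) ≤ n := by exact_mod_cast hn
  have hln : Real.log 2 ≤ Real.log n := Real.log_le_log (by norm_num) hn'
  have hln0 : 0 < Real.log n := by linarith
  by_cases hcase : n ≤ M0
  · have h1 : ∑ j ∈ Finset.Icc 2 n, MW j * Fp j ≤ S0 := by
      apply Finset.sum_le_sum_of_subset_of_nonneg
      · exact Finset.Icc_subset_Icc le_rfl hcase
      · intro j hj _
        exact hterm j (Finset.mem_Icc.mp hj).1
    have h2 : S0 ≤ S0 / Real.log 2 ^ 5 * Real.log n ^ 5 := by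
      rw [div_mul_eq_mul_div, le_div_iff₀ (by positivity)]
      gcongr
    have h3 : 0 ≤ 12 * 3125 * K * mu ^ 12 * Real.log n ^ 5 := by positivity
    linarith
  push Not at hcase
  have hM3 : 3 ≤ n := by
    have : 3 ≤ M0 := le_max_left _ _
    omega
  have hMn0 : n0 ≤ n := by
    have : n0 + 1 ≤ M0 := le_max_right _ _
    omega
  obtain ⟨N, hN⟩ : ∃ N, N = n ^ 4 := ⟨_, rfl⟩
  have h27 : 27 * n ≤ N := by
    rw [hN]
    calc 27 * n = 3 ^ 3 * n := by norm_num
      _ ≤ n ^ 3 * n := Nat.mul_le_mul_right _ (Nat.pow_le_pow_left hM3 3)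
      _ = n ^ 4 := by ring
  have hsq : 9 * n ^ 2 ≤ N := by
    rw [hN]
    calc 9 * n ^ 2 = 3 ^ 2 * n ^ 2 := by norm_num
      _ ≤ n ^ 2 * n ^ 2 := Nat.mul_le_mul_right _ (Nat.pow_le_pow_left hM3 2)
      _ = n ^ 4 := by ring
  -- smallness of the ratios
  have hr : ∀ i, N - n ≤ i → |Fp (i + 1) / Fp i - 1| ≤ 1 / (4 * n) := by
    intro i hi
    have hi2 : 2 ≤ i := by omega
    have hin0 : n0 ≤ i := by omega
    have h1 := hratio i hi2
    rw [← Pool.Agent.H739K.rN_eq] at h1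
    have h2 := (hn0 i hin0).le
    have hnR : (0 : ℝ) < n := by linarith
    have h16 : ((n : ℝ) / 2) ^ 4 ≤ i := by
      have : n ^ 4 ≤ 16 * i := by omega
      have h' : (n : ℝ) ^ 4 ≤ 16 * i := by exact_mod_cast this
      rw [div_pow]
      linarith
    have h3 : (n : ℝ) / 2 ≤ (i : ℝ) ^ (1 / 4 : ℝ) := by
      calc (n : ℝ) / 2 = (((n : ℝ) / 2) ^ 4) ^ (1 / 4 : ℝ) := by
            rw [← Real.rpow_natCast, ← Real.rpow_mul (by positivity)]
            norm_num
        _ ≤ _ := Real.rpow_le_rpow (by positivity) h16 (by norm_num)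
    have hrn : 0 ≤ Pool.Agent.H739K.rN i := by
      rw [Pool.Agent.H739K.rN_eq]; exact Real.sqrt_nonneg _
    have h4 : (n : ℝ) / 2 * Pool.Agent.H739K.rN i ≤ 1 / (8 * (C + 1)) :=
      (mul_le_mul_of_nonneg_right h3 hrn).trans h2
    have h5 : C * Pool.Agent.H739K.rN i ≤ 1 / (4 * n) := by
      rw [le_div_iff₀ (by positivity)] at h4 ⊢
      nlinarith [mul_nonneg hnR.le hrn]
    exact h1.trans h5
  have hnR : (0 : ℝ) < n := by linarith
  have hn3 : (3 : ℝ) ≤ n := by exact_mod_cast hM3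
  have hlow : ∀ j ∈ Finset.Icc 2 n, Fp N ≤ 2 * Fp (N - j) := by
    intro j hj
    rw [Finset.mem_Icc] at hj
    have e : N - j + j = N := by omega
    have h1 := (win2 (a := N - j) (k := j) (δ := 1 / (4 * n)) (by omega) (by positivity)
      (fun i hi _ => hr i (by omega)) (by
        have : (j : ℝ) ≤ n := by exact_mod_cast hj.2
        rw [mul_one_div, div_le_div_iff₀ (by positivity) (by norm_num)]
        linarith)).2
    rwa [e] at h1
  have hupp : ∀ c : ℕ, c ≤ 6 → Fp (N + c) ≤ 2 * Fp N := by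
    intro c hc
    exact (win2 (a := N) (k := c) (δ := 1 / (4 * n)) (by omega) (by positivity)
      (fun i hi _ => hr i (by omega)) (by
        have : (c : ℝ) ≤ 6 := by exact_mod_cast hc
        rw [mul_one_div, div_le_div_iff₀ (by positivity) (by norm_num)]
        linarith)).2
  have hlog : ∀ c : ℕ, c ≤ 6 → Real.log ((N + c : ℕ) : ℝ) ≤ 5 * Real.log n := by
    intro c hc
    have h1 : N + c ≤ n ^ 5 := by
      have : n ^ 5 = N * n := by rw [hN]; ring
      rw [this]
      nlinarith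
    have h2 : ((N + c : ℕ) : ℝ) ≤ (n : ℝ) ^ 5 := by exact_mod_cast h1
    have h3 : (0 : ℝ) < ((N + c : ℕ) : ℝ) := by
      have : 0 < N + c := by omega
      exact_mod_cast this
    calc _ ≤ Real.log ((n : ℝ) ^ 5) := Real.log_le_log h3 h2
      _ = _ := by rw [Real.log_pow]; norm_num
  have hj := hjoin N n hn (by
    have e1 : (2 * n + 1) ^ 2 = 4 * n ^ 2 + 4 * n + 1 := by ring
    rw [e1]
    omega)
  have hFN := Fp_pos (N := N) (by omega)
  have hmuN : 0 < mu ^ (2 * N) := pow_pos hmu _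
  -- divide by mu ^ (2 N)
  have hL : ∑ j ∈ Finset.Icc 2 n, MW j * PP j * PP (N - j) =
      mu ^ (2 * N) * ∑ j ∈ Finset.Icc 2 n, MW j * Fp j * Fp (N - j) := by
    rw [Finset.mul_sum]
    apply Finset.sum_congr rfl
    intro j hj
    rw [Finset.mem_Icc] at hj
    unfold Fp
    have : mu ^ (2 * N) = mu ^ (2 * j) * mu ^ (2 * (N - j)) := by
      rw [← pow_add]; congr 1; omega
    rw [this]
    have h1 : mu ^ (2 * j) ≠ 0 := (pow_pos hmu _).ne'
    have h2 : mu ^ (2 * (N - j)) ≠ 0 := (pow_pos hmu _).ne'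
    field_simp
  have hR : ∀ c : ℕ, c ≤ 6 → Real.log ((N + c : ℕ) : ℝ) ^ 5 * PP (N + c) ≤
      mu ^ (2 * N) * (3125 * Real.log n ^ 5 * (mu ^ 12 * (2 * Fp N))) := by
    intro c hc
    have h1 := hlog c hc
    have h2 := hupp c hc
    have h0 : 0 ≤ Real.log ((N + c : ℕ) : ℝ) := Real.log_natCast_nonneg _
    have e : PP (N + c) = mu ^ (2 * N) * (mu ^ (2 * c) * Fp (N + c)) := by
      unfold Fp
      have : mu ^ (2 * (N + c)) = mu ^ (2 * N) * mu ^ (2 * c) := by
        rw [← pow_add]; congr 1; ring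
      rw [this]
      have h1 : mu ^ (2 * N) ≠ 0 := (pow_pos hmu _).ne'
      have h2 : mu ^ (2 * c) ≠ 0 := (pow_pos hmu _).ne'
      field_simp
    have h3 : mu ^ (2 * c) ≤ mu ^ 12 := pow_le_pow_right₀ hmu1 (by omega)
    have h4 : 0 < Fp (N + c) := Fp_pos (by omega)
    rw [e]
    calc Real.log ((N + c : ℕ) : ℝ) ^ 5 * (mu ^ (2 * N) * (mu ^ (2 * c) * Fp (N + c)))
        ≤ (5 * Real.log n) ^ 5 * (mu ^ (2 * N) * (mu ^ 12 * (2 * Fp N))) := by gcongr
      _ = _ := by ring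
  have hRs : ∑ c ∈ ({4, 5, 6} : Finset ℕ), Real.log ((N + c : ℕ) : ℝ) ^ 5 * PP (N + c) ≤
      mu ^ (2 * N) * (3 * (3125 * Real.log n ^ 5 * (mu ^ 12 * (2 * Fp N)))) := by
    have s2 : ({4, 5, 6} : Finset ℕ).sum (fun c => Real.log ((N + c : ℕ) : ℝ) ^ 5 * PP (N + c)) =
        Real.log ((N + 4 : ℕ) : ℝ) ^ 5 * PP (N + 4) +
        (Real.log ((N + 5 : ℕ) : ℝ) ^ 5 * PP (N + 5) +
        Real.log ((N + 6 : ℕ) : ℝ) ^ 5 * PP (N + 6)) := by
      rw [Finset.sum_insert (by simp), Finset.sum_insert (by simp), Finset.sum_singleton]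
    rw [s2]
    have k1 := hR 4 (by norm_num)
    have k2 := hR 5 (by norm_num)
    have k3 := hR 6 (by norm_num)
    linarith
  rw [hL] at hj
  have h6 : ∑ j ∈ Finset.Icc 2 n, MW j * Fp j * Fp (N - j) ≤
      K * (3 * (3125 * Real.log n ^ 5 * (mu ^ 12 * (2 * Fp N)))) := by
    have h7 : mu ^ (2 * N) * ∑ j ∈ Finset.Icc 2 n, MW j * Fp j * Fp (N - j) ≤
        mu ^ (2 * N) * (K * (3 * (3125 * Real.log n ^ 5 * (mu ^ 12 * (2 * Fp N))))) := by
      calc _ ≤ _ := hj
        _ ≤ K * (mu ^ (2 * N) * (3 * (3125 * Real.log n ^ 5 * (mu ^ 12 * (2 * Fp N))))) := by gcongr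
        _ = _ := by ring
    exact le_of_mul_le_mul_left h7 hmuN
  have h8 : (∑ j ∈ Finset.Icc 2 n, MW j * Fp j) * (Fp N / 2) ≤
      ∑ j ∈ Finset.Icc 2 n, MW j * Fp j * Fp (N - j) := by
    rw [Finset.sum_mul]
    apply Finset.sum_le_sum
    intro j hj
    apply mul_le_mul_of_nonneg_left _ (hterm j (Finset.mem_Icc.mp hj).1)
    have := hlow j hj
    linarith
  have h9 : ∑ j ∈ Finset.Icc 2 n, MW j * Fp j ≤ 12 * 3125 * K * mu ^ 12 * Real.log n ^ 5 := by
    have h10 : (∑ j ∈ Finset.Icc 2 n, MW j * Fp j) * (Fp N / 2) ≤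
        (12 * 3125 * K * mu ^ 12 * Real.log n ^ 5) * (Fp N / 2) := by
      calc _ ≤ _ := h8.trans h6
        _ = _ := by ring
    exact le_of_mul_le_mul_right h10 (by positivity)
  have h11 : 0 ≤ S0 / Real.log 2 ^ 5 * Real.log n ^ 5 := by positivity
  linarith

/-- **the pointwise bound** -/
theorem point_bound : ∃ K : ℝ, 0 ≤ K ∧ ∀ n : ℕ, 2 ≤ n →
    Fp n ≤ K * (Real.log n ^ (19 / 2 : ℝ) / n) := by
  obtain ⟨K, hK, hsum⟩ := sum_bound
  obtain ⟨C, hC, hratio⟩ := Fp_ratio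
  have hl2 : 0 < Real.log 2 := Real.log_pos (by norm_num)
  have hF2 := Fp_pos (N := 2) le_rfl
  refine ⟨8192 * K * (C + 1) + Fp 2 * 2 / Real.log 2 ^ (19 / 2 : ℝ), by positivity, fun n hn => ?_⟩
  have hn' : (2 : ℝ) ≤ n := by exact_mod_cast hn
  rcases hn.eq_or_lt with h2 | h3
  · rw [← h2]
    have hp : 0 < Real.log 2 ^ (19 / 2 : ℝ) := Real.rpow_pos_of_pos hl2 _
    have e : ((2 : ℕ) : ℝ) = 2 := by norm_num
    rw [e, add_mul]
    have h4 : Fp 2 * 2 / Real.log 2 ^ (19 / 2 : ℝ) * (Real.log 2 ^ (19 / 2 : ℝ) / 2) = Fp 2 := by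
      field_simp
    rw [h4]
    have : 0 ≤ 8192 * K * (C + 1) * (Real.log 2 ^ (19 / 2 : ℝ) / 2) := by positivity
    linarith
  have hn3 : (3 : ℝ) ≤ n := by exact_mod_cast h3
  have hl1 : 1 ≤ Real.log n := by
    have : Real.exp 1 ≤ n := by
      have := Real.exp_one_lt_d9
      linarith
    calc (1 : ℝ) = Real.log (Real.exp 1) := (Real.log_exp 1).symm
      _ ≤ _ := Real.log_le_log (Real.exp_pos _) this
  have hnR : (0 : ℝ) < n := by linarith
  obtain ⟨r, hr⟩ : ∃ r, r = Real.sqrt (Real.log n ^ 9 / n) := ⟨_, rfl⟩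
  have hl9 : 1 ≤ Real.log n ^ 9 := one_le_pow₀ hl1
  have hr0 : 0 < r := by rw [hr]; apply Real.sqrt_pos.mpr; positivity
  have hsn : 0 < Real.sqrt n := Real.sqrt_pos.mpr hnR
  have hrn : 1 / Real.sqrt n ≤ r := by
    rw [hr, Real.sqrt_div (by positivity)]
    gcongr
    rw [← Real.sqrt_one]
    exact Real.sqrt_le_sqrt hl9
  have hsqn : Real.sqrt n ≤ n := by
    rw [Real.sqrt_le_left (by positivity)]
    nlinarith
  obtain ⟨k, hk⟩ : ∃ k : ℕ, k = ⌊1 / (64 * (C + 1) * r)⌋₊ := ⟨_, rfl⟩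
  have hk1 : (k : ℝ) ≤ 1 / (64 * (C + 1) * r) := by
    rw [hk]; exact Nat.floor_le (by positivity)
  have hk2 : 1 / (64 * (C + 1) * r) < k + 1 := by
    rw [hk]; exact Nat.lt_floor_add_one _
  have hkn : k ≤ n := by
    have h4 : 1 / (64 * (C + 1) * r) ≤ Real.sqrt n := by
      rw [div_le_iff₀ (by positivity)]
      rw [div_le_iff₀ hsn] at hrn
      have : r * Real.sqrt n ≤ 64 * (C + 1) * (r * Real.sqrt n) := by
        have : 0 ≤ r * Real.sqrt n := by positivity
        nlinarith [mul_nonneg hC this]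
      calc (1 : ℝ) ≤ r * Real.sqrt n := hrn
        _ ≤ _ := this
        _ = _ := by ring
    have : (k : ℝ) ≤ n := hk1.trans (h4.trans hsqn)
    exact_mod_cast this
  have hrat : ∀ i, n ≤ i → i < n + k → |Fp (i + 1) / Fp i - 1| ≤ 32 * C * r := by
    intro i hi hi2
    have h4 := hratio i (by omega)
    have hin : (n : ℝ) ≤ i := by exact_mod_cast hi
    have hi2n : (i : ℝ) ≤ n ^ 2 := by
      have : i ≤ n ^ 2 := by nlinarith
      exact_mod_cast this
    have h5 : Real.log i ≤ 2 * Real.log n := by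
      calc Real.log i ≤ Real.log ((n : ℝ) ^ 2) := Real.log_le_log (by linarith) hi2n
        _ = _ := by rw [Real.log_pow]; norm_num
    have h6 : 0 ≤ Real.log i := Real.log_nonneg (by linarith)
    have h7 : Real.sqrt (Real.log i ^ 9 / i) ≤ 32 * r := by
      have h8 : Real.log i ^ 9 / i ≤ (32 : ℝ) ^ 2 * (Real.log n ^ 9 / n) := by
        calc Real.log i ^ 9 / i ≤ (2 * Real.log n) ^ 9 / n := by gcongr
          _ = 512 * (Real.log n ^ 9 / n) := by ring
          _ ≤ _ := by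
            apply mul_le_mul_of_nonneg_right _ (by positivity)
            norm_num
      calc Real.sqrt (Real.log i ^ 9 / i) ≤ Real.sqrt ((32 : ℝ) ^ 2 * (Real.log n ^ 9 / n)) :=
            Real.sqrt_le_sqrt h8
        _ = 32 * r := by
          rw [Real.sqrt_mul (by norm_num), Real.sqrt_sq (by norm_num), hr]
    calc _ ≤ _ := h4
      _ ≤ C * (32 * r) := by gcongr
      _ = _ := by ring
  have hkd : (k : ℝ) * (32 * C * r) ≤ 1 / 2 := by
    calc (k : ℝ) * (32 * C * r) ≤ 1 / (64 * (C + 1) * r) * (32 * C * r) := by gcongr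
      _ = (C / (C + 1)) / 2 := by
        field_simp
        ring
      _ ≤ 1 / 2 := by
        have : C / (C + 1) ≤ 1 := by
          rw [div_le_one (by linarith)]
          linarith
        linarith
  have hwin : ∀ i ∈ Finset.range (k + 1), Fp n ≤ 2 * Fp (n + i) := by
    intro i hi
    rw [Finset.mem_range] at hi
    refine (win2 (a := n) (k := i) (δ := 32 * C * r) (by omega) (by positivity)
      (fun j hj hj2 => hrat j hj (by omega)) ?_).1
    have : (i : ℝ) ≤ k := by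
      have : i ≤ k := by omega
      exact_mod_cast this
    calc (i : ℝ) * (32 * C * r) ≤ k * (32 * C * r) := by gcongr
      _ ≤ _ := hkd
  have h4 := hsum (n + k) (by omega)
  have h5 : ∑ i ∈ Finset.range (k + 1), Real.sqrt n / 2 * (Fp n / 2) ≤
      ∑ j ∈ Finset.Icc 2 (n + k), MW j * Fp j := by
    calc ∑ i ∈ Finset.range (k + 1), Real.sqrt n / 2 * (Fp n / 2)
        ≤ ∑ i ∈ Finset.range (k + 1), MW (n + i) * Fp (n + i) := by
          apply Finset.sum_le_sum
          intro i hi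
          have a1 := hwin i hi
          have a2 := sqrt_le_two_MW (j := n + i) (by omega)
          have a3 : Real.sqrt n ≤ Real.sqrt ((n + i : ℕ) : ℝ) := by
            apply Real.sqrt_le_sqrt
            push_cast
            have : (0 : ℝ) ≤ i := Nat.cast_nonneg _
            linarith
          have a4 := (Fp_pos (N := n + i) (by omega)).le
          have a5 := MW_nonneg (n + i)
          have a6 := (Fp_pos (N := n) (by omega)).le
          apply mul_le_mul <;> linarith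
      _ = ∑ j ∈ (Finset.range (k + 1)).image (fun i => n + i), MW j * Fp j := by
          rw [Finset.sum_image]
          intro a _ b _ hab
          simp only at hab
          omega
      _ ≤ _ := by
          apply Finset.sum_le_sum_of_subset_of_nonneg
          · intro j hj
            rw [Finset.mem_image] at hj
            obtain ⟨i, hi, rfl⟩ := hj
            rw [Finset.mem_range] at hi
            rw [Finset.mem_Icc]
            omega
          · intro j hj _
            exact mul_nonneg (MW_nonneg j) (Fp_pos (Finset.mem_Icc.mp hj).1).le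
  rw [Finset.sum_const, Finset.card_range, nsmul_eq_mul] at h5
  have h6 : Real.log ((n + k : ℕ) : ℝ) ≤ 2 * Real.log n := by
    have : n + k ≤ n ^ 2 := by nlinarith
    have h7 : ((n + k : ℕ) : ℝ) ≤ (n : ℝ) ^ 2 := by exact_mod_cast this
    have h8 : (0 : ℝ) < ((n + k : ℕ) : ℝ) := by
      have : 0 < n + k := by omega
      exact_mod_cast this
    calc _ ≤ Real.log ((n : ℝ) ^ 2) := Real.log_le_log h8 h7
      _ = _ := by rw [Real.log_pow]; norm_num
  have h6' : 0 ≤ Real.log ((n + k : ℕ) : ℝ) := Real.log_natCast_nonneg _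
  have hFn := Fp_pos (N := n) hn
  have h7 : 1 / (64 * (C + 1) * r) * (Real.sqrt n / 2 * (Fp n / 2)) ≤ K * (32 * Real.log n ^ 5) := by
    calc 1 / (64 * (C + 1) * r) * (Real.sqrt n / 2 * (Fp n / 2))
        ≤ ((k + 1 : ℕ) : ℝ) * (Real.sqrt n / 2 * (Fp n / 2)) := by
          apply mul_le_mul_of_nonneg_right _ (by positivity)
          push_cast
          exact hk2.le
      _ ≤ _ := h5
      _ ≤ _ := h4
      _ ≤ K * (2 * Real.log n) ^ 5 := by gcongr
      _ = _ := by ring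
  have h8 : Fp n ≤ 8192 * K * (C + 1) * (Real.log n ^ 5 * r / Real.sqrt n) := by
    have e : 1 / (64 * (C + 1) * r) * (Real.sqrt n / 2 * (Fp n / 2)) =
        Fp n * (Real.sqrt n / (256 * (C + 1) * r)) := by
      field_simp
      ring
    rw [e] at h7
    have h9 : 0 < Real.sqrt n / (256 * (C + 1) * r) := by positivity
    rw [← le_div_iff₀ h9] at h7
    calc Fp n ≤ _ := h7
      _ = _ := by
        field_simp
        ring
  have h9 : Real.log n ^ 5 * r / Real.sqrt n = Real.log n ^ (19 / 2 : ℝ) / n := by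
    have e1 : r / Real.sqrt n = Real.sqrt (Real.log n ^ 9) / n := by
      rw [hr, Real.sqrt_div (by positivity), div_div, Real.mul_self_sqrt hnR.le]
    have e2 : Real.sqrt (Real.log n ^ 9) = Real.log n ^ (9 / 2 : ℝ) := by
      rw [Real.sqrt_eq_rpow, ← Real.rpow_natCast, ← Real.rpow_mul (by linarith)]
      norm_num
    rw [mul_div_assoc, e1, e2, ← mul_div_assoc]
    congr 1
    rw [← Real.rpow_natCast, ← Real.rpow_add (by linarith)]
    norm_num
  rw [h9] at h8
  have h10 : 0 ≤ Fp 2 * 2 / Real.log 2 ^ (19 / 2 : ℝ) * (Real.log n ^ (19 / 2 : ℝ) / n) := by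
    positivity
  linarith

end Pool.Agent.W870.Pg
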