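import Mathlib

/-!
Polygons on `ℤ²` as lists of sites.
-/

set_option autoImplicit false

namespace Pool.Agent.W870.Pg

/-- sites: (level, position) -/
abbrev V := ℤ × ℤ

/-- nearest neighbours -/
def adj (u v : V) : Prop :=
  (u.1 = v.1 ∧ (v.2 = u.2 + 1 ∨ v.2 = u.2 - 1)) ∨ (u.2 = v.2 ∧ (v.1 = u.1 + 1 ∨ v.1 = u.1 - 1))

lemma adj_symm {u v : V} (h : adj u v) : adj v u := by
  unfold adj at *; omega

lemma adj_comm {u v : V} : adj u v ↔ adj v u := ⟨adj_symm, adj_symm⟩

lemma adj_fst {u v : V} (h : adj u v) : |v.1 - u.1| ≤ 1 := by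
  unfold adj at h
  rw [abs_le]; omega

lemma adj_iff_abs (u v : V) : adj u v ↔ |v.1 - u.1| + |v.2 - u.2| = 1 := by
  unfold adj
  constructor
  · rintro (⟨h1, h2 | h2⟩ | ⟨h1, h2 | h2⟩) <;> rw [h1, h2] <;> simp
  · intro h
    rcases abs_cases (v.1 - u.1) with ⟨h1, h2⟩ | ⟨h1, h2⟩ <;>
    rcases abs_cases (v.2 - u.2) with ⟨h3, h4⟩ | ⟨h3, h4⟩ <;> omega

/-- lexicographically positive -/
def lexpos (v : V) : Prop := 0 < v.1 ∨ (v.1 = 0 ∧ 0 < v.2)

/-- lexicographic order -/
def lexlt (u v : V) : Prop := u.1 < v.1 ∨ (u.1 = v.1 ∧ u.2 < v.2)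

/-- the list of the sites of a polygon other than its lexicographically smallest one, the origin;
the first site is `(1,0)` and the last one is `(0,1)`. -/
structure Can (m : List V) : Prop where
  nd : m.Nodup
  ch : m.IsChain adj
  hd : m.head? = some (1, 0)
  lt : m.getLast? = some (0, 1)
  lp : ∀ v ∈ m, lexpos v

lemma chain_symm {l : List V} (h : l.IsChain adj) : l.reverse.IsChain adj := by
  rw [List.isChain_reverse]
  exact h.imp (fun _ _ => adj_symm)

lemma chain_map_sub {l : List V} (K : V) (h : l.IsChain adj) :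
    (l.map (fun v => K - v)).IsChain adj := by
  rw [List.isChain_map]
  refine h.imp ?_
  intro a b h
  unfold adj at *
  simp only [Prod.fst_sub, Prod.snd_sub]
  omega

/-- replacement of a sublist: nodup -/
lemma nodup_replace {L1 L2 old new : List V} (h : (L1 ++ old ++ L2).Nodup) (hn : new.Nodup)
    (hf : ∀ v ∈ new, v ∈ old ∨ v ∉ L1 ++ old ++ L2) : (L1 ++ new ++ L2).Nodup := by
  rw [List.nodup_append, List.nodup_append] at h ⊢
  obtain ⟨⟨h1, h2, h3⟩, h4, h5⟩ := h
  refine ⟨⟨h1, hn, ?_⟩, h4, ?_⟩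
  · intro a ha b hb hab
    subst hab
    rcases hf a hb with h6 | h6
    · exact h3 a ha a h6 rfl
    · apply h6; simp [ha]
  · intro a ha b hb hab
    subst hab
    rw [List.mem_append] at ha
    rcases ha with ha | ha
    · exact h5 a (by simp [ha]) a hb rfl
    · rcases hf a ha with h6 | h6
      · exact h5 a (by simp [h6]) a hb rfl
      · apply h6; simp [hb]

/-- replacement of a sublist: chain -/
lemma chain_replace {L1 L2 old new : List V} (h : (L1 ++ old ++ L2).IsChain adj)
    (hn : new.IsChain adj) (h0 : old ≠ []) (h1 : new.head? = old.head?)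
    (h2 : new.getLast? = old.getLast?) : (L1 ++ new ++ L2).IsChain adj := by
  have hn0 : new ≠ [] := by
    intro h; subst h
    simp only [List.head?_nil] at h1
    exact h0 (List.head?_eq_none_iff.mp h1.symm)
  rw [List.isChain_append, List.isChain_append] at h ⊢
  obtain ⟨⟨c1, c2, c3⟩, c4, c5⟩ := h
  refine ⟨⟨c1, hn, ?_⟩, c4, ?_⟩
  · rw [h1]; exact c3
  · rw [List.getLast?_append_of_ne_nil _ hn0, h2]
    rwa [List.getLast?_append_of_ne_nil _ h0] at c5

lemma head?_replace {L1 L2 old new : List V} (h0 : old ≠ []) (h1 : new.head? = old.head?) :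
    (L1 ++ new ++ L2).head? = (L1 ++ old ++ L2).head? := by
  have hn0 : new ≠ [] := by
    intro h; subst h
    simp only [List.head?_nil] at h1
    exact h0 (List.head?_eq_none_iff.mp h1.symm)
  cases L1 with
  | nil =>
    simp only [List.nil_append, List.head?_append]
    rw [h1]
  | cons a t => simp

lemma getLast?_replace {L1 L2 old new : List V} (h0 : old ≠ [])
    (h1 : new.getLast? = old.getLast?) :
    (L1 ++ new ++ L2).getLast? = (L1 ++ old ++ L2).getLast? := by
  have hn0 : new ≠ [] := by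
    intro h; subst h
    simp only [List.getLast?_nil] at h1
    exact h0 (List.getLast?_eq_none_iff.mp h1.symm)
  rcases List.eq_nil_or_concat L2 with h | ⟨L, b, h⟩
  · subst h
    simp only [List.append_nil]
    rw [List.getLast?_append_of_ne_nil _ hn0, List.getLast?_append_of_ne_nil _ h0, h1]
  · subst h
    simp

end Pool.Agent.W870.Pg
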