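import Pool.Agent.W870.Pg.Ana3

/-!
Final statements for the numbers of polygons.
-/

set_option autoImplicit false

namespace Pool.Agent.W870.Pg

open Pool.Agent.H924P H981

/-- the mean width written with a sum over the set of all loops -/
lemma MW_eq {n : ℕ} (hn : 2 ≤ n) :
    (∑ᶠ f ∈ {f : ZMod (2 * n) → ℤ × ℤ | Pool.Agent.H924P.IsLoop (2 * n) f}, (width (2 * n) f : ℝ)) /
    ({f : ZMod (2 * n) → ℤ × ℤ | Pool.Agent.H924P.IsLoop (2 * n) f}.ncard : ℝ) = MW n := by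
  have : NeZero (2 * n) := ⟨by omega⟩
  have e : {f : ZMod (2 * n) → ℤ × ℤ | Pool.Agent.H924P.IsLoop (2 * n) f} =
      ((LF (2 * n) : Finset (ZMod (2 * n) → V)) : Set (ZMod (2 * n) → ℤ × ℤ)) := by
    ext f
    rw [Finset.mem_coe, mem_LF]
    exact Iff.rfl
  unfold MW
  rw [e, Set.ncard_coe_finset, finsum_mem_coe_finset]

/-- the sum bound with both weights -/
theorem sum_final : ∃ K : ℝ, ∀ n : ℕ, 2 ≤ n →
    ∑ j ∈ Finset.Icc 2 n, (MW j + Real.sqrt j) * PP j / mu ^ (2 * j) ≤ K * Real.log n ^ 5 := by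
  obtain ⟨K, hK, h⟩ := sum_bound
  refine ⟨3 * K, fun n hn => ?_⟩
  have h1 := h n hn
  calc ∑ j ∈ Finset.Icc 2 n, (MW j + Real.sqrt j) * PP j / mu ^ (2 * j)
      ≤ ∑ j ∈ Finset.Icc 2 n, 3 * (MW j * Fp j) := by
        apply Finset.sum_le_sum
        intro j hj
        have hj2 := (Finset.mem_Icc.mp hj).1
        have a1 := sqrt_le_two_MW hj2
        have a2 := (Fp_pos hj2).le
        have e : (MW j + Real.sqrt j) * PP j / mu ^ (2 * j) = (MW j + Real.sqrt j) * Fp j := by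
          unfold Fp; ring
        rw [e]
        nlinarith
    _ = 3 * ∑ j ∈ Finset.Icc 2 n, MW j * Fp j := by rw [Finset.mul_sum]
    _ ≤ 3 * (K * Real.log n ^ 5) := by linarith
    _ = _ := by ring

/-- the pointwise bound -/
theorem point_final : ∃ K : ℝ, ∀ n : ℕ, 2 ≤ n →
    PP n ≤ K * (Real.log n ^ (19 / 2 : ℝ) / n) * mu ^ (2 * n) := by
  obtain ⟨K, hK, h⟩ := point_bound
  refine ⟨K, fun n hn => ?_⟩
  have h1 := h n hn
  unfold Fp at h1
  rwa [div_le_iff₀ (pow_pos mu_pos _)] at h1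

end Pool.Agent.W870.Pg
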