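import Pool.Agent.W870.Pg.Basic

/-!
The finger lemma: a local modification of a polygon near a site that is rightmost in three levels.
-/

set_option autoImplicit false

namespace Pool.Agent.W870.Pg

/-- the sublists to be replaced -/
def old (k : Fin 5) (σ y a : ℤ) : List V :=
  match k with
  | 0 => [(y, a), (y + σ, a)]
  | 1 => [(y - σ, a), (y, a)]
  | 2 => [(y - σ, a), (y, a)]
  | 3 => [(y - σ, a + 1), (y - σ, a), (y, a)]
  | 4 => [(y - σ, a + 2), (y - σ, a + 1)]

/-- first half of the replacement; ends with `(y, a+2)` -/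
def n1 (k : Fin 5) (σ y a : ℤ) : List V :=
  match k with
  | 0 => [(y, a), (y, a + 1), (y, a + 2)]
  | 1 => [(y - σ, a), (y - σ, a + 1), (y - σ, a + 2), (y, a + 2)]
  | 2 => [(y - σ, a), (y - σ, a + 1), (y, a + 1), (y, a + 2)]
  | 3 => [(y - σ, a + 1), (y, a + 1), (y, a + 2)]
  | 4 => [(y - σ, a + 2), (y, a + 2)]

/-- second half of the replacement; starts with `(y+σ, a+2)` -/
def n2 (k : Fin 5) (σ y a : ℤ) : List V :=
  match k with
  | 0 => [(y + σ, a + 2), (y + σ, a + 1), (y + σ, a)]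
  | 1 => [(y + σ, a + 2), (y + σ, a + 1), (y, a + 1), (y, a)]
  | 2 => [(y + σ, a + 2), (y + σ, a + 1), (y + σ, a), (y, a)]
  | 3 => [(y + σ, a + 2), (y + σ, a + 1), (y + σ, a), (y, a)]
  | 4 => [(y + σ, a + 2), (y + σ, a + 1), (y, a + 1), (y - σ, a + 1)]

lemma infix_adj {m : List V} (h : m.IsChain adj) {x y : V} (hi : [x, y] <:+: m) : adj x y := by
  obtain ⟨s, t, rfl⟩ := hi
  have := (List.isChain_append.mp (List.isChain_append.mp h).1).2.1
  simpa using this

lemma infix_mem {m : List V} {x y : V} (hi : [x, y] <:+: m) : x ∈ m ∧ y ∈ m := by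
  obtain ⟨s, t, rfl⟩ := hi
  simp

lemma infix_rev {m : List V} {x y : V} (hi : [x, y] <:+: m) : [y, x] <:+: m.reverse := by
  have := List.reverse_infix.mpr hi
  simpa using this

/-- the two neighbours of a site in the cycle -/
lemma nbr {m : List V} (hm : Can m) {v : V} (hv : v ∈ m) :
    ∃ x z, x ≠ z ∧ ([x, v] <:+: m ∨ (x = (0, 0) ∧ v = (1, 0))) ∧
      ([v, z] <:+: m ∨ (z = (0, 0) ∧ v = (0, 1))) := by
  obtain ⟨A, B, rfl⟩ := List.append_of_mem hv
  have h0 : ((0 : ℤ), (0 : ℤ)) ∉ A ++ v :: B := fun h => by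
    have := hm.lp _ h
    unfold lexpos at this
    simp at this
  rcases List.eq_nil_or_concat A with hA | ⟨A', x, hA⟩
  · subst hA
    have hd := hm.hd
    simp only [List.nil_append, List.head?_cons, Option.some.injEq] at hd
    cases B with
    | nil =>
      have hl := hm.lt
      simp only [List.nil_append, List.getLast?_singleton, Option.some.injEq] at hl
      rw [hd] at hl
      simp at hl
    | cons z B' =>
      refine ⟨(0, 0), z, ?_, Or.inr ⟨rfl, hd⟩, Or.inl ⟨[], B', rfl⟩⟩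
      rintro rfl
      exact h0 (by simp)
  · subst hA
    cases B with
    | nil =>
      have hl := hm.lt
      simp only [List.getLast?_append, List.getLast?_singleton, Option.some_or,
        Option.some.injEq] at hl
      refine ⟨x, (0, 0), ?_, Or.inl ⟨A', [], by simp⟩, Or.inr ⟨rfl, hl⟩⟩
      rintro rfl
      exact h0 (by simp)
    | cons z B' =>
      refine ⟨x, z, ?_, Or.inl ⟨A', z :: B', by simp⟩, Or.inl ⟨A' ++ [x], B', by simp⟩⟩
      rintro rfl
      exact (List.nodup_append.mp hm.nd).2.2 x (by simp) x (by simp) rfl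

/-- consecutive triples -/
lemma infix_glue {m : List V} (hm : m.Nodup) {v t u : V} (h1 : [v, t] <:+: m)
    (h2 : [t, u] <:+: m) : [v, t, u] <:+: m := by
  obtain ⟨s, r, rfl⟩ := h1
  obtain ⟨s', r', h2⟩ := h2
  refine ⟨s, r'.drop 0, ?_⟩
  have e1 : s ++ [v, t] ++ r = (s ++ [v]) ++ (t :: r) := by simp
  have e2 : s' ++ [t, u] ++ r' = s' ++ (t :: (u :: r')) := by simp
  rw [e1] at hm ⊢
  rw [e2, e1] at h2
  -- uniqueness of the splitting at `t`
  have key : s' = s ++ [v] := by
    have hn : t ∉ s ++ [v] := by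
      intro h
      exact (List.nodup_append.mp hm).2.2 t h t (by simp) rfl
    have hm2 := hm
    rw [← h2] at hm2
    have hn' : t ∉ s' := by
      intro h
      exact (List.nodup_append.mp hm2).2.2 t h t (by simp) rfl
    have f1 := congrArg (List.takeWhile (fun x => decide (x ≠ t))) h2
    rw [List.takeWhile_append_of_pos, List.takeWhile_append_of_pos] at f1
    · simpa using f1
    · intro x hx
      simp only [decide_eq_true_eq]
      rintro rfl
      exact hn hx
    · intro x hx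
      simp only [decide_eq_true_eq]
      rintro rfl
      exact hn' hx
  rw [key] at h2
  have h3 := List.append_cancel_left h2
  simp only [List.cons.injEq, true_and] at h3
  rw [← h3]
  simp

lemma infix_left_unique {m : List V} (hm : m.Nodup) {x y t : V} (h1 : [x, t] <:+: m)
    (h2 : [y, t] <:+: m) : x = y := by
  obtain ⟨s, r, rfl⟩ := h1
  obtain ⟨s', r', h2⟩ := h2
  have e1 : s ++ [x, t] ++ r = (s ++ [x]) ++ (t :: r) := by simp
  have e2 : s' ++ [y, t] ++ r' = (s' ++ [y]) ++ (t :: r') := by simp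
  rw [e1] at hm
  rw [e2, e1] at h2
  have key : s' ++ [y] = s ++ [x] := by
    have hn : t ∉ s ++ [x] := by
      intro h
      exact (List.nodup_append.mp hm).2.2 t h t (by simp) rfl
    have hm2 := hm
    rw [← h2] at hm2
    have hn' : t ∉ s' ++ [y] := by
      intro h
      exact (List.nodup_append.mp hm2).2.2 t h t (by simp) rfl
    have f1 := congrArg (List.takeWhile (fun x => decide (x ≠ t))) h2
    rw [List.takeWhile_append_of_pos, List.takeWhile_append_of_pos] at f1
    · simpa using f1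
    · intro x hx
      simp only [decide_eq_true_eq]
      rintro rfl
      exact hn hx
    · intro x hx
      simp only [decide_eq_true_eq]
      rintro rfl
      exact hn' hx
  have := List.append_inj_right' key rfl
  simpa using this.symm

lemma infix_right_unique {m : List V} (hm : m.Nodup) {x y t : V} (h1 : [t, x] <:+: m)
    (h2 : [t, y] <:+: m) : x = y :=
  infix_left_unique (List.nodup_reverse.mpr hm) (infix_rev h1) (infix_rev h2)

/-- the new sites -/
def Fresh (m : List V) (k : Fin 5) (σ y a : ℤ) : Prop :=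
  ∀ w ∈ n1 k σ y a ++ n2 k σ y a, w ∈ old k σ y a ∨ (w ∉ m ∧ lexpos w ∧ a ≤ w.2 ∧ w.2 ≤ a + 2 ∧
    |w.1 - y| ≤ 1)

/-- the condition on a new site -/
def Gd (m : List V) (y a r c : ℤ) : Prop :=
  (r, c) ∉ m ∧ lexpos (r, c) ∧ a ≤ (r, c).2 ∧ (r, c).2 ≤ a + 2 ∧ |(r, c).1 - y| ≤ 1

lemma fresh0 {m : List V} {y a σ : ℤ} (hσ : σ = 1 ∨ σ = -1)
    (hfr : ∀ r c : ℤ, -1 ≤ r - y → r - y ≤ 1 → a < c → c ≤ a + 2 → Gd m y a r c) :
    Fresh m 0 σ y a := by
  intro w hw
  simp only [n1, n2, List.cons_append, List.nil_append, List.mem_cons,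
    List.not_mem_nil, or_false] at hw
  rcases hw with rfl | rfl | rfl | rfl | rfl | rfl
  · left; simp [old]
  · right; exact hfr _ _ (by omega) (by omega) (by omega) (by omega)
  · right; exact hfr _ _ (by omega) (by omega) (by omega) (by omega)
  · right; exact hfr _ _ (by omega) (by omega) (by omega) (by omega)
  · right; exact hfr _ _ (by omega) (by omega) (by omega) (by omega)
  · left; simp [old]

lemma fresh1 {m : List V} {y a σ : ℤ} (hσ : σ = 1 ∨ σ = -1)
    (hfr : ∀ r c : ℤ, -1 ≤ r - y → r - y ≤ 1 → a < c → c ≤ a + 2 → Gd m y a r c) :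
    Fresh m 1 σ y a := by
  intro w hw
  simp only [n1, n2, List.cons_append, List.nil_append, List.mem_cons,
    List.not_mem_nil, or_false] at hw
  rcases hw with rfl | rfl | rfl | rfl | rfl | rfl | rfl | rfl
  · left; simp [old]
  · right; exact hfr _ _ (by omega) (by omega) (by omega) (by omega)
  · right; exact hfr _ _ (by omega) (by omega) (by omega) (by omega)
  · right; exact hfr _ _ (by omega) (by omega) (by omega) (by omega)
  · right; exact hfr _ _ (by omega) (by omega) (by omega) (by omega)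
  · right; exact hfr _ _ (by omega) (by omega) (by omega) (by omega)
  · right; exact hfr _ _ (by omega) (by omega) (by omega) (by omega)
  · left; simp [old]

lemma fresh4 {m : List V} {y a d : ℤ}
    (hfr : ∀ r c : ℤ, (r = y ∨ r = y + d) → a < c → c ≤ a + 2 → Gd m y a r c) :
    Fresh m 4 d y a := by
  intro w hw
  simp only [n1, n2, List.cons_append, List.nil_append, List.mem_cons,
    List.not_mem_nil, or_false] at hw
  rcases hw with rfl | rfl | rfl | rfl | rfl | rfl
  · left; simp [old]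
  · right; exact hfr _ _ (by omega) (by omega) (by omega)
  · right; exact hfr _ _ (by omega) (by omega) (by omega)
  · right; exact hfr _ _ (by omega) (by omega) (by omega)
  · right; exact hfr _ _ (by omega) (by omega) (by omega)
  · left; simp [old]

lemma fresh3 {m : List V} {y a d : ℤ}
    (hfr : ∀ r c : ℤ, (r = y ∨ r = y + d) → a < c → c ≤ a + 2 → Gd m y a r c)
    (hfr2 : Gd m y a (y + d) a) : Fresh m 3 d y a := by
  intro w hw
  simp only [n1, n2, List.cons_append, List.nil_append, List.mem_cons,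
    List.not_mem_nil, or_false] at hw
  rcases hw with rfl | rfl | rfl | rfl | rfl | rfl | rfl
  · left; simp [old]
  · right; exact hfr _ _ (by omega) (by omega) (by omega)
  · right; exact hfr _ _ (by omega) (by omega) (by omega)
  · right; exact hfr _ _ (by omega) (by omega) (by omega)
  · right; exact hfr _ _ (by omega) (by omega) (by omega)
  · right; exact hfr2
  · left; simp [old]

lemma fresh2 {m : List V} {y a d : ℤ}
    (hfr : ∀ r c : ℤ, (r = y ∨ r = y + d) → a < c → c ≤ a + 2 → Gd m y a r c)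
    (hfr2 : Gd m y a (y + d) a) (hfr3 : Gd m y a (y - d) (a + 1)) : Fresh m 2 d y a := by
  intro w hw
  simp only [n1, n2, List.cons_append, List.nil_append, List.mem_cons,
    List.not_mem_nil, or_false] at hw
  rcases hw with rfl | rfl | rfl | rfl | rfl | rfl | rfl | rfl
  · left; simp [old]
  · right; exact hfr3
  · right; exact hfr _ _ (by omega) (by omega) (by omega)
  · right; exact hfr _ _ (by omega) (by omega) (by omega)
  · right; exact hfr _ _ (by omega) (by omega) (by omega)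
  · right; exact hfr _ _ (by omega) (by omega) (by omega)
  · right; exact hfr2
  · left; simp [old]

/-- cyclic neighbours -/
lemma nbr' {m : List V} (hm : Can m) {r c : ℤ} (hv : (r, c) ∈ m) :
    ∃ x1 x2 z1 z2 : ℤ, (x1 ≠ z1 ∨ x2 ≠ z2) ∧
      ([(x1, x2), (r, c)] <:+: m ∨ ((x1, x2) = ((0 : ℤ), (0 : ℤ)))) ∧
      ([(r, c), (z1, z2)] <:+: m ∨ ((z1, z2) = ((0 : ℤ), (0 : ℤ)))) ∧
      ((x1, x2) ∈ m ∨ (x1, x2) = ((0 : ℤ), (0 : ℤ))) ∧
      ((z1, z2) ∈ m ∨ (z1, z2) = ((0 : ℤ), (0 : ℤ))) ∧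
      ((x1 = r ∧ (x2 = c - 1 ∨ x2 = c + 1)) ∨ (x2 = c ∧ (x1 = r - 1 ∨ x1 = r + 1))) ∧
      ((z1 = r ∧ (z2 = c - 1 ∨ z2 = c + 1)) ∨ (z2 = c ∧ (z1 = r - 1 ∨ z1 = r + 1))) := by
  obtain ⟨x, z, hxz, hx, hz⟩ := nbr hm hv
  have hadx : adj x (r, c) := by
    rcases hx with hx | ⟨hx, hx2⟩
    · exact infix_adj hm.ch hx
    · rw [hx, hx2]; unfold adj; simp
  have hadz : adj (r, c) z := by
    rcases hz with hz | ⟨hz, hz2⟩
    · exact infix_adj hm.ch hz
    · rw [hz, hz2]; unfold adj; simp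
  refine ⟨x.1, x.2, z.1, z.2, ?_, ?_, ?_, ?_, ?_, ?_, ?_⟩
  · by_contra hcon
    push Not at hcon
    exact hxz (Prod.ext hcon.1 hcon.2)
  · rcases hx with hx | hx
    · exact Or.inl hx
    · exact Or.inr hx.1
  · rcases hz with hz | hz
    · exact Or.inl hz
    · exact Or.inr hz.1
  · rcases hx with hx | hx
    · exact Or.inl (infix_mem hx).1
    · exact Or.inr hx.1
  · rcases hz with hz | hz
    · exact Or.inl (infix_mem hz).2
    · exact Or.inr hz.1
  · unfold adj at hadx
    simp only at hadx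
    clear hx hz hxz hadz hv
    omega
  · unfold adj at hadz
    simp only at hadz
    clear hx hz hxz hadx hv
    omega

lemma pick {r c p1 p2 q1 q2 d : ℤ} (hd : d = 1 ∨ d = -1) (hne : p1 ≠ q1 ∨ p2 ≠ q2)
    (hp : (p1 = r ∧ (p2 = c - 1 ∨ p2 = c + 1)) ∨ (p2 = c ∧ (p1 = r - 1 ∨ p1 = r + 1)))
    (hq : (q1 = r ∧ (q2 = c - 1 ∨ q2 = c + 1)) ∨ (q2 = c ∧ (q1 = r - 1 ∨ q1 = r + 1)))
    (hp1 : ¬ (p1 = r + d ∧ p2 = c)) (hq1 : ¬ (q1 = r + d ∧ q2 = c))
    (hp2 : ¬ (p1 = r ∧ p2 = c + 1)) (hq2 : ¬ (q1 = r ∧ q2 = c + 1)) :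
    (p1 = r ∧ p2 = c - 1 ∧ q1 = r - d ∧ q2 = c) ∨ (q1 = r ∧ q2 = c - 1 ∧ p1 = r - d ∧ p2 = c) := by
  have h1 : (p1 = r ∧ p2 = c - 1) ∨ (p1 = r - d ∧ p2 = c) := by
    clear hq hq1 hq2 hne
    rcases hd with rfl | rfl <;> rcases hp with ⟨e1, e2 | e2⟩ | ⟨e1, e2 | e2⟩ <;> omega
  have h2 : (q1 = r ∧ q2 = c - 1) ∨ (q1 = r - d ∧ q2 = c) := by
    clear hp hp1 hp2 hne h1
    rcases hd with rfl | rfl <;> rcases hq with ⟨e1, e2 | e2⟩ | ⟨e1, e2 | e2⟩ <;> omega
  clear hp hq hp1 hq1 hp2 hq2 hd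
  rcases h1 with h1 | h1 <;> rcases h2 with h2 | h2
  · omega
  · left; exact ⟨h1.1, h1.2, h2.1, h2.2⟩
  · right; exact ⟨h2.1, h2.2, h1.1, h1.2⟩
  · omega

/-- **The finger lemma**, same level -/
theorem finger0 {m : List V} (hm : Can m) {y a σ : ℤ} (hu : (y, a) ∈ m ∨ (y, a) = (0, 0))
    (hσ : σ = 1 ∨ σ = -1) (h1 : 1 ≤ y)
    (hc : ∀ v : V, (v ∈ m ∨ v = (0, 0)) → |v.1 - y| ≤ 1 → v.2 ≤ a) :
    ∃ (k : Fin 5) (L1 L2 : List V),
      (m = L1 ++ old k σ y a ++ L2 ∨ m.reverse = L1 ++ old k σ y a ++ L2) ∧ Fresh m k σ y a := by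
  have h01 : ((0 : ℤ), (1 : ℤ)) ∈ m := List.mem_of_getLast? hm.lt
  have hc' : ∀ r c : ℤ, ((r, c) ∈ m ∨ (r, c) = ((0 : ℤ), (0 : ℤ))) → -1 ≤ r - y →
      r - y ≤ 1 → c ≤ a := fun r c h h2 h3 => hc (r, c) h (abs_le.mpr ⟨h2, h3⟩)
  have hy1 : y = 1 → 1 ≤ a := fun h => hc' 0 1 (Or.inl h01) (by omega) (by omega)
  have hum : (y, a) ∈ m := by
    rcases hu with h | h
    · exact h
    · simp only [Prod.mk.injEq] at h
      omega
  have ht0 : ∀ r : ℤ, -1 ≤ r - y → r - y ≤ 1 → (r, a) ≠ ((0 : ℤ), (0 : ℤ)) := by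
    intro r h2 h3 h
    simp only [Prod.mk.injEq] at h
    omega
  have hfr : ∀ r c : ℤ, -1 ≤ r - y → r - y ≤ 1 → a < c → c ≤ a + 2 → Gd m y a r c := by
    intro r c h2 h3 h4 h5
    refine ⟨fun h => ?_, ?_, by simp only; omega, by simp only; omega, ?_⟩
    · have := hc' r c (Or.inl h) (by omega) (by omega)
      omega
    · unfold lexpos
      simp only
      omega
    · simp only [abs_le]; omega
  obtain ⟨x1, x2, z1, z2, hne, hx, hz, hmemx, hmemz, hadx, hadz⟩ := nbr' hm hum
  have hx3 : x1 = y → x2 ≤ a := fun h => hc' x1 x2 hmemx (by omega) (by omega)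
  have hz3 : z1 = y → z2 ≤ a := fun h => hc' z1 z2 hmemz (by omega) (by omega)
  have hor : ∀ t : V, t ≠ (0, 0) → (t = (x1, x2) ∨ t = (z1, z2)) →
      ([(y, a), t] <:+: m ∨ [(y, a), t] <:+: m.reverse) := by
    intro t ht h
    rcases h with h | h
    · subst h
      rcases hx with hx | hx
      · exact Or.inr (infix_rev hx)
      · exact absurd hx ht
    · subst h
      rcases hz with hz | hz
      · exact Or.inl hz
      · exact absurd hz ht
  have hor' : ∀ t : V, t ≠ (0, 0) → (t = (x1, x2) ∨ t = (z1, z2)) →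
      ([t, (y, a)] <:+: m ∨ [t, (y, a)] <:+: m.reverse) := by
    intro t ht h
    rcases hor t ht h with h2 | h2
    · exact Or.inr (infix_rev h2)
    · left
      have := infix_rev h2
      simpa using this
  by_cases hE : ((y + σ, a) = (x1, x2) ∨ (y + σ, a) = (z1, z2))
  · have h3 := hor (y + σ, a) (ht0 _ (by omega) (by omega)) hE
    rcases h3 with ⟨L1, L2, h3⟩ | ⟨L1, L2, h3⟩
    · exact ⟨0, L1, L2, Or.inl h3.symm, fresh0 hσ hfr⟩
    · exact ⟨0, L1, L2, Or.inr h3.symm, fresh0 hσ hfr⟩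
  · have hE2 : ((y - σ, a) = (x1, x2) ∨ (y - σ, a) = (z1, z2)) := by
      simp only [Prod.mk.injEq] at hE ⊢
      rcases pick hσ hne hadx hadz (fun h => hE (Or.inl ⟨h.1.symm, h.2.symm⟩))
        (fun h => hE (Or.inr ⟨h.1.symm, h.2.symm⟩))
        (fun h => by have := hx3 h.1; have := h.2; linarith)
        (fun h => by have := hz3 h.1; have := h.2; linarith) with h | h
      · exact Or.inr ⟨h.2.2.1.symm, h.2.2.2.symm⟩
      · exact Or.inl ⟨h.2.2.1.symm, h.2.2.2.symm⟩
    have h3 := hor' (y - σ, a) (ht0 _ (by omega) (by omega)) hE2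
    rcases h3 with ⟨L1, L2, h3⟩ | ⟨L1, L2, h3⟩
    · exact ⟨1, L1, L2, Or.inl h3.symm, fresh1 hσ hfr⟩
    · exact ⟨1, L1, L2, Or.inr h3.symm, fresh1 hσ hfr⟩

/-- **The finger lemma**, neighbouring level -/
theorem finger1 {m : List V} (hm : Can m) {y a d : ℤ} (hu : (y, a) ∈ m ∨ (y, a) = (0, 0))
    (hσ : d = 1 ∨ d = -1) (h1 : 1 ≤ y + d)
    (hc : ∀ v : V, (v ∈ m ∨ v = (0, 0)) → |v.1 - (y + d)| ≤ 1 → v.2 ≤ a)
    (hc2 : ∀ v : V, (v ∈ m ∨ v = (0, 0)) → v.1 = y + d → v.2 < a) :
    ∃ (k : Fin 5) (L1 L2 : List V),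
      (m = L1 ++ old k d y a ++ L2 ∨ m.reverse = L1 ++ old k d y a ++ L2) ∧ Fresh m k d y a := by
  have h01 : ((0 : ℤ), (1 : ℤ)) ∈ m := List.mem_of_getLast? hm.lt
  have hlp : ∀ r c : ℤ, ((r, c) ∈ m ∨ (r, c) = ((0 : ℤ), (0 : ℤ))) → 0 ≤ r ∧ (r = 0 → 0 ≤ c) := by
    intro r c h
    rcases h with h | h
    · have := hm.lp _ h
      unfold lexpos at this
      simp only at this
      omega
    · simp only [Prod.mk.injEq] at h
      omega
  have hc' : ∀ r c : ℤ, ((r, c) ∈ m ∨ (r, c) = ((0 : ℤ), (0 : ℤ))) → -1 ≤ r - (y + d) →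
      r - (y + d) ≤ 1 → c ≤ a := fun r c h h2 h3 => hc (r, c) h (abs_le.mpr ⟨h2, h3⟩)
  have hc3 : ∀ r c : ℤ, ((r, c) ∈ m ∨ (r, c) = ((0 : ℤ), (0 : ℤ))) → r = y + d → c < a :=
    fun r c h h2 => hc2 (r, c) h h2
  have hum : (y, a) ∈ m := by
    rcases hu with h | h
    · exact h
    · simp only [Prod.mk.injEq] at h
      have := hc' 0 1 (Or.inl h01) (by omega) (by omega)
      omega
  obtain ⟨x1, x2, z1, z2, hne, hx, hz, hmemx, hmemz, hadx, hadz⟩ := nbr' hm hum
  have hx3 : x1 = y → x2 ≤ a := fun h => hc' x1 x2 hmemx (by omega) (by omega)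
  have hz3 : z1 = y → z2 ≤ a := fun h => hc' z1 z2 hmemz (by omega) (by omega)
  have hx4 : x1 = y + d → x2 < a := hc3 x1 x2 hmemx
  have hz4 : z1 = y + d → z2 < a := hc3 z1 z2 hmemz
  have hE2 : ((y - d, a) = (x1, x2) ∨ (y - d, a) = (z1, z2)) := by
    simp only [Prod.mk.injEq]
    rcases pick hσ hne hadx hadz
      (fun h => by have := hx4 h.1; have := h.2; linarith)
      (fun h => by have := hz4 h.1; have := h.2; linarith)
      (fun h => by have := hx3 h.1; have := h.2; linarith)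
      (fun h => by have := hz3 h.1; have := h.2; linarith) with h | h
    · exact Or.inr ⟨h.2.2.1.symm, h.2.2.2.symm⟩
    · exact Or.inl ⟨h.2.2.1.symm, h.2.2.2.symm⟩
  clear hx3 hz3 hx4 hz4 hadx hadz hne
  have htm : (y - d, a) ∈ m ∨ (y - d, a) = (0, 0) := by
    rcases hE2 with h | h <;> rw [h]
    · exact hmemx
    · exact hmemz
  have htl := hlp _ _ htm
  have hfr : ∀ r c : ℤ, (r = y ∨ r = y + d) → a < c → c ≤ a + 2 → Gd m y a r c := by
    intro r c h2 h4 h5
    refine ⟨fun h => ?_, ?_, by simp only; omega, by simp only; omega, ?_⟩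
    · have := hc' r c (Or.inl h) (by omega) (by omega)
      omega
    · unfold lexpos
      simp only
      omega
    · simp only [abs_le]; omega
  have hfr2 : Gd m y a (y + d) a := by
    refine ⟨fun h => ?_, ?_, by simp only; omega, by simp only; omega, ?_⟩
    · have := hc3 _ _ (Or.inl h) rfl
      omega
    · unfold lexpos
      simp only
      omega
    · simp only [abs_le]; omega
  have hor : ∀ t : V, t ≠ (0, 0) → (t = (x1, x2) ∨ t = (z1, z2)) →
      ([(y, a), t] <:+: m ∨ [t, (y, a)] <:+: m) := by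
    intro t ht h
    rcases h with h | h
    · subst h
      rcases hx with hx | hx
      · exact Or.inr hx
      · exact absurd hx ht
    · subst h
      rcases hz with hz | hz
      · exact Or.inl hz
      · exact absurd hz ht
  by_cases hv : (y - d, a + 1) ∈ m
  · obtain ⟨p1, p2, q1, q2, hne2, hp, hq, hmemp, hmemq, hadp, hadq⟩ := nbr' hm hv
    have hvlp := hlp _ _ (Or.inl hv)
    have hp3 : p1 = y → p2 ≤ a := fun h => hc' p1 p2 hmemp (by omega) (by omega)
    have hq3 : q1 = y → q2 ≤ a := fun h => hc' q1 q2 hmemq (by omega) (by omega)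
    by_cases hE : ((y - d, a + 2) = (p1, p2) ∨ (y - d, a + 2) = (q1, q2))
    · have hv0 : (y - d, a + 2) ≠ ((0 : ℤ), (0 : ℤ)) := by
        intro h
        simp only [Prod.mk.injEq] at h
        clear hadp hadq hne2 hE hσ
        omega
      have h3 : [(y - d, a + 2), (y - d, a + 1)] <:+: m ∨
          [(y - d, a + 2), (y - d, a + 1)] <:+: m.reverse := by
        rcases hE with h | h
        · rw [h] at hv0 ⊢
          rcases hp with hp | hp
          · exact Or.inl hp
          · exact absurd hp hv0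
        · rw [h] at hv0 ⊢
          rcases hq with hq | hq
          · exact Or.inr (infix_rev hq)
          · exact absurd hq hv0
      rcases h3 with ⟨L1, L2, h3⟩ | ⟨L1, L2, h3⟩
      · exact ⟨4, L1, L2, Or.inl h3.symm, fresh4 hfr⟩
      · exact ⟨4, L1, L2, Or.inr h3.symm, fresh4 hfr⟩
    · -- neighbours of `v` are `t` and the site below
      have hE3 : (((y - d, a) = (p1, p2) ∧ (y - 2 * d, a + 1) = (q1, q2)) ∨
          ((y - d, a) = (q1, q2) ∧ (y - 2 * d, a + 1) = (p1, p2))) := by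
        simp only [Prod.mk.injEq] at hE ⊢
        rcases pick hσ hne2 hadp hadq
          (fun h => by have := hp3 (by have := h.1; linarith); have := h.2; linarith)
          (fun h => by have := hq3 (by have := h.1; linarith); have := h.2; linarith)
          (fun h => hE (Or.inl ⟨h.1.symm, by have := h.2; linarith⟩))
          (fun h => hE (Or.inr ⟨h.1.symm, by have := h.2; linarith⟩)) with h | h
        · exact Or.inl ⟨⟨h.1.symm, by have := h.2.1; linarith⟩,
            ⟨by have := h.2.2.1; linarith, h.2.2.2.symm⟩⟩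
        · exact Or.inr ⟨⟨h.1.symm, by have := h.2.1; linarith⟩,
            ⟨by have := h.2.2.1; linarith, h.2.2.2.symm⟩⟩
      clear hp3 hq3 hadp hadq hne2 hE
      have hrm : (y - 2 * d, a + 1) ∈ m ∨ (y - 2 * d, a + 1) = (0, 0) := by
        rcases hE3 with h | h
        · rw [h.2]; exact hmemq
        · rw [h.2]; exact hmemp
      have hr1 := hlp _ _ hrm
      have ht0 : (y - d, a) ≠ (0, 0) := by
        intro h
        simp only [Prod.mk.injEq] at h
        clear hE3 hE2
        omega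
      -- `t` and `v` are consecutive
      have h5 : [(y - d, a + 1), (y - d, a)] <:+: m ∨ [(y - d, a), (y - d, a + 1)] <:+: m := by
        rcases hE3 with ⟨h, -⟩ | ⟨h, -⟩
        · rw [h] at ht0 ⊢
          rcases hp with hp | hp
          · exact Or.inr hp
          · exact absurd hp ht0
        · rw [h] at ht0 ⊢
          rcases hq with hq | hq
          · exact Or.inl hq
          · exact absurd hq ht0
      have h6 : [(y, a), (y - d, a)] <:+: m ∨ [(y - d, a), (y, a)] <:+: m := hor _ ht0 hE2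
      have hF := fresh3 hfr hfr2
      rcases h5 with h5 | h5 <;> rcases h6 with h6 | h6
      · exfalso
        have := infix_left_unique hm.nd h5 h6
        simp at this
      · obtain ⟨L1, L2, h7⟩ := infix_glue hm.nd h5 h6
        exact ⟨3, L1, L2, Or.inl h7.symm, hF⟩
      · obtain ⟨L1, L2, h7⟩ := infix_glue hm.nd h6 h5
        refine ⟨3, L2.reverse, L1.reverse, Or.inr ?_, hF⟩
        rw [← h7]
        simp [old]
      · exfalso
        have := infix_right_unique hm.nd h5 h6
        simp at this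
  · have ht0 : (y - d, a) ≠ (0, 0) := by
      intro h
      simp only [Prod.mk.injEq] at h
      apply hv
      rw [h.1, h.2]
      simpa using h01
    have h3 : [(y - d, a), (y, a)] <:+: m ∨ [(y - d, a), (y, a)] <:+: m.reverse := by
      rcases hor _ ht0 hE2 with h | h
      · exact Or.inr (infix_rev h)
      · exact Or.inl h
    have hfr3 : Gd m y a (y - d) (a + 1) := by
      refine ⟨hv, ?_, by simp only; omega, by simp only; omega, ?_⟩
      · unfold lexpos
        simp only
        clear hE2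
        omega
      · simp only [abs_le]; omega
    rcases h3 with ⟨L1, L2, h3⟩ | ⟨L1, L2, h3⟩
    · exact ⟨2, L1, L2, Or.inl h3.symm, fresh2 hfr hfr2 hfr3⟩
    · exact ⟨2, L1, L2, Or.inr h3.symm, fresh2 hfr hfr2 hfr3⟩

end Pool.Agent.W870.Pg
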