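import Pool.Agent.W870.Pg.Join

/-!
The join is injective.
-/

set_option autoImplicit false

namespace Pool.Agent.W870.Pg

lemma lexlt_asymm {u v : V} (h : lexlt u v) : ¬ lexlt v u := by
  unfold lexlt at *; omega

lemma split_unique {R P R' P' : List V} {z : V} (h : R ++ z :: P = R' ++ z :: P')
    (h1 : z ∉ R) (h2 : z ∉ R') : R = R' ∧ P = P' := by
  have f1 := congrArg (List.takeWhile (fun x => decide (x ≠ z))) h
  rw [List.takeWhile_append_of_pos, List.takeWhile_append_of_pos] at f1
  · have e : R = R' := by simpa using f1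
    subst e
    have := List.append_cancel_left h
    simp only [List.cons.injEq, true_and] at this
    exact ⟨rfl, this⟩
  · intro x hx
    simp only [decide_eq_true_eq]
    rintro rfl
    exact h2 hx
  · intro x hx
    simp only [decide_eq_true_eq]
    rintro rfl
    exact h1 hx

theorem JR_inj {A B A' B' : List V} {s s' : ℤ} {X Y Z : List V} {kA kB : Fin 5}
    {bA bB bM : Bool} {σA σB : ℤ}
    (h : JR A B s X Y Z kA kB bA bB bM σA σB) (h' : JR A' B' s' X Y Z kA kB bA bB bM σA σB) :
    A = A' ∧ B = B' ∧ s = s' := by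
  obtain ⟨K, P, R, y, a, yb, ab, hK, hA, hB, hC, htop, hM⟩ := h
  obtain ⟨K', P', R', y', a', yb', ab', hK', hA', hB', hC', htop', hM'⟩ := h'
  have h0 : ∀ {P R : List V}, Can (P ++ R) → ((0 : ℤ), (0 : ℤ)) ∉ R := by
    intro P R hc hz
    have := hc.lp _ (List.mem_append_right _ hz)
    unfold lexpos at this
    simp at this
  have hKY : ∀ {K : V} {P R : List V}, ((bM = false ∧ Y = (R ++ (0, 0) :: P).map (fun v => K - v)) ∨
     (bM = true ∧ Y = ((R ++ (0, 0) :: P).map (fun v => K - v)).reverse)) → K ∈ Y := by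
    intro K P R h
    have hz : K ∈ (R ++ (0, 0) :: P).map (fun v => K - v) :=
      List.mem_map.mpr ⟨(0, 0), by simp, by ext <;> simp⟩
    rcases h with ⟨-, h⟩ | ⟨-, h⟩ <;> rw [h]
    · exact hz
    · exact List.mem_reverse.mpr hz
  have hKK : K = K' := by
    by_contra hne
    have h1 := htop' K (by simp [hKY hM]) hne
    have h2 := htop K' (by simp [hKY hM']) (Ne.symm hne)
    exact lexlt_asymm h1 h2
  subst hKK
  have hRP : R ++ (0, 0) :: P = R' ++ (0, 0) :: P' := by
    have hinj : Function.Injective (fun v : V => K - v) := fun x z h => sub_right_injective h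
    rcases hM with ⟨hb, hM⟩ | ⟨hb, hM⟩ <;> rcases hM' with ⟨hb', hM'⟩ | ⟨hb', hM'⟩
    · exact List.map_injective_iff.mpr hinj (hM.symm.trans hM')
    · rw [hb] at hb'; simp at hb'
    · rw [hb] at hb'; simp at hb'
    · exact List.map_injective_iff.mpr hinj (List.reverse_injective (hM.symm.trans hM'))
  obtain ⟨rfl, rfl⟩ := split_unique hRP (h0 hC) (h0 hC')
  have e1 := FS_inj hA hA'
  have e2 := FS_inj hB hB'
  refine ⟨e1, e2, ?_⟩
  rw [e2] at hK
  omega

end Pool.Agent.W870.Pg
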