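import Pool.Agent.W870.Pg.KCount
import Pool.Agent.W870.Pg.Uniq

/-!
Counting the joins.
-/

set_option autoImplicit false

namespace Pool.Agent.W870.Pg

/-- sign of a bit -/
def sg (b : Bool) : ℤ := if b then 1 else -1

lemma exists_sg {σ : ℤ} (h : σ = 1 ∨ σ = -1) : ∃ b, sg b = σ := by
  rcases h with h | h
  · exact ⟨true, by simp [sg, h]⟩
  · exact ⟨false, by simp [sg, h]⟩

/-- the bounded data of a join -/
abbrev JD := Fin 5 × Fin 5 × Bool × Bool × Bool × Bool × Bool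

lemma card_JD : (Finset.univ : Finset JD).card = 800 := by
  simp [JD]

lemma ht_le_length {A : List V} (hA : Can A) : ht A ≤ A.length := by
  -- the levels `1, ..., ht A` are all visited
  classical
  obtain ⟨v, hv, hv2⟩ := hA.exists_ht
  have h1 : (Finset.Icc 1 (ht A)) ⊆ (A.toFinset).image (fun v => v.1.toNat) := by
    intro L hL
    rw [Finset.mem_Icc] at hL
    obtain ⟨w, hw, hw2⟩ := ivt' hA.ch hA.mem10 hv (L := (L : ℤ)) (by simp only; omega) (by omega)
    rw [Finset.mem_image]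
    exact ⟨w, by simpa using hw, by omega⟩
  have h2 := Finset.card_le_card h1
  rw [Nat.card_Icc] at h2
  have h3 := Finset.card_image_le (s := A.toFinset) (f := fun v : V => v.1.toNat)
  have h4 := List.toFinset_card_le A
  omega

/-- the triples to be joined -/
noncomputable def ES (T M : ℕ) : Finset ((_ : ℕ) × (_ : List V) × (List V × ℕ)) :=
  (Finset.range (M + 1)).sigma (fun m => (CanF m).sigma (fun A =>
    (open Classical in (CanF (T - m)).filter (fun B => M ≤ ht B)) ×ˢ Finset.Icc 1 (ht A)))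

lemma ES_card (T M : ℕ) : (ES T M).card = ∑ m ∈ Finset.range (M + 1), ∑ A ∈ CanF m,
    (open Classical in (CanF (T - m)).filter (fun B => M ≤ ht B)).card * ht A := by
  unfold ES
  rw [Finset.card_sigma]
  apply Finset.sum_congr rfl
  intro m _
  rw [Finset.card_sigma]
  apply Finset.sum_congr rfl
  intro A _
  rw [Finset.card_product, Nat.card_Icc, Nat.add_sub_cancel]

/-- the places of the joins -/
noncomputable def GS (T : ℕ) : Finset (((_ : ℕ) × (_ : List V) × ℕ) × JD) :=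
  (({9, 11, 13} : Finset ℕ).sigma (fun c => (CanF (T + c)).sigma (fun g => cutset g))) ×ˢ
    (Finset.univ : Finset JD)

lemma GS_card (T : ℕ) : (GS T).card = (∑ c ∈ ({9, 11, 13} : Finset ℕ), ∑ g ∈ CanF (T + c),
    (cutset g).card) * 800 := by
  unfold GS
  rw [Finset.card_product, card_JD, Finset.card_sigma]
  congr 1
  apply Finset.sum_congr rfl
  intro c _
  rw [Finset.card_sigma]

/-- the relation between the triples and the places -/
def RR (x : (_ : ℕ) × (_ : List V) × (List V × ℕ)) (y : ((_ : ℕ) × (_ : List V) × ℕ) × JD) : Prop :=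
  ∃ X Y Z : List V, y.1.2.1 = X ++ Y ++ Z ∧ X.length = y.1.2.2 ∧ Cut X Y Z ∧
    JR x.2.1 x.2.2.1 x.2.2.2 X Y Z y.2.1 y.2.2.1 y.2.2.2.1 y.2.2.2.2.1 y.2.2.2.2.2.1
      (sg y.2.2.2.2.2.2.1) (sg y.2.2.2.2.2.2.2)

theorem join_sum (T M : ℕ) (hMT : M ≤ T) : (ES T M).card ≤ (GS T).card := by
  classical
  refine Finset.card_le_card_of_forall_subsingleton RR ?_ ?_
  · rintro ⟨m, A, B, s⟩ hx
    simp only [ES, Finset.mem_sigma, Finset.mem_range, Finset.mem_product, Finset.mem_filter,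
      Finset.mem_Icc, mem_CanF] at hx
    obtain ⟨hm, ⟨hA, hAl⟩, ⟨⟨hB, hBl⟩, hMB⟩, hs1, hs2⟩ := hx
    have h1 := ht_le_length hA
    obtain ⟨X, Y, Z, kA, kB, bA, bB, bM, σA, σB, hσA, hσB, hJ, hC, hcut, hlen⟩ :=
      join hA hB (by omega) (s := (s : ℤ)) (by omega) (by omega)
    obtain ⟨eA, rfl⟩ := exists_sg hσA
    obtain ⟨eB, rfl⟩ := exists_sg hσB
    refine ⟨(⟨1 + cf kA + cf kB, X ++ Y ++ Z, X.length⟩, (kA, kB, bA, bB, bM, eA, eB)), ?_, ?_⟩
    · simp only [GS, Finset.mem_product, Finset.mem_sigma, Finset.mem_univ, and_true, mem_CanF]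
      refine ⟨?_, ⟨hC, ?_⟩, ?_⟩
      · unfold cf
        simp only [Finset.mem_insert, Finset.mem_singleton]
        split_ifs <;> omega
      · rw [hlen]; omega
      · rw [mem_cutset]
        exact ⟨Z.length, X, Y, Z, rfl, rfl, rfl, hcut⟩
    · exact ⟨X, Y, Z, rfl, rfl, hcut, hJ⟩
  · rintro ⟨⟨c, g, a⟩, kA, kB, bA, bB, bM, eA, eB⟩ hy
    simp only [GS, Finset.mem_product, Finset.mem_sigma, Finset.mem_univ, and_true, mem_CanF] at hy
    have hg := hy.2.1.1
    rintro ⟨m, A, B, s⟩ hx ⟨m', A', B', s'⟩ hx'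
    simp only [Set.mem_setOf_eq, ES, Finset.mem_sigma, Finset.mem_range, Finset.mem_product,
      Finset.mem_filter, Finset.mem_Icc, mem_CanF] at hx hx'
    obtain ⟨⟨hm, ⟨hA, hAl⟩, ⟨⟨hB, hBl⟩, hMB⟩, hs1, hs2⟩, X, Y, Z, h1, h2, h3, h4⟩ := hx
    obtain ⟨⟨hm', ⟨hA', hAl'⟩, ⟨⟨hB', hBl'⟩, hMB'⟩, hs1', hs2'⟩, X', Y', Z', h1', h2', h3', h4'⟩ := hx'
    simp only at h1 h2 h3 h4 h1' h2' h3' h4'
    have hZ : Z.length = Z'.length := IsC_uniq hg ⟨X, Y, Z, h1, h2, rfl, h3⟩
      ⟨X', Y', Z', h1', h2', rfl, h3'⟩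
    have e := h1.symm.trans h1'
    have e1 := List.append_inj' e hZ
    have e2 := List.append_inj e1.1 (by omega)
    obtain ⟨⟨rfl, rfl⟩, rfl⟩ := And.intro e2 e1.2
    obtain ⟨f1, f2, f3⟩ := JR_inj h4 h4'
    subst f1 f2
    have f4 : s = s' := by exact_mod_cast f3
    have f5 : m = m' := by omega
    subst f4 f5
    rfl

/-- **The join inequality** -/
theorem join_ineq (T M : ℕ) (hMT : M ≤ T) :
    ∑ m ∈ Finset.range (M + 1), ∑ A ∈ CanF m,
      (open Classical in (CanF (T - m)).filter (fun B => M ≤ ht B)).card * ht A ≤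
    800 * ∑ c ∈ ({9, 11, 13} : Finset ℕ), ∑ g ∈ CanF (T + c), (cutset g).card := by
  have := join_sum T M hMT
  rw [ES_card, GS_card] at this
  omega

end Pool.Agent.W870.Pg
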