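import Pool.Agent.W870.Pg.Split

/-!
The join of two polygons.
-/

set_option autoImplicit false

namespace Pool.Agent.W870.Pg

/-- discrete intermediate values -/
lemma ivt {l : List V} (h : l.IsChain adj) {L : ℤ} (hno : ∀ w ∈ l, w.1 ≠ L) :
    (∀ w ∈ l, w.1 < L) ∨ (∀ w ∈ l, L < w.1) := by
  induction l with
  | nil => left; simp
  | cons a t ih =>
    cases t with
    | nil =>
      have := hno a (by simp)
      rcases lt_or_gt_of_ne this with h1 | h1
      · left; simpa using h1
      · right; simpa using h1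
    | cons b t' =>
      rw [List.isChain_cons_cons] at h
      have h1 := hno a (by simp)
      have h2 := hno b (by simp)
      have h3 := abs_le.mp (adj_fst h.1)
      rcases ih h.2 (fun w hw => hno w (List.mem_cons_of_mem _ hw)) with h4 | h4
      · left
        intro w hw
        rcases List.mem_cons.mp hw with rfl | hw
        · have := h4 b (by simp)
          omega
        · exact h4 w hw
      · right
        intro w hw
        rcases List.mem_cons.mp hw with rfl | hw
        · have := h4 b (by simp)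
          omega
        · exact h4 w hw

lemma ivt' {l : List V} (h : l.IsChain adj) {u v : V} (hu : u ∈ l) (hv : v ∈ l) {L : ℤ}
    (h1 : u.1 ≤ L) (h2 : L ≤ v.1) : ∃ w ∈ l, w.1 = L := by
  by_contra hcon
  push Not at hcon
  rcases ivt h hcon with h3 | h3
  · have := h3 v hv; omega
  · have := h3 u hu; omega

/-- height of a polygon -/
def ht (m : List V) : ℕ := (m.map (fun v => v.1.toNat)).foldr max 0

lemma le_ht {m : List V} {v : V} (h : v ∈ m) : v.1 ≤ ht m := by
  unfold ht
  induction m with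
  | nil => simp at h
  | cons a t ih =>
    simp only [List.map_cons, List.foldr_cons]
    rcases List.mem_cons.mp h with rfl | h
    · push_cast
      omega
    · have := ih h
      push_cast
      omega

lemma exists_ht {m : List V} (h : m ≠ []) : ∃ v ∈ m, v.1.toNat = ht m := by
  unfold ht
  induction m with
  | nil => simp at h
  | cons a t ih =>
    simp only [List.map_cons, List.foldr_cons]
    by_cases ht : t = []
    · subst ht
      exact ⟨a, by simp, by simp⟩
    · obtain ⟨v, hv, hv2⟩ := ih ht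
      rcases le_total a.1.toNat (List.foldr max 0 (List.map (fun v : V => v.1.toNat) t)) with h1 | h1
      · refine ⟨v, List.mem_cons_of_mem _ hv, ?_⟩
        rw [hv2, max_eq_right h1]
      · exact ⟨a, by simp, by rw [max_eq_left h1]⟩

lemma Can.mem10 {m : List V} (hm : Can m) : ((1 : ℤ), (0 : ℤ)) ∈ m := List.mem_of_head? hm.hd

lemma Can.mem01 {m : List V} (hm : Can m) : ((0 : ℤ), (1 : ℤ)) ∈ m := List.mem_of_getLast? hm.lt

lemma Can.ne {m : List V} (hm : Can m) : m ≠ [] := List.ne_nil_of_mem hm.mem10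

lemma Can.one_le_ht {m : List V} (hm : Can m) : 1 ≤ ht m := by
  have := le_ht hm.mem10
  simp only at this
  omega

lemma Can.exists_ht {m : List V} (hm : Can m) : ∃ v ∈ m, v.1 = ht m := by
  obtain ⟨v, hv, h⟩ := Pg.exists_ht hm.ne
  refine ⟨v, hv, ?_⟩
  have := hm.one_le_ht
  omega

lemma Can.nonneg {m : List V} (hm : Can m) {v : V} (h : v ∈ m ∨ v = (0, 0)) : 0 ≤ v.1 := by
  rcases h with h | h
  · have := hm.lp v h
    unfold lexpos at this
    omega
  · rw [h]

lemma Can.le_ht {m : List V} {v : V} (h : v ∈ m ∨ v = (0, 0)) : v.1 ≤ ht m := by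
  rcases h with h | h
  · exact Pg.le_ht h
  · rw [h]; simp

lemma Can.chain0 {m : List V} (hm : Can m) : ((0, 0) :: m).IsChain adj := by
  rw [List.isChain_cons]
  refine ⟨?_, hm.ch⟩
  rw [hm.hd]
  intro y hy
  simp only [Option.mem_def, Option.some.injEq] at hy
  rw [← hy]
  unfold adj; simp

lemma Can.nd0 {m : List V} (hm : Can m) : ((0, 0) :: m).Nodup := by
  rw [List.nodup_cons]
  refine ⟨fun h => ?_, hm.nd⟩
  have := hm.lp _ h
  unfold lexpos at this
  simp at this

/-- the first contact -/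
lemma contact {A B : List V} (hA : Can A) (hB : Can B) {s H : ℤ} (hs1 : 1 ≤ s)
    (hs2 : s ≤ ht A) (hH : H = s + ht B) :
    ∃ (X y a yb ab : ℤ), ((y, a) ∈ A ∨ (y, a) = (0, 0)) ∧ ((yb, ab) ∈ B ∨ (yb, ab) = (0, 0)) ∧
      |H - yb - y| ≤ 1 ∧ X - ab - a = 5 ∧
      (∀ u' w' : V, (u' ∈ A ∨ u' = (0, 0)) → (w' ∈ B ∨ w' = (0, 0)) → |H - w'.1 - u'.1| ≤ 1 →
        5 ≤ X - w'.2 - u'.2) ∧
      (H - yb - y ≠ 0 → ∀ u' w' : V, (u' ∈ A ∨ u' = (0, 0)) → (w' ∈ B ∨ w' = (0, 0)) →
        H - w'.1 - u'.1 = 0 → 6 ≤ X - w'.2 - u'.2) := by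
  classical
  set S : Finset (V × V) := (((0, 0) :: A).toFinset ×ˢ ((0, 0) :: B).toFinset).filter
    (fun p => |H - p.2.1 - p.1.1| ≤ 1) with hS
  have hmem : ∀ p : V × V, p ∈ S ↔ ((p.1 ∈ A ∨ p.1 = (0, 0)) ∧ (p.2 ∈ B ∨ p.2 = (0, 0))) ∧
      |H - p.2.1 - p.1.1| ≤ 1 := by
    intro p
    rw [hS, Finset.mem_filter, Finset.mem_product]
    simp only [List.mem_toFinset, List.mem_cons]
    tauto
  have hne : S.Nonempty := by
    obtain ⟨w, hw, hw2⟩ := hB.exists_ht
    obtain ⟨v, hv, hv2⟩ := hA.exists_ht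
    obtain ⟨u, hu, hu2⟩ := ivt' hA.chain0 (u := (0, 0)) (v := v) (by simp)
      (List.mem_cons_of_mem _ hv) (L := s) (by simp only; omega) (by omega)
    refine ⟨(u, w), ?_⟩
    rw [hmem]
    refine ⟨⟨?_, Or.inl hw⟩, ?_⟩
    · rcases List.mem_cons.mp hu with h | h
      · exact Or.inr h
      · exact Or.inl h
    · simp only
      rw [abs_le]
      omega
  obtain ⟨p, hp, hmin⟩ := Finset.exists_min_image S
    (fun p => 4 * (- p.2.2 - p.1.2) + |H - p.2.1 - p.1.1|) hne
  rw [hmem] at hp
  obtain ⟨⟨hp1, hp2⟩, hp3⟩ := hp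
  refine ⟨5 + p.2.2 + p.1.2, p.1.1, p.1.2, p.2.1, p.2.2, hp1, hp2, hp3, by ring, ?_, ?_⟩
  · intro u' w' hu hw h
    have h1 := hmin (u', w') ((hmem _).mpr ⟨⟨hu, hw⟩, h⟩)
    simp only at h1 h
    have h2 := abs_nonneg (H - p.2.1 - p.1.1)
    omega
  · intro h0 u' w' hu hw h
    have h1 := hmin (u', w') ((hmem _).mpr ⟨⟨hu, hw⟩, by simp only; rw [h]; simp⟩)
    simp only at h1
    rw [h, abs_zero] at h1
    have h2 : 1 ≤ |H - p.2.1 - p.1.1| := Int.one_le_abs h0
    omega

/-- a cut of a polygon -/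
structure Cut (X Y Z : List V) : Prop where
  xn : X ≠ []
  zn : Z ≠ []
  corr : ∃ p q : V, X.getLast? = some p ∧ Y.head? = some (p.1, p.2 + 1) ∧ Z.head? = some q ∧
    Y.getLast? = some (q.1, q.2 + 1) ∧ (q.1 = p.1 + 1 ∨ q.1 = p.1 - 1) ∧ q.2 = p.2
  right : ∀ v ∈ X ++ Z, ∀ w ∈ Y, v.1 = w.1 → v.2 < w.2
  top : ∃ (Y1 : List V) (K : V) (Y2 : List V), Y = Y1 ++ K :: Y2 ∧ Y1 ≠ [] ∧ Y2 ≠ [] ∧
    ∀ v ∈ X ++ Y ++ Z, v ≠ K → lexlt v K

/-- the result of a join -/
def JR (A B : List V) (s : ℤ) (X Y Z : List V) (kA kB : Fin 5) (bA bB bM : Bool) (σA σB : ℤ) :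
    Prop :=
  ∃ (K : V) (P R : List V) (y a yb ab : ℤ), K.1 = s + ht B ∧ FS A X Z kA σA bA y a ∧
    FS B P R kB σB bB yb ab ∧ Can (P ++ R) ∧ (∀ v ∈ X ++ Y ++ Z, v ≠ K → lexlt v K) ∧
    ((bM = false ∧ Y = (R ++ (0, 0) :: P).map (fun v => K - v)) ∨
     (bM = true ∧ Y = ((R ++ (0, 0) :: P).map (fun v => K - v)).reverse))

lemma aux_len {x z p r a b ca cb : ℕ} (h1 : x + z = a + ca) (h2 : p + r = b + cb) :
    x + (p + r + 1) + z = a + b + 1 + ca + cb := by omega

/-- **The join** -/
theorem join {A B : List V} (hA : Can A) (hB : Can B) (hAB : ht A ≤ ht B) {s : ℤ} (hs1 : 1 ≤ s)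
    (hs2 : s ≤ ht A) :
    ∃ (X Y Z : List V) (kA kB : Fin 5) (bA bB bM : Bool) (σA σB : ℤ),
      (σA = 1 ∨ σA = -1) ∧ (σB = 1 ∨ σB = -1) ∧
      JR A B s X Y Z kA kB bA bB bM σA σB ∧ Can (X ++ Y ++ Z) ∧ Cut X Y Z ∧
      (X ++ Y ++ Z).length = A.length + B.length + 1 + cf kA + cf kB := by
  obtain ⟨K2, y, a, yb, ab, hu, hw, hd, hgap, hctl, hctl2⟩ :=
    contact hA hB (H := s + ht B) hs1 hs2 rfl
  set K1 : ℤ := s + ht B with hK1
  have hyb : yb ≤ ht B := Can.le_ht hw
  have hya : y ≤ ht A := Can.le_ht hu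
  have hd' := abs_le.mp hd
  -- choose the signs
  obtain ⟨σA, σB, hσA, hσB, hrow, hfA, hfB⟩ : ∃ σA σB : ℤ, (σA = 1 ∨ σA = -1) ∧
      (σB = 1 ∨ σB = -1) ∧
      ((K1 - yb = y ∧ K1 - yb - σB = y + σA) ∨ (K1 - yb = y + σA ∧ K1 - yb - σB = y)) ∧
      (∃ (k : Fin 5) (L1 L2 : List V),
        (A = L1 ++ old k σA y a ++ L2 ∨ A.reverse = L1 ++ old k σA y a ++ L2) ∧
          Fresh A k σA y a) ∧
      (∃ (k : Fin 5) (L1 L2 : List V),
        (B = L1 ++ old k σB yb ab ++ L2 ∨ B.reverse = L1 ++ old k σB yb ab ++ L2) ∧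
          Fresh B k σB yb ab) := by
    have cA : ∀ v : V, (v ∈ A ∨ v = (0, 0)) → |v.1 - (y + (K1 - yb - y))| ≤ 1 → v.2 ≤ a := by
      intro v hv h
      have := hctl v (yb, ab) hv hw (by
        simp only
        rw [abs_le] at h ⊢
        omega)
      simp only at this
      omega
    have cB : ∀ v : V, (v ∈ B ∨ v = (0, 0)) → |v.1 - (yb + (K1 - yb - y))| ≤ 1 → v.2 ≤ ab := by
      intro v hv h
      have := hctl (y, a) v hu hv (by
        simp only
        rw [abs_le] at h ⊢
        omega)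
      simp only at this
      omega
    by_cases h0 : K1 - yb - y = 0
    · refine ⟨1, -1, by simp, by simp, by left; omega, ?_, ?_⟩
      · refine finger0 hA hu (by simp) (by omega) (fun v hv h => cA v hv ?_)
        rw [h0, add_zero]; exact h
      · refine finger0 hB hw (by simp) (by omega) (fun v hv h => cB v hv ?_)
        rw [h0, add_zero]; exact h
    · have hd1 : K1 - yb - y = 1 ∨ K1 - yb - y = -1 := by omega
      refine ⟨K1 - yb - y, K1 - yb - y, hd1, hd1, by right; omega, ?_, ?_⟩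
      · refine finger1 hA hu hd1 (by omega) cA (fun v hv h => ?_)
        have := hctl2 h0 v (yb, ab) hv hw (by simp only; omega)
        simp only at this
        omega
      · refine finger1 hB hw hd1 (by omega) cB (fun v hv h => ?_)
        have := hctl2 h0 (y, a) v hu hv (by simp only; omega)
        simp only at this
        omega
  obtain ⟨kA, L1, L2, hL, hF⟩ := hfA
  obtain ⟨bA, X, Z, fA⟩ := split hA hσA hL hF
  obtain ⟨kB, L1', L2', hL', hF'⟩ := hfB
  obtain ⟨bB, P, R, fB⟩ := split hB hσB hL' hF'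
  clear hL hF hL' hF' L1 L2 L1' L2'
  set K : V := (K1, K2) with hK
  set M : List V := (R ++ (0, 0) :: P).map (fun v => K - v) with hM
  -- elements of `M`
  have hMel : ∀ w ∈ M, ∃ w' : V, w = K - w' ∧ (w' ∈ P ++ R ∨ w' = (0, 0)) := by
    intro w hw
    rw [hM, List.mem_map] at hw
    obtain ⟨w', hw', rfl⟩ := hw
    refine ⟨w', rfl, ?_⟩
    simp only [List.mem_append, List.mem_cons] at hw' ⊢
    tauto
  have hMel2 : ∀ w ∈ M, ∃ w' : V, w = K - w' ∧ (w' = (0, 0) ∨ lexpos w') ∧
      ((w' ∈ B ∨ w' = (0, 0)) ∨ (ab ≤ w'.2 ∧ w'.2 ≤ ab + 2 ∧ |w'.1 - yb| ≤ 1)) := by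
    intro w hw
    obtain ⟨w', h1, h2⟩ := hMel w hw
    refine ⟨w', h1, ?_, ?_⟩
    · rcases h2 with h2 | h2
      · exact Or.inr (fB.can.lp w' h2)
      · exact Or.inl h2
    · rcases h2 with h2 | h2
      · rcases fB.el w' h2 with h3 | h3
        · exact Or.inl (Or.inl h3)
        · exact Or.inr h3
      · exact Or.inl (Or.inr h2)
  -- right-of relation
  have hright : ∀ v ∈ X ++ Z, ∀ w ∈ M, v.1 = w.1 → v.2 < w.2 := by
    intro v hv w hwM hvw
    obtain ⟨w', rfl, -, hw2⟩ := hMel2 w hwM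
    simp only [hK, Prod.fst_sub, Prod.snd_sub] at hvw ⊢
    rcases fA.el v hv with h1 | h1
    · rcases hw2 with h2 | h2
      · have := hctl v w' (Or.inl h1) h2 (by rw [abs_le]; omega)
        omega
      · have h3 := abs_le.mp h2.2.2
        have := hctl v (yb, ab) (Or.inl h1) hw (by simp only; rw [abs_le]; omega)
        simp only at this
        omega
    · have h3 := abs_le.mp h1.2.2
      rcases hw2 with h2 | h2
      · have := hctl (y, a) w' hu h2 (by simp only; rw [abs_le]; omega)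
        simp only at this
        omega
      · omega
  -- everything is below the top
  have htop : ∀ v : V, (v ∈ X ++ Z ∨ v ∈ M) → v ≠ K → lexlt v K := by
    intro v hv hvK
    unfold lexlt
    rcases hv with hv | hv
    · simp only [hK]
      rcases fA.el v hv with h1 | h1
      · have := Can.le_ht (m := A) (Or.inl h1)
        omega
      · have h3 := abs_le.mp h1.2.2
        by_cases h4 : v.1 < K1
        · exact Or.inl h4
        · right
          have := hctl (y, a) (0, 0) hu (Or.inr rfl) (by simp only; rw [abs_le]; omega)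
          simp only at this
          omega
    · obtain ⟨w', rfl, h2, -⟩ := hMel2 v hv
      rcases h2 with h2 | h2
      · exfalso
        apply hvK
        rw [h2]
        simp
      · unfold lexpos at h2
        simp only [hK, Prod.fst_sub, Prod.snd_sub]
        omega
  -- everything is above the root
  have hMlp : ∀ w ∈ M, lexpos w := by
    intro w hw2
    obtain ⟨w', rfl, -, h2⟩ := hMel2 w hw2
    unfold lexpos
    simp only [hK, Prod.fst_sub, Prod.snd_sub]
    rcases h2 with h2 | h2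
    · left
      have := Can.le_ht (m := B) h2
      omega
    · have h3 := abs_le.mp h2.2.2
      by_cases h4 : 0 < K1 - w'.1
      · exact Or.inl h4
      · right
        have := hctl (0, 0) (yb, ab) (Or.inr rfl) hw (by simp only; rw [abs_le]; omega)
        simp only at this
        omega
  have hMnd : M.Nodup := by
    rw [hM]
    refine List.Nodup.map (fun x z h => sub_right_injective h) ?_
    have h1 := fB.can.nd0
    refine (List.Perm.nodup_iff ?_).mp h1
    refine List.Perm.trans ?_ (List.perm_append_comm)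
    simp
  have hMch : M.IsChain adj := by
    rw [hM]
    apply chain_map_sub
    have h1 := fB.can.chain0
    have h2 : ((0, 0) :: P).IsChain adj := by
      rw [← List.cons_append] at h1
      exact (List.isChain_append.mp h1).1
    rw [List.isChain_append]
    refine ⟨(List.isChain_append.mp fB.can.ch).2.1, h2, ?_⟩
    intro x hx z hz
    have h3 := fB.can.lt
    rw [List.getLast?_append_of_ne_nil _ fB.rn] at h3
    rw [h3] at hx
    simp only [Option.mem_def, Option.some.injEq, List.head?_cons] at hx hz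
    rw [← hx, ← hz]
    unfold adj; simp
  have hMn : M ≠ [] := by rw [hM]; simp
  have hMhead : M.head? = (R.head?).map (fun v => K - v) := by
    rw [hM, List.head?_map, List.head?_append_of_ne_nil _ fB.rn]
  have hMlast : M.getLast? = (P.getLast?).map (fun v => K - v) := by
    rw [hM, List.getLast?_map, List.getLast?_append_of_ne_nil _ (by simp)]
    rw [List.getLast?_cons]
    congr 1
    rcases List.eq_nil_or_concat P with h | ⟨L, b, h⟩
    · exact absurd h fB.pn
    · rw [h]; simp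
  -- the ends of `M`
  obtain ⟨p, q, hXl, hZh, hpq1, hpq2, hMends⟩ : ∃ p q : V, X.getLast? = some p ∧
      Z.head? = some q ∧ (q.1 = p.1 + 1 ∨ q.1 = p.1 - 1) ∧ q.2 = p.2 ∧
      ((M.head? = some (p.1, p.2 + 1) ∧ M.getLast? = some (q.1, q.2 + 1)) ∨
       (M.head? = some (q.1, q.2 + 1) ∧ M.getLast? = some (p.1, p.2 + 1))) := by
    rw [hMhead, hMlast]
    rcases fA.ends with ⟨h1, h2⟩ | ⟨h1, h2⟩ <;> rcases fB.ends with ⟨h3, h4⟩ | ⟨h3, h4⟩ <;>
    · refine ⟨_, _, h1, h2, by simp only; omega, rfl, ?_⟩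
      rw [h3, h4]
      simp only [Option.map_some, Option.some.injEq, Prod.ext_iff, Prod.fst_sub, Prod.snd_sub, hK]
      rcases hrow with h5 | h5
      · omega
      · omega
  clear hrow hctl hctl2 hMel hMel2 hMhead hMlast hd hd' hgap hyb hya hu hw
  have key : ∀ Y : List V, (∀ v, v ∈ Y ↔ v ∈ M) → Y.Nodup → Y.IsChain adj →
      Y.head? = some (p.1, p.2 + 1) → Y.getLast? = some (q.1, q.2 + 1) → Y.length = M.length →
      (∃ Y1 Y2 : List V, Y = Y1 ++ K :: Y2 ∧ Y1 ≠ [] ∧ Y2 ≠ []) →
      Can (X ++ Y ++ Z) ∧ Cut X Y Z ∧ (∀ v ∈ X ++ Y ++ Z, v ≠ K → lexlt v K) ∧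
      (X ++ Y ++ Z).length = A.length + B.length + 1 + cf kA + cf kB := by
    intro Y hYM hYnd hYch hYh hYl hYlen hYK
    have hYn : Y ≠ [] := by
      intro h; rw [h] at hYh; simp at hYh
    have htop' : ∀ v ∈ X ++ Y ++ Z, v ≠ K → lexlt v K := by
      intro v hv hvK
      apply htop v _ hvK
      simp only [List.mem_append] at hv ⊢
      rw [hYM] at hv
      tauto
    have hright' : ∀ v ∈ X ++ Z, ∀ w ∈ Y, v.1 = w.1 → v.2 < w.2 :=
      fun v hv w hw => hright v hv w ((hYM w).mp hw)
    have hXZ := List.nodup_append.mp fA.can.nd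
    have hXZc := List.isChain_append.mp fA.can.ch
    refine ⟨⟨?_, ?_, ?_, ?_, ?_⟩, ⟨fA.pn, fA.rn, ⟨p, q, hXl, hYh, hZh, hYl, hpq1, hpq2⟩,
      hright', ?_⟩, htop', ?_⟩
    · -- nodup
      rw [List.nodup_append, List.nodup_append]
      refine ⟨⟨hXZ.1, hYnd, ?_⟩, hXZ.2.1, ?_⟩
      · intro v hv w hw hvw
        have := hright' v (List.mem_append_left _ hv) w hw (by rw [hvw])
        rw [hvw] at this
        exact lt_irrefl _ this
      · intro v hv w hw hvw
        rcases List.mem_append.mp hv with hv | hv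
        · exact hXZ.2.2 v hv w hw hvw
        · have := hright' w (List.mem_append_right _ hw) v hv (by rw [hvw])
          rw [hvw] at this
          exact lt_irrefl _ this
    · -- chain
      rw [List.isChain_append, List.isChain_append]
      refine ⟨⟨hXZc.1, hYch, ?_⟩, hXZc.2.1, ?_⟩
      · intro x hx z hz
        rw [hXl] at hx
        rw [hYh] at hz
        simp only [Option.mem_def, Option.some.injEq] at hx hz
        rw [← hx, ← hz]
        unfold adj; simp
      · intro x hx z hz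
        rw [List.getLast?_append_of_ne_nil _ hYn, hYl] at hx
        rw [hZh] at hz
        simp only [Option.mem_def, Option.some.injEq] at hx hz
        rw [← hx, ← hz]
        unfold adj; simp
    · have h1 := fA.can.hd
      rw [List.head?_append_of_ne_nil _ fA.pn] at h1
      rw [List.append_assoc, List.head?_append_of_ne_nil _ fA.pn]
      exact h1
    · have h1 := fA.can.lt
      rw [List.getLast?_append_of_ne_nil _ fA.rn] at h1
      rw [List.getLast?_append_of_ne_nil _ fA.rn]
      exact h1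
    · intro v hv
      have hv' : v ∈ X ++ Z ∨ v ∈ Y := by
        simp only [List.mem_append] at hv ⊢; tauto
      rcases hv' with hv' | hv'
      · exact fA.can.lp v hv'
      · exact hMlp v ((hYM v).mp hv')
    · obtain ⟨Y1, Y2, h1, h2, h3⟩ := hYK
      exact ⟨Y1, K, Y2, h1, h2, h3, htop'⟩
    · have h1 := fA.len
      have h2 := fB.len
      have h3 : M.length = P.length + R.length + 1 := by
        rw [hM, List.length_map, List.length_append, List.length_cons]; ring
      simp only [List.length_append] at h1 h2 ⊢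
      rw [hYlen, h3]
      exact aux_len h1 h2
  have hMK : M = R.map (fun v => K - v) ++ K :: P.map (fun v => K - v) := by
    rw [hM]; simp
  have hRm : R.map (fun v => K - v) ≠ [] := by simpa using fB.rn
  have hPm : P.map (fun v => K - v) ≠ [] := by simpa using fB.pn
  rcases hMends with ⟨h1, h2⟩ | ⟨h1, h2⟩
  · obtain ⟨c1, c2, c3, c4⟩ := key M (fun v => Iff.rfl) hMnd hMch h1 h2 rfl
      ⟨_, _, hMK, hRm, hPm⟩
    exact ⟨X, M, Z, kA, kB, bA, bB, false, σA, σB, hσA, hσB,
      ⟨K, P, R, y, a, yb, ab, rfl, fA.fs, fB.fs, fB.can, c3, Or.inl ⟨rfl, rfl⟩⟩, c1, c2, c4⟩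
  · obtain ⟨c1, c2, c3, c4⟩ := key M.reverse (fun v => List.mem_reverse)
      (List.nodup_reverse.mpr hMnd) (chain_symm hMch) (by rw [List.head?_reverse]; exact h2)
      (by rw [List.getLast?_reverse]; exact h1) (List.length_reverse)
      ⟨(P.map (fun v => K - v)).reverse, (R.map (fun v => K - v)).reverse, by
        rw [hMK]; simp, by simpa using hPm, by simpa using hRm⟩
    exact ⟨X, M.reverse, Z, kA, kB, bA, bB, true, σA, σB, hσA, hσB,
      ⟨K, P, R, y, a, yb, ab, rfl, fA.fs, fB.fs, fB.can, c3, Or.inr ⟨rfl, rfl⟩⟩, c1, c2, c4⟩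

end Pool.Agent.W870.Pg
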