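import Pool.Agent.W870.Pg.Join

/-!
Cuts of a polygon are nested.
-/

set_option autoImplicit false

namespace Pool.Agent.W870.Pg

lemma lexlt_asymm' {u v : V} (h : lexlt u v) (h' : lexlt v u) : False := by
  unfold lexlt at *; omega

lemma prefix_of_le {α : Type*} {X R X' R' : List α} (h : X ++ R = X' ++ R')
    (hl : X.length ≤ X'.length) : ∃ U, X' = X ++ U ∧ R = U ++ R' := by
  rcases List.append_eq_append_iff.mp h with ⟨U, h1, h2⟩ | ⟨U, h1, h2⟩
  · exact ⟨U, h1, h2⟩
  · have hU : U = [] := by
      have := congrArg List.length h1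
      rw [List.length_append] at this
      exact List.length_eq_zero_iff.mp (by omega)
    subst hU
    exact ⟨[], by simp [h1], by simp [h2]⟩

lemma suffix_of_le {α : Type*} {Q Z Q' Z' : List α} (h : Q ++ Z = Q' ++ Z')
    (hl : Z'.length ≤ Z.length) : ∃ W, Z = W ++ Z' ∧ Q' = Q ++ W := by
  rcases List.append_eq_append_iff.mp h with ⟨U, h1, h2⟩ | ⟨U, h1, h2⟩
  · exact ⟨U, h2, h1⟩
  · have hU : U = [] := by
      have := congrArg List.length h2
      rw [List.length_append] at this
      exact List.length_eq_zero_iff.mp (by omega)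
    subst hU
    exact ⟨[], by simp [h2], by simp [h1]⟩

theorem nested {g X Y Z X' Y' Z' : List V} (hg : Can g) (h : g = X ++ Y ++ Z)
    (h' : g = X' ++ Y' ++ Z') (c : Cut X Y Z) (c' : Cut X' Y' Z') (hlt : X.length < X'.length) :
    Z.length < Z'.length := by
  by_contra hcon
  push Not at hcon
  have e : X ++ (Y ++ Z) = X' ++ (Y' ++ Z') := by
    rw [← List.append_assoc, ← List.append_assoc, ← h, ← h']
  obtain ⟨U, hU1, hU2⟩ := prefix_of_le e hlt.le
  obtain ⟨W, hW1, hW2⟩ := suffix_of_le (h.symm.trans h') hcon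
  -- `U ≠ []`
  have hUn : U ≠ [] := by
    rintro rfl
    rw [hU1] at hlt
    simp at hlt
  -- `U ++ Y' = Y ++ W`
  have e2 : U ++ Y' = Y ++ W := by
    rw [hU1, List.append_assoc, List.append_assoc] at hW2
    exact List.append_cancel_left hW2
  obtain ⟨Y1, K, Y2, hK1, hK2, hK3, hK4⟩ := c.top
  obtain ⟨Y1', K', Y2', hK1', hK2', hK3', hK4'⟩ := c'.top
  have hKK : K = K' := by
    by_contra hne
    have a1 := hK4' K (by rw [← h', h, hK1]; simp) hne
    have a2 := hK4 K' (by rw [← h, h', hK1']; simp) (Ne.symm hne)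
    exact lexlt_asymm' a1 a2
  subst hKK
  have hnd := hg.nd
  obtain ⟨Y0, hY1, hY2⟩ : ∃ Y0, Y = U ++ Y0 ∧ Y' = Y0 ++ W := by
    rcases List.append_eq_append_iff.mp e2 with ⟨T, h1, h2⟩ | ⟨T, h1, h2⟩
    · exact ⟨T, h1, h2⟩
    · exfalso
      have a1 : K ∈ X' := by
        rw [hU1, h1, hK1]; simp
      have a2 : K ∈ Y' := by rw [hK1']; simp
      rw [h'] at hnd
      have := (List.nodup_append.mp (List.nodup_append.mp hnd).1).2.2
      exact this K a1 K a2 rfl
  have hKY0 : Y0 ≠ [] := by
    rintro rfl
    have a1 : K ∈ U := by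
      have : K ∈ Y := by rw [hK1]; simp
      rw [hY1] at this
      simpa using this
    have a2 : K ∈ Y' := by rw [hK1']; simp
    rw [h'] at hnd
    have := (List.nodup_append.mp (List.nodup_append.mp hnd).1).2.2
    exact this K (by rw [hU1]; simp [a1]) K a2 rfl
  obtain ⟨p, q, hp, hyh, hq, hyl, hpq1, hpq2⟩ := c.corr
  obtain ⟨p', q', hp', hyh', hq', hyl', hpq1', hpq2'⟩ := c'.corr
  have hr := c.right
  have hr' := c'.right
  have hch := hg.ch
  rw [h, hY1] at hch
  have hUch : U.IsChain adj := by
    have := (List.isChain_append.mp (List.isChain_append.mp hch).1).2.1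
    exact (List.isChain_append.mp this).1
  rw [hY1, List.head?_append_of_ne_nil _ hUn] at hyh
  rw [hU1, List.getLast?_append_of_ne_nil _ hUn] at hp'
  have m1 := List.mem_of_head? hyh     -- p + e2 ∈ U
  have m2 := List.mem_of_getLast? hp'  -- p' ∈ U
  have m3 := List.mem_of_getLast? hp   -- p ∈ X
  have m4 := List.mem_of_head? hq'     -- q' ∈ Z'
  have m5 := List.mem_of_getLast? hyl' -- q' + e2 ∈ Y'
  have m6 := List.mem_of_head? hq      -- q ∈ Z
  by_cases hWn : W = []
  · subst hWn
    simp only [List.nil_append] at hW1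
    rw [hW1, hq'] at hq
    simp only [Option.some.injEq] at hq
    subst hq
    have hne : p ≠ p' := by
      rintro rfl
      rw [h'] at hnd
      rw [hU1] at hnd
      have := (List.nodup_append.mp (List.nodup_append.mp (List.nodup_append.mp hnd).1).1).2.2
      exact this p m3 p m2 rfl
    have hne1 : p.1 ≠ p'.1 := by
      intro h1
      exact hne (Prod.ext h1 (by omega))
    obtain ⟨v, hv, hv1⟩ : ∃ v ∈ U, v.1 = q'.1 := by
      rcases hpq1 with a | a <;> rcases hpq1' with b | b
      · omega
      · exact ivt' hUch m1 m2 (by simp only; omega) (by omega)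
      · exact ivt' hUch m2 m1 (by omega) (by simp only; omega)
      · omega
    have b1 := hr q' (by rw [hW1]; simp [m4]) v (by rw [hY1]; simp [hv]) hv1.symm
    have b2 := hr' v (by rw [hU1]; simp [hv]) _ m5 (by simp only; exact hv1)
    simp only at b2
    omega
  · rw [hW1, List.head?_append_of_ne_nil _ hWn] at hq
    rw [hY2, List.getLast?_append_of_ne_nil _ hWn] at hyl'
    have m7 := List.mem_of_head? hq      -- q ∈ W
    have m8 := List.mem_of_getLast? hyl' -- q' + e2 ∈ W
    have hWch : W.IsChain adj := by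
      have := hg.ch
      rw [h, hW1] at this
      exact (List.isChain_append.mp (List.isChain_append.mp this).2.1).1
    have hno : ∀ u ∈ U, ∀ w ∈ W, u.1 ≠ w.1 := by
      intro u hu w hw huw
      have b1 := hr w (by rw [hW1]; simp [hw]) u (by rw [hY1]; simp [hu]) huw.symm
      have b2 := hr' u (by rw [hU1]; simp [hu]) w (by rw [hY2]; simp [hw]) huw
      omega
    have i1 := ivt hUch (L := q.1) (fun u hu => hno u hu q m7)
    have i2 := ivt hWch (L := p.1) (fun w hw h1 => hno _ m1 w hw (by simp only; exact h1.symm))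
    have hlev : p.1 = p'.1 ∧ q.1 = q'.1 := by
      rcases i1 with i1 | i1 <;> rcases i2 with i2 | i2
      · have c1 := i1 _ m1
        have c2 := i2 _ m7
        simp only at c1
        omega
      · have c1 := i1 _ m1
        have c2 := i2 _ m7
        have c3 := i1 _ m2
        have c4 := i2 _ m8
        simp only at c1 c4
        omega
      · have c1 := i1 _ m1
        have c2 := i2 _ m7
        have c3 := i1 _ m2
        have c4 := i2 _ m8
        simp only at c1 c4
        omega
      · have c1 := i1 _ m1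
        have c2 := i2 _ m7
        simp only at c1
        omega
    have b1 := hr p (by simp [m3]) p' (by rw [hY1]; simp [m2]) hlev.1
    have b2 := hr' q' (by simp [m4]) q (by rw [hY2]; simp [m7]) hlev.2.symm
    omega

theorem nested_eq {g X Y Z X' Y' Z' : List V} (hg : Can g) (h : g = X ++ Y ++ Z)
    (h' : g = X' ++ Y' ++ Z') (c : Cut X Y Z) (c' : Cut X' Y' Z') (hlt : X.length = X'.length) :
    Z.length ≤ Z'.length := by
  by_contra hcon
  push Not at hcon
  obtain ⟨W, hW1, hW2⟩ := suffix_of_le (h.symm.trans h') hcon.le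
  have e : X ++ (Y ++ Z) = X' ++ (Y' ++ Z') := by
    rw [← List.append_assoc, ← List.append_assoc, ← h, ← h']
  obtain ⟨hXX, -⟩ := List.append_inj e hlt
  subst hXX
  have hYW : Y' = Y ++ W := by
    rw [List.append_assoc] at hW2
    exact List.append_cancel_left hW2
  have hWn : W ≠ [] := by
    rintro rfl
    rw [hW1] at hcon
    simp at hcon
  obtain ⟨p, q, hp, hyh, hq, hyl, hpq1, hpq2⟩ := c.corr
  obtain ⟨p', q', hp', hyh', hq', hyl', hpq1', hpq2'⟩ := c'.corr
  rw [hp] at hp'
  simp only [Option.some.injEq] at hp'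
  subst hp'
  rw [hW1, List.head?_append_of_ne_nil _ hWn] at hq
  rw [hYW, List.getLast?_append_of_ne_nil _ hWn] at hyl'
  have m1 := List.mem_of_getLast? hp   -- p ∈ X
  have m2 := List.mem_of_head? hyh     -- p + e2 ∈ Y
  have m3 := List.mem_of_head? hq      -- q ∈ W
  have m4 := List.mem_of_getLast? hyl' -- q' + e2 ∈ W
  have m5 := List.mem_of_head? hq'     -- q' ∈ Z'
  have hr := c.right
  have hr' := c'.right
  have hWch : W.IsChain adj := by
    have := hg.ch
    rw [h, hW1] at this
    exact (List.isChain_append.mp (List.isChain_append.mp this).2.1).1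
  have hne : q ≠ q' := by
    rintro rfl
    have hnd := hg.nd
    rw [h, hW1] at hnd
    exact (List.nodup_append.mp (List.nodup_append.mp hnd).2.1).2.2 q m3 q m5 rfl
  have hne1 : q.1 ≠ q'.1 := fun h1 => hne (Prod.ext h1 (by omega))
  obtain ⟨v, hv, hv1⟩ : ∃ v ∈ W, v.1 = p.1 := by
    rcases hpq1 with a | a <;> rcases hpq1' with b | b
    · omega
    · exact ivt' hWch m4 m3 (by simp only; omega) (by omega)
    · exact ivt' hWch m3 m4 (by omega) (by simp only; omega)
    · omega
  have b1 := hr v (by rw [hW1]; simp [hv]) _ m2 (by simp only; exact hv1)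
  have b2 := hr' p (by simp [m1]) v (by rw [hYW]; simp [hv]) hv1.symm
  simp only at b1
  omega

end Pool.Agent.W870.Pg
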