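import Pool.Agent.W870.Pg.WBr
import Pool.Agent.W870.Pg.Nest

/-!
Polygons with many cuts are rare.
-/

set_option autoImplicit false

namespace Pool.Agent.W870.Pg

open H981

lemma Can.sl {g : List V} (hg : Can g) : SL ((0, 0) :: g) :=
  ⟨rfl, hg.nd0, hg.chain0⟩

lemma finite_Can (N : ℕ) : {g : List V | Can g ∧ g.length = N}.Finite := by
  refine Set.Finite.of_finite_image ((finite_SL (N + 1)).subset ?_) (f := fun g => (0, 0) :: g) ?_
  · rintro u ⟨g, hg, rfl⟩
    exact ⟨hg.1.sl, by simp [hg.2]⟩
  · intro g _ g' _ h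
    simpa using h

/-- polygons with `N + 1` sites -/
noncomputable def CanF (N : ℕ) : Finset (List V) := (finite_Can N).toFinset

lemma mem_CanF {N : ℕ} {g : List V} : g ∈ CanF N ↔ Can g ∧ g.length = N := by
  unfold CanF
  rw [Set.Finite.mem_toFinset]
  rfl

/-- the top site -/
lemma exists_top {g : List V} (hg : Can g) :
    ∃ (a : List V) (K : V) (b : List V), g = a ++ K :: b ∧ ∀ v ∈ g, v ≠ K → lexlt v K := by
  classical
  obtain ⟨K, hK, hmax⟩ := Finset.exists_max_image g.toFinset (fun v => (toLex v : ℤ ×ₗ ℤ))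
    ⟨(1, 0), by simpa using hg.mem10⟩
  rw [List.mem_toFinset] at hK
  obtain ⟨a, b, h⟩ := List.append_of_mem hK
  refine ⟨a, K, b, h, fun v hv hne => ?_⟩
  have h1 := hmax v (List.mem_toFinset.mpr hv)
  rw [Prod.Lex.le_iff] at h1
  unfold lexlt
  simp only [ofLex_toLex] at h1
  rcases h1 with h1 | ⟨h1, h2⟩
  · exact Or.inl h1
  · right
    refine ⟨h1, lt_of_le_of_ne h2 ?_⟩
    intro h3
    exact hne (Prod.ext h1 h3)

/-- the first strand -/
noncomputable def sA (g : List V) : List V :=
  open Classical in if h : Can g then (exists_top h).choose else []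

/-- the top site -/
noncomputable def sK (g : List V) : V :=
  open Classical in if h : Can g then (exists_top h).choose_spec.choose else (0, 0)

/-- the second strand, reversed -/
noncomputable def sB (g : List V) : List V :=
  open Classical in if h : Can g then (exists_top h).choose_spec.choose_spec.choose.reverse else []

lemma strands {g : List V} (hg : Can g) : g = sA g ++ sK g :: (sB g).reverse ∧
    ∀ v ∈ g, v ≠ sK g → lexlt v (sK g) := by
  unfold sA sK sB
  rw [dif_pos hg, dif_pos hg, dif_pos hg, List.reverse_reverse]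
  exact (exists_top hg).choose_spec.choose_spec.choose_spec

/-- `a` is the number of sites before a cut -/
def IsC (g : List V) (a b : ℕ) : Prop :=
  ∃ X Y Z : List V, g = X ++ Y ++ Z ∧ X.length = a ∧ Z.length = b ∧ Cut X Y Z

/-- the cuts of a polygon -/
noncomputable def cutset (g : List V) : Finset ℕ :=
  open Classical in (Finset.range (g.length + 1)).filter (fun a => ∃ b, IsC g a b)

lemma mem_cutset {g : List V} {a : ℕ} : a ∈ cutset g ↔ ∃ b, IsC g a b := by
  simp only [cutset, Finset.mem_filter, Finset.mem_range]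
  constructor
  · exact fun h => h.2
  · rintro ⟨b, h⟩
    refine ⟨?_, b, h⟩
    obtain ⟨X, Y, Z, rfl, rfl, -, -⟩ := h
    simp only [List.length_append]
    omega

/-- the number of sites after the cut -/
noncomputable def bf (g : List V) (a : ℕ) : ℕ :=
  open Classical in if h : ∃ b, IsC g a b then h.choose else 0

lemma bf_spec {g : List V} {a : ℕ} (h : a ∈ cutset g) : IsC g a (bf g a) := by
  rw [mem_cutset] at h
  unfold bf
  rw [dif_pos h]
  exact h.choose_spec

lemma IsC_uniq {g : List V} (hg : Can g) {a b b' : ℕ} (h : IsC g a b) (h' : IsC g a b') :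
    b = b' := by
  obtain ⟨X, Y, Z, h1, h2, h3, h4⟩ := h
  obtain ⟨X', Y', Z', h1', h2', h3', h4'⟩ := h'
  have e1 := nested_eq hg h1 h1' h4 h4' (by omega)
  have e2 := nested_eq hg h1' h1 h4' h4 (by omega)
  omega

lemma IsC_lt {g : List V} (hg : Can g) {a b a' b' : ℕ} (h : IsC g a b) (h' : IsC g a' b')
    (hlt : a < a') : b < b' := by
  obtain ⟨X, Y, Z, h1, h2, h3, h4⟩ := h
  obtain ⟨X', Y', Z', h1', h2', h3', h4'⟩ := h'
  have e1 := nested hg h1 h1' h4 h4' (by omega)
  omega

/-- validity of one place -/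
def Val (p : List V × List V) (c : ℕ × ℕ) : Prop :=
  0 < c.1 ∧ 0 < c.2 ∧ c.1 < p.1.length ∧ c.2 < p.2.length ∧
    (∀ x ∈ (p.1.take c.1).getLast?, ∀ y ∈ (p.2.take c.2).getLast?, adj x y)

lemma IsC_val {g : List V} (hg : Can g) {a b : ℕ} (h : IsC g a b) : Val (sA g, sB g) (a, b) := by
  obtain ⟨X, Y, Z, h1, h2, h3, h4⟩ := h
  obtain ⟨hs, htop⟩ := strands hg
  have hKg : sK g ∈ g := by
    have : sK g ∈ sA g ++ sK g :: (sB g).reverse := by simp
    rwa [← hs] at this
  obtain ⟨Y1, K, Y2, hK1, hK2, hK3, hK4⟩ := h4.top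
  have hKK : K = sK g := by
    by_contra hne
    have a1 := htop K (by rw [h1, hK1]; simp) hne
    have a2 := hK4 (sK g) (by rw [← h1]; exact hKg) (Ne.symm hne)
    exact lexlt_asymm' a1 a2
  -- comparison of the two splittings at the top
  have hsp : sA g = X ++ Y1 ∧ (sB g).reverse = Y2 ++ Z := by
    have e : sA g ++ sK g :: (sB g).reverse = (X ++ Y1) ++ sK g :: (Y2 ++ Z) :=
      hs.symm.trans (h1.trans (by rw [hK1, hKK]; simp))
    have hnd : (sA g ++ sK g :: (sB g).reverse).Nodup := by
      have := hg.nd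
      rwa [hs] at this
    have n1 : sK g ∉ sA g := by
      intro hm
      exact (List.nodup_append.mp hnd).2.2 _ hm (sK g) (by simp) rfl
    have n2 : sK g ∉ X ++ Y1 := by
      intro hm
      rw [e] at hnd
      exact (List.nodup_append.mp hnd).2.2 _ hm (sK g) (by simp) rfl
    have f1 := congrArg (List.takeWhile (fun x => decide (x ≠ sK g))) e
    rw [List.takeWhile_append_of_pos, List.takeWhile_append_of_pos] at f1
    · have e1 : sA g = X ++ Y1 := by simpa using f1
      rw [e1] at e
      have := List.append_cancel_left e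
      simp only [List.cons.injEq, true_and] at this
      exact ⟨e1, this⟩
    · intro x hx
      simp only [decide_eq_true_eq]
      rintro rfl
      exact n2 hx
    · intro x hx
      simp only [decide_eq_true_eq]
      rintro rfl
      exact n1 hx
  have hB : sB g = Z.reverse ++ Y2.reverse := by
    rw [← List.reverse_reverse (sB g), hsp.2]; simp
  obtain ⟨p, q, hp, hyh, hq, hyl, hpq1, hpq2⟩ := h4.corr
  have hX : 0 < X.length := List.length_pos_iff.mpr h4.xn
  have hZ : 0 < Z.length := List.length_pos_iff.mpr h4.zn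
  have hY1 : 0 < Y1.length := List.length_pos_iff.mpr hK2
  have hY2 : 0 < Y2.length := List.length_pos_iff.mpr hK3
  unfold Val
  simp only
  rw [hB, hsp.1]
  refine ⟨by omega, by omega, by simp only [List.length_append]; omega,
    by simp only [List.length_append, List.length_reverse]; omega, ?_⟩
  have t1 : (X ++ Y1).take a = X := List.take_left' h2
  have t2 : (Z.reverse ++ Y2.reverse).take b = Z.reverse := List.take_left' (by simp [h3])
  rw [t1, t2, hp, List.getLast?_reverse, hq]
  intro x hx y hy
  simp only [Option.mem_def, Option.some.injEq] at hx hy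
  rw [← hx, ← hy]
  unfold adj
  omega

lemma Vd_of {p : List V × List V} : ∀ (t : List (ℕ × ℕ)) (a0 b0 : ℕ),
    (∀ c ∈ t, a0 < c.1 ∧ b0 < c.2) → (∀ c ∈ t, Val p c) →
    t.Pairwise (fun c c' => c.1 < c'.1 ∧ c.2 < c'.2) → Vd p a0 b0 t := by
  intro t
  induction t with
  | nil => intros; trivial
  | cons c t ih =>
    intro a0 b0 h1 h2 h3
    have hc := h2 c (by simp)
    rw [List.pairwise_cons] at h3
    refine ⟨(h1 c (by simp)).1, (h1 c (by simp)).2, hc.2.2.1, hc.2.2.2.1, hc.2.2.2.2, ?_⟩
    exact ih c.1 c.2 (fun c' hc' => h3.1 c' hc') (fun c' hc' => h2 c' (List.mem_cons_of_mem _ hc'))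
      h3.2

/-- the list of places of a set of cuts -/
noncomputable def tS (g : List V) (S : Finset ℕ) : List (ℕ × ℕ) :=
  (S.sort (· ≤ ·)).map (fun a => (a, bf g a))

lemma tS_length (g : List V) (S : Finset ℕ) : (tS g S).length = S.card := by
  unfold tS; simp

lemma tS_Vd {g : List V} (hg : Can g) {S : Finset ℕ} (hS : S ⊆ cutset g) :
    Vd (sA g, sB g) 0 0 (tS g S) := by
  have hval : ∀ c ∈ tS g S, Val (sA g, sB g) c := by
    intro c hc
    unfold tS at hc
    rw [List.mem_map] at hc
    obtain ⟨a, ha, rfl⟩ := hc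
    rw [Finset.mem_sort] at ha
    exact IsC_val hg (bf_spec (hS ha))
  apply Vd_of
  · intro c hc
    have := hval c hc
    exact ⟨this.1, this.2.1⟩
  · exact hval
  · unfold tS
    rw [List.pairwise_map]
    have h1 : (S.sort (· ≤ ·)).Pairwise (· < ·) := Finset.sortedLT_sort S |>.pairwise
    refine h1.imp_of_mem ?_
    intro a b ha hb hab
    rw [Finset.mem_sort] at ha hb
    exact ⟨hab, IsC_lt hg (bf_spec (hS ha)) (bf_spec (hS hb)) hab⟩

lemma tS_inj {g : List V} {S S' : Finset ℕ} (h : tS g S = tS g S') : S = S' := by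
  unfold tS at h
  have := congrArg (List.map Prod.fst) h
  rw [List.map_map, List.map_map] at this
  have e : (Prod.fst ∘ fun a => (a, bf g a)) = (id : ℕ → ℕ) := by ext; simp
  rw [e, List.map_id, List.map_id] at this
  have h2 := congrArg List.toFinset this
  simpa using h2

lemma chain_wrap {l l' : List V} {K : V} (h : ((0, 0) :: (l ++ [K])).IsChain adj)
    (h1 : l'.IsChain adj) (h2 : l'.head? = l.head?) (h3 : ∀ x ∈ l'.getLast?, adj x K) :
    ((0, 0) :: (l' ++ [K])).IsChain adj := by
  rw [List.isChain_cons] at h ⊢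
  refine ⟨?_, ?_⟩
  · have e : (l' ++ [K]).head? = (l ++ [K]).head? := by
      rw [List.head?_append, List.head?_append, h2]
    rw [e]; exact h.1
  · rw [List.isChain_append]
    refine ⟨h1, by simp, ?_⟩
    intro x hx y hy
    simp only [List.head?_cons, Option.mem_def, Option.some.injEq] at hy
    subst hy
    exact h3 x hx

lemma head?_of_take {l l' : List V} (h : l'.take (0 + 1) = l.take (0 + 1)) : l'.head? = l.head? := by
  cases l <;> cases l' <;> simp_all

/-- the pair of weak bridges of a polygon with a set of cuts -/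
noncomputable def Ph (g : List V) (S : Finset ℕ) : List V × List V :=
  ((0, 0) :: ((sw (tS g S) (sA g, sB g)).1 ++ [sK g]),
   (0, 0) :: ((sw (tS g S) (sA g, sB g)).2 ++ [sK g]))

lemma Dp_of {g : List V} (hg : Can g) : Dp (sA g, sB g) := by
  obtain ⟨hs, -⟩ := strands hg
  have hnd := hg.nd
  have hch := hg.ch
  rw [hs] at hnd hch
  have h1 := List.nodup_append.mp hnd
  have h2 := List.nodup_cons.mp h1.2.1
  have h3 := List.isChain_append.mp hch
  have h4 := (List.isChain_cons.mp h3.2.1).2
  refine ⟨h1.1, List.nodup_reverse.mp h2.2, ?_, h3.1, ?_⟩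
  · intro x hx hx2
    exact h1.2.2 x hx x (by simp only at hx2; simp [hx2]) rfl
  · have := chain_symm h4
    simpa using this

lemma Ph_WB {g : List V} (hg : Can g) {S : Finset ℕ} (hS : S ⊆ cutset g) :
    WB (Ph g S).1 ∧ WB (Ph g S).2 := by
  obtain ⟨hs, htop⟩ := strands hg
  have hKg : sK g ∈ g := by
    have : sK g ∈ sA g ++ sK g :: (sB g).reverse := by simp
    rwa [← hs] at this
  have I := inv (Dp_of hg) (tS g S) 0 0 (tS_Vd hg hS)
  have hAg : ∀ x ∈ sA g, x ∈ g := by
    intro x hx
    have : x ∈ sA g ++ sK g :: (sB g).reverse := by simp [hx]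
    rwa [← hs] at this
  have hBg : ∀ x ∈ sB g, x ∈ g := by
    intro x hx
    have : x ∈ sA g ++ sK g :: (sB g).reverse := by simp [hx]
    rwa [← hs] at this
  have hnd := hg.nd
  rw [hs] at hnd
  have hKA : sK g ∉ sA g := fun h => (List.nodup_append.mp hnd).2.2 _ h _ (by simp) rfl
  have hKB : sK g ∉ sB g := by
    have := (List.nodup_cons.mp (List.nodup_append.mp hnd).2.1).1
    simpa using this
  have hch0 := hg.chain0
  have hcA : ((0, 0) :: (sA g ++ [sK g])).IsChain adj := by
    have e0 : (0, 0) :: g = ((0, 0) :: (sA g ++ [sK g])) ++ (sB g).reverse := by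
      conv_lhs => rw [hs]
      simp
    rw [e0] at hch0
    exact (List.isChain_append.mp hch0).1
  have hcB : ((0, 0) :: (sB g ++ [sK g])).IsChain adj := by
    have h1 : (g ++ [(0, 0)]).IsChain adj := by
      rw [List.isChain_append]
      refine ⟨hg.ch, by simp, ?_⟩
      intro x hx y hy
      rw [hg.lt] at hx
      simp only [List.head?_cons, Option.mem_def, Option.some.injEq] at hx hy
      subst hx hy
      unfold adj; simp
    have h2 : (sK g :: ((sB g).reverse ++ [(0, 0)])).IsChain adj := by
      refine h1.suffix ?_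
      refine ⟨sA g, ?_⟩
      conv_rhs => rw [hs]
      simp
    have h3 := chain_symm h2
    simpa using h3
  have hl := I.lst (fun x => adj x (sK g)) (by
    intro x hx
    have h1 := (List.isChain_cons.mp hcA).2
    exact (List.isChain_append.mp h1).2.2 x hx (sK g) (by simp)) (by
    intro x hx
    have h1 := (List.isChain_cons.mp hcB).2
    exact (List.isChain_append.mp h1).2.2 x hx (sK g) (by simp))
  have hlp : ∀ x ∈ g, 0 ≤ x.1 ∧ x ≠ (0, 0) ∧ x.1 ≤ (sK g).1 := by
    intro x hx
    refine ⟨hg.nonneg (Or.inl hx), ?_, ?_⟩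
    · rintro rfl
      have := hg.lp _ hx
      unfold lexpos at this
      simp at this
    · by_cases h : x = sK g
      · rw [h]
      · have := htop x hx h
        unfold lexlt at this
        omega
  have gen : ∀ l : List V, l.Nodup → (∀ x ∈ l, x ∈ sA g ∨ x ∈ sB g) →
      ((0, 0) :: (l ++ [sK g])).IsChain adj → WB ((0, 0) :: (l ++ [sK g])) := by
    intro l h1 h2 h3
    have h4 : ∀ x ∈ l, x ∈ g := fun x hx => by
      rcases h2 x hx with h | h
      · exact hAg x h
      · exact hBg x h
    refine ⟨⟨rfl, ?_, h3⟩, ?_, ?_⟩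
    · rw [List.nodup_cons, List.nodup_append]
      refine ⟨?_, h1, by simp, ?_⟩
      · intro h
        rcases List.mem_append.mp h with h | h
        · exact (hlp _ (h4 _ h)).2.1 rfl
        · rw [List.mem_singleton] at h
          exact (hlp _ hKg).2.1 h.symm
      · intro x hx y hy hxy
        rw [List.mem_singleton] at hy
        subst hxy hy
        rcases h2 _ hx with h | h
        · exact hKA h
        · exact hKB h
    · intro v hv
      rcases List.mem_cons.mp hv with h | h
      · rw [h]
      · rcases List.mem_append.mp h with h | h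
        · exact (hlp _ (h4 _ h)).1
        · rw [List.mem_singleton] at h
          rw [h]; exact (hlp _ hKg).1
    · intro K hK v hv
      have : K = sK g := by
        have e : ((0, 0) :: (l ++ [sK g])).getLast? = some (sK g) := by
          rw [← List.cons_append, List.getLast?_append_of_ne_nil _ (by simp)]; simp
        rw [e] at hK
        simpa using hK.symm
      rw [this]
      rcases List.mem_cons.mp hv with h | h
      · rw [h]; exact (hlp _ hKg).1
      · rcases List.mem_append.mp h with h | h
        · exact (hlp _ (h4 _ h)).2.2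
        · rw [List.mem_singleton] at h
          rw [h]
  exact ⟨gen _ I.n1 I.e1 (chain_wrap hcA I.c1 (head?_of_take I.t1) hl.1),
    gen _ I.n2 (fun x hx => I.e2 x hx) (chain_wrap hcB I.c2 (head?_of_take I.t2) hl.2)⟩

lemma Ph_length {g : List V} (hg : Can g) {S : Finset ℕ} (hS : S ⊆ cutset g) :
    (Ph g S).1.length + (Ph g S).2.length = g.length + 2 * S.card + 3 := by
  have I := (inv (Dp_of hg) (tS g S) 0 0 (tS_Vd hg hS)).len
  rw [tS_length] at I
  have h1 : g.length = (sA g).length + (sB g).length + 1 := by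
    have := congrArg List.length (strands hg).1
    simp only [List.length_append, List.length_cons, List.length_reverse] at this
    omega
  unfold Ph
  simp only [List.length_cons, List.length_append, List.length_nil] at I ⊢
  omega

lemma Ph_inj {g g' : List V} (hg : Can g) (hg' : Can g') {S S' : Finset ℕ} (hS : S ⊆ cutset g)
    (hS' : S' ⊆ cutset g') (hc : S.card = S'.card) (h : Ph g S = Ph g' S') :
    g = g' ∧ S = S' := by
  unfold Ph at h
  simp only [Prod.mk.injEq, List.cons.injEq, true_and] at h
  obtain ⟨h1, h2⟩ := h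
  have e1 := List.append_inj' h1 rfl
  have e2 := List.append_inj' h2 rfl
  have hK : sK g = sK g' := by simpa using e1.2
  have hsw : sw (tS g S) (sA g, sB g) = sw (tS g' S') (sA g', sB g') := Prod.ext e1.1 e2.1
  obtain ⟨f1, f2⟩ := sw_inj _ _ _ _ (Dp_of hg) (Dp_of hg') (tS_Vd hg hS) (tS_Vd hg' hS')
    (by rw [tS_length, tS_length, hc]) hsw
  have hgg : g = g' := by
    rw [Prod.mk.injEq] at f2
    rw [(strands hg).1, (strands hg').1, f2.1, f2.2, hK]
  subst hgg
  exact ⟨rfl, tS_inj f1⟩

/-- **Polygons with many cuts** -/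
theorem choose_sum (N r : ℕ) :
    ∑ g ∈ CanF N, ((cutset g).card.choose r : ℝ) ≤ (N + 2 * r + 4) * mu ^ (N + 2 * r + 3) := by
  classical
  have h1 : ∑ g ∈ CanF N, (cutset g).card.choose r ≤ (WP (N + 2 * r + 3)).card := by
    have e : ∑ g ∈ CanF N, (cutset g).card.choose r =
        ((CanF N).sigma (fun g => Finset.powersetCard r (cutset g))).card := by
      rw [Finset.card_sigma]
      apply Finset.sum_congr rfl
      intro g _
      rw [Finset.card_powersetCard]
    rw [e]
    refine Finset.card_le_card_of_injOn (fun x => Ph x.1 x.2) ?_ ?_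
    · rintro ⟨g, S⟩ hx
      simp only [Finset.coe_sigma, Set.mem_sigma_iff, Finset.mem_coe, Finset.mem_powersetCard,
        mem_CanF] at hx
      obtain ⟨⟨hg, hN⟩, hS, hr⟩ := hx
      have h2 := Ph_WB hg hS
      have h3 := Ph_length hg hS
      rw [hN, hr] at h3
      exact mem_WP h2.1 h2.2 h3
    · rintro ⟨g, S⟩ hx ⟨g', S'⟩ hx' h
      simp only [Finset.coe_sigma, Set.mem_sigma_iff, Finset.mem_coe, Finset.mem_powersetCard,
        mem_CanF] at hx hx' h
      obtain ⟨h4, h5⟩ := Ph_inj hx.1.1 hx'.1.1 hx.2.1 hx'.2.1 (by rw [hx.2.2, hx'.2.2]) h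
      subst h4 h5
      rfl
  have h2 := WP_card_le (N + 2 * r + 3)
  calc ∑ g ∈ CanF N, ((cutset g).card.choose r : ℝ)
      = ((∑ g ∈ CanF N, (cutset g).card.choose r : ℕ) : ℝ) := by push_cast; rfl
    _ ≤ ((WP (N + 2 * r + 3)).card : ℝ) := by exact_mod_cast h1
    _ ≤ _ := h2
    _ = _ := by push_cast; ring

end Pool.Agent.W870.Pg
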