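import Pool.Agent.W870.Pg.Loops

/-!
Counting loops with lists of sites.
-/

set_option autoImplicit false

namespace Pool.Agent.W870.Pg

open Pool.Agent.H924P

/-- the finset of loops -/
noncomputable def LF (m : ℕ) : Finset (ZMod m → V) :=
  open Classical in if h : {f : ZMod m → V | IsLoop m f}.Finite then h.toFinset else ∅

lemma mem_LF {m : ℕ} [NeZero m] {f : ZMod m → V} : f ∈ LF m ↔ IsLoop m f := by
  unfold LF
  rw [dif_pos (finite_loops m), Set.Finite.mem_toFinset]
  rfl

/-- a choice of a list for a loop -/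
lemma exists_phi (m : ℕ) (hm : 3 ≤ m) : ∃ φ : (ZMod m → V) → List V × ZMod m × Bool,
    ∀ f, IsLoop m f → (Can (φ f).1 ∧ (φ f).1.length + 1 = m ∧
      (∀ i, f i = cyc (φ f).1 m (dr (φ f).2.2 (i - (φ f).2.1)) -
        cyc (φ f).1 m (dr (φ f).2.2 (-(φ f).2.1))) ∧ width m f ≤ ht (φ f).1) := by
  classical
  have : ∀ f : ZMod m → V, ∃ x : List V × ZMod m × Bool, IsLoop m f →
      (Can x.1 ∧ x.1.length + 1 = m ∧
      (∀ i, f i = cyc x.1 m (dr x.2.2 (i - x.2.1)) -
        cyc x.1 m (dr x.2.2 (-x.2.1))) ∧ width m f ≤ ht x.1) := by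
    intro f
    by_cases h : IsLoop m f
    · obtain ⟨g, k, e, h1⟩ := loop_can hm h
      exact ⟨(g, k, e), fun _ => h1⟩
    · exact ⟨([], 0, false), fun h' => absurd h' h⟩
  choose φ hφ using this
  exact ⟨φ, hφ⟩

/-- sums over loops are bounded by sums over lists -/
lemma sum_loops_le {m : ℕ} [NeZero m] (hm : 3 ≤ m) (u : (ZMod m → V) → ℕ) (w : List V → ℕ)
    (h : ∀ f g, IsLoop m f → Can g → width m f ≤ ht g → u f ≤ w g) :
    ∑ f ∈ LF m, u f ≤ 2 * m * ∑ g ∈ CanF (m - 1), w g := by
  classical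
  obtain ⟨φ, hφ⟩ := exists_phi m hm
  have h1 : ∑ f ∈ LF m, u f ≤ ∑ f ∈ LF m, w (φ f).1 := by
    apply Finset.sum_le_sum
    intro f hf
    rw [mem_LF] at hf
    obtain ⟨a1, a2, a3, a4⟩ := hφ f hf
    exact h f _ hf a1 a4
  have h2 : ∑ f ∈ LF m, w (φ f).1 = ∑ x ∈ (LF m).image φ, w x.1 := by
    rw [Finset.sum_image]
    intro f hf f' hf' he
    rw [Finset.mem_coe, mem_LF] at hf hf'
    funext i
    rw [(hφ f hf).2.2.1 i, (hφ f' hf').2.2.1 i, he]
  have h3 : (LF m).image φ ⊆ (CanF (m - 1)) ×ˢ ((Finset.univ : Finset (ZMod m)) ×ˢ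
      (Finset.univ : Finset Bool)) := by
    intro x hx
    rw [Finset.mem_image] at hx
    obtain ⟨f, hf, rfl⟩ := hx
    rw [mem_LF] at hf
    obtain ⟨a1, a2, a3, a4⟩ := hφ f hf
    simp only [Finset.mem_product, Finset.mem_univ, and_true, mem_CanF]
    exact ⟨a1, by omega⟩
  calc ∑ f ∈ LF m, u f ≤ ∑ x ∈ (LF m).image φ, w x.1 := by rw [← h2]; exact h1
    _ ≤ ∑ x ∈ (CanF (m - 1)) ×ˢ ((Finset.univ : Finset (ZMod m)) ×ˢ
      (Finset.univ : Finset Bool)), w x.1 := Finset.sum_le_sum_of_subset h3
    _ = 2 * m * ∑ g ∈ CanF (m - 1), w g := by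
      rw [Finset.sum_product]
      simp only [Finset.sum_const, Finset.card_product, Finset.card_univ, ZMod.card,
        Fintype.card_bool, smul_eq_mul]
      rw [← Finset.mul_sum]
      ring

lemma cyc_zero (g : List V) (m : ℕ) [NeZero m] : cyc g m 0 = (0, 0) := by
  unfold cyc
  simp

lemma cyc_inj {g : List V} (hg : Can g) {m : ℕ} [NeZero m] (hl : g.length + 1 = m) :
    Function.Injective (cyc g m) := by
  intro i j hij
  unfold cyc at hij
  have hi := ZMod.val_lt i
  have hj := ZMod.val_lt j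
  have hlen : ((0, 0) :: g).length = m := by simp [hl]
  rw [List.getD_eq_getElem _ _ (by omega), List.getD_eq_getElem _ _ (by omega)] at hij
  exact ZMod.val_injective m ((List.Nodup.getElem_inj_iff hg.nd0).mp hij)

lemma cyc_adj {g : List V} (hg : Can g) {m : ℕ} [NeZero m] (hl : g.length + 1 = m) (i : ZMod m) :
    adj (cyc g m i) (cyc g m (i + 1)) := by
  have hi := ZMod.val_lt i
  have hlen : ((0, 0) :: g).length = m := by simp [hl]
  have hg0 : 0 < g.length := List.length_pos_iff.mpr hg.ne
  by_cases h : i.val + 1 < m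
  · have e : (i + 1).val = i.val + 1 := by
      rw [ZMod.val_add, ZMod.val_one'']
      · exact Nat.mod_eq_of_lt h
      · omega
    unfold cyc
    rw [e, List.getD_eq_getElem _ _ (by omega), List.getD_eq_getElem _ _ (by omega)]
    exact List.isChain_iff_getElem.mp hg.chain0 i.val (by omega)
  · have e : i + 1 = 0 := by
      have h1 : i.val + 1 = m := by omega
      have h2 : ((i.val + 1 : ℕ) : ZMod m) = 0 := by rw [h1]; exact ZMod.natCast_self m
      push_cast at h2
      rwa [ZMod.natCast_zmod_val] at h2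
    rw [e, cyc_zero]
    unfold cyc
    have h3 : ((0, 0) :: g).getLast? = some (0, 1) := by
      rw [List.getLast?_cons, hg.lt]; rfl
    rw [List.getLast?_eq_getElem?] at h3
    have h4 : ((0, 0) :: g).length - 1 = i.val := by omega
    rw [h4] at h3
    rw [List.getD_eq_getElem?_getD, h3]
    simp [adj]

lemma cyc_lp {g : List V} (hg : Can g) {m : ℕ} [NeZero m] (hl : g.length + 1 = m) {i : ZMod m}
    (hi0 : i ≠ 0) : lexpos (cyc g m i) := by
  have hi := ZMod.val_lt i
  have hlen : ((0, 0) :: g).length = m := by simp [hl]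
  have h0 : i.val ≠ 0 := fun h => hi0 ((ZMod.val_eq_zero i).mp h)
  unfold cyc
  rw [List.getD_eq_getElem _ _ (by omega)]
  obtain ⟨j, hj⟩ : ∃ j, i.val = j + 1 := ⟨i.val - 1, by omega⟩
  apply hg.lp
  simp only [hj, List.getElem_cons_succ]
  exact List.getElem_mem _

lemma lists_le_loops {m : ℕ} [NeZero m] : m * (CanF (m - 1)).card ≤ (LF m).card := by
  classical
  have e : m * (CanF (m - 1)).card = ((CanF (m - 1)) ×ˢ (Finset.univ : Finset (ZMod m))).card := by
    rw [Finset.card_product, Finset.card_univ, ZMod.card]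
    ring
  rw [e]
  have hm0 : 0 < m := Nat.pos_of_ne_zero (NeZero.ne m)
  refine Finset.card_le_card_of_injOn
    (fun x => fun i => cyc x.1 m (i - x.2) - cyc x.1 m (-x.2)) ?_ ?_
  · rintro ⟨g, k⟩ hx
    simp only [Finset.coe_product, Set.mem_prod, Finset.mem_coe, mem_CanF] at hx
    obtain ⟨⟨hg, hl⟩, -⟩ := hx
    have hg0 : 0 < g.length := List.length_pos_iff.mpr hg.ne
    have hl' : g.length + 1 = m := by omega
    rw [Finset.mem_coe, mem_LF]
    refine ⟨by simp, ?_, ?_⟩
    · intro i j hij
      simp only [sub_left_inj] at hij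
      exact sub_left_injective (cyc_inj hg hl' hij)
    · intro i
      rw [← adj_iff_abs]
      apply adj_sub
      have := cyc_adj hg hl' (i - k)
      have e2 : i - k + 1 = i + 1 - k := by ring
      rwa [e2] at this
  · rintro ⟨g, k⟩ hx ⟨g', k'⟩ hx' h
    simp only [Finset.coe_product, Set.mem_prod, Finset.mem_coe, mem_CanF] at hx hx'
    obtain ⟨⟨hg, hl⟩, -⟩ := hx
    obtain ⟨⟨hg', hl'⟩, -⟩ := hx'
    have hg0 : 0 < g.length := List.length_pos_iff.mpr hg.ne
    have hg0' : 0 < g'.length := List.length_pos_iff.mpr hg'.ne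
    have hm1 : g.length + 1 = m := by omega
    have hm1' : g'.length + 1 = m := by omega
    simp only at h
    have hk : k = k' := by
      by_contra hne
      have h1 := congrFun h k
      have h2 := congrFun h k'
      simp only [sub_self, cyc_zero] at h1 h2
      have a1 := cyc_lp hg hm1 (i := k' - k) (sub_ne_zero.mpr (Ne.symm hne))
      have a2 := cyc_lp hg' hm1' (i := k - k') (sub_ne_zero.mpr hne)
      have b1 := congrArg Prod.fst h1
      have b2 := congrArg Prod.snd h1
      have b3 := congrArg Prod.fst h2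
      have b4 := congrArg Prod.snd h2
      simp only [Prod.fst_sub, Prod.snd_sub] at b1 b2 b3 b4
      unfold lexpos at a1 a2
      omega
    subst hk
    have hc : cyc g m (-k) = cyc g' m (-k) := by
      have := congrFun h k
      simp only [sub_self, cyc_zero] at this
      simpa using this
    have hcc : ∀ i, cyc g m i = cyc g' m i := by
      intro i
      have := congrFun h (i + k)
      simp only [add_sub_cancel_right] at this
      rw [hc] at this
      simpa using this
    have hgg : g = g' := by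
      apply List.ext_getElem (by omega)
      intro i hi hi'
      have h1 := hcc ((i + 1 : ℕ) : ZMod m)
      unfold cyc at h1
      rw [ZMod.val_natCast, Nat.mod_eq_of_lt (by omega)] at h1
      rw [List.getD_cons_succ, List.getD_cons_succ, List.getD_eq_getElem _ _ hi,
        List.getD_eq_getElem _ _ hi'] at h1
      exact h1
    subst hgg
    rfl

/-! ### symmetry -/

lemma le_width {m : ℕ} [NeZero m] (f : ZMod m → V) (i j : ZMod m) :
    ((f i).1 - (f j).1).natAbs ≤ width m f := by
  unfold width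
  apply le_csSup
  · have : (Set.range (fun p : ZMod m × ZMod m => ((f p.1).1 - (f p.2).1).natAbs)).Finite :=
      Set.finite_range _
    refine (this.subset ?_).bddAbove
    rintro w ⟨i, j, rfl⟩
    exact ⟨(i, j), rfl⟩
  · exact ⟨i, j, rfl⟩

lemma le_height {m : ℕ} [NeZero m] (f : ZMod m → V) (i j : ZMod m) :
    ((f i).2 - (f j).2).natAbs ≤ height m f := by
  unfold height
  apply le_csSup
  · have : (Set.range (fun p : ZMod m × ZMod m => ((f p.1).2 - (f p.2).2).natAbs)).Finite :=
      Set.finite_range _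
    refine (this.subset ?_).bddAbove
    rintro w ⟨i, j, rfl⟩
    exact ⟨(i, j), rfl⟩
  · exact ⟨i, j, rfl⟩

lemma box_card {m : ℕ} [NeZero m] {f : ZMod m → V} (hf : Function.Injective f) :
    m ≤ (width m f + 1) * (height m f + 1) := by
  classical
  obtain ⟨i0, -, hi0⟩ := Finset.exists_min_image (Finset.univ : Finset (ZMod m))
    (fun i => (f i).1) ⟨0, Finset.mem_univ _⟩
  obtain ⟨j0, -, hj0⟩ := Finset.exists_min_image (Finset.univ : Finset (ZMod m))
    (fun i => (f i).2) ⟨0, Finset.mem_univ _⟩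
  have h1 : (Finset.univ : Finset (ZMod m)).card ≤
      ((Finset.Icc (f i0).1 ((f i0).1 + width m f)) ×ˢ
        (Finset.Icc (f j0).2 ((f j0).2 + height m f))).card := by
    refine Finset.card_le_card_of_injOn f ?_ (hf.injOn)
    intro i _
    rw [Finset.mem_coe, Finset.mem_product, Finset.mem_Icc, Finset.mem_Icc]
    have a1 := hi0 i (Finset.mem_univ _)
    have a2 := hj0 i (Finset.mem_univ _)
    have a3 := le_width f i i0
    have a4 := le_height f i j0
    omega
  rw [Finset.card_univ, ZMod.card, Finset.card_product, Int.card_Icc, Int.card_Icc] at h1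
  have e1 : ((f i0).1 + (width m f : ℤ) + 1 - (f i0).1).toNat = width m f + 1 := by omega
  have e2 : ((f j0).2 + (height m f : ℤ) + 1 - (f j0).2).toNat = height m f + 1 := by omega
  rwa [e1, e2] at h1

/-- exchange of the coordinates -/
def swp {m : ℕ} (f : ZMod m → V) : ZMod m → V := fun i => ((f i).2, (f i).1)

lemma swp_swp {m : ℕ} (f : ZMod m → V) : swp (swp f) = f := rfl

lemma width_swp {m : ℕ} (f : ZMod m → V) : width m (swp f) = height m f := rfl

lemma swp_loop {m : ℕ} {f : ZMod m → V} (hf : IsLoop m f) : IsLoop m (swp f) := by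
  obtain ⟨h0, h1, h2⟩ := hf
  refine ⟨?_, ?_, ?_⟩
  · unfold swp; rw [h0]; rfl
  · intro i j hij
    unfold swp at hij
    rw [Prod.mk.injEq] at hij
    exact h1 (Prod.ext hij.2 hij.1)
  · intro i
    unfold swp
    simp only
    rw [add_comm]
    exact h2 i

lemma sum_swp {m : ℕ} [NeZero m] (u : (ZMod m → V) → ℕ) :
    ∑ f ∈ LF m, u (swp f) = ∑ f ∈ LF m, u f := by
  refine Finset.sum_nbij' (fun f => swp f) (fun f => swp f) ?_ ?_ ?_ ?_ ?_
  · intro f hf
    rw [mem_LF] at hf ⊢
    exact swp_loop hf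
  · intro f hf
    rw [mem_LF] at hf ⊢
    exact swp_loop hf
  · intro f _; rfl
  · intro f _; rfl
  · intro f _; rfl

end Pool.Agent.W870.Pg
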