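import Pool.Agent.W870.Pg.JCount
import Pool.Agent.H739K.All1

/-!
Loops and lists of sites.
-/

set_option autoImplicit false

namespace Pool.Agent.W870.Pg

open Pool.Agent.H924P

/-- a normalised loop -/
structure NL (m : ℕ) (F : ZMod m → V) : Prop where
  z : F 0 = (0, 0)
  inj : Function.Injective F
  ad : ∀ i, adj (F i) (F (i + 1))
  lp : ∀ i, i ≠ 0 → lexpos (F i)

/-- the loop of a list -/
def cyc (g : List V) (m : ℕ) : ZMod m → V := fun i => ((0, 0) :: g).getD i.val (0, 0)

lemma adj_zero {v : V} (h : adj (0, 0) v) (hp : lexpos v) : v = (1, 0) ∨ v = (0, 1) := by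
  unfold adj at h
  unfold lexpos at hp
  simp only at h
  obtain ⟨a, b⟩ := v
  simp only [Prod.mk.injEq] at h hp ⊢
  omega

lemma NL.can {m : ℕ} (hm : 3 ≤ m) {F : ZMod m → V} (h : NL m F) (h1 : F 1 = (1, 0)) :
    ∃ g : List V, Can g ∧ g.length + 1 = m ∧ cyc g m = F := by
  obtain ⟨n, rfl⟩ : ∃ n, m = n + 2 := ⟨m - 2, by omega⟩
  have hval : ∀ k : ℕ, k < n + 2 → ((k : ℕ) : ZMod (n + 2)).val = k := fun k hk => by
    rw [ZMod.val_natCast, Nat.mod_eq_of_lt hk]
  have hcast : ∀ k l : ℕ, k < n + 2 → l < n + 2 → ((k : ℕ) : ZMod (n + 2)) = (l : ℕ) → k = l := by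
    intro k l hk hl h
    have := congrArg ZMod.val h
    rwa [hval k hk, hval l hl] at this
  have hm1 : F (-1) = (0, 1) := by
    have h2 := h.ad (-1)
    rw [neg_add_cancel, h.z] at h2
    have hne0 : (-1 : ZMod (n + 2)) ≠ 0 := by
      intro h3
      have h4 : (1 : ZMod (n + 2)) = 0 := by
        rw [← neg_neg (1 : ZMod (n + 2)), h3, neg_zero]
      have := hcast 1 0 (by omega) (by omega) (by simpa using h4)
      omega
    rcases adj_zero (adj_symm h2) (h.lp _ hne0) with h3 | h3
    · exfalso
      have h4 := h.inj (h3.trans h1.symm)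
      have h5 : ((2 : ℕ) : ZMod (n + 2)) = ((0 : ℕ) : ZMod (n + 2)) := by
        push_cast
        have : (2 : ZMod (n + 2)) = 1 - (-1) := by ring
        rw [this, h4, sub_self]
      have := hcast 2 0 (by omega) (by omega) h5
      omega
    · exact h3
  set g : List V := (List.range (n + 1)).map (fun i => F ((i + 1 : ℕ) : ZMod (n + 2))) with hg
  have hgl : g.length = n + 1 := by rw [hg]; simp
  have hget : ∀ i (hi : i < g.length), g[i] = F ((i + 1 : ℕ) : ZMod (n + 2)) := by
    intro i hi
    simp [hg]
  refine ⟨g, ⟨?_, ?_, ?_, ?_, ?_⟩, by rw [hgl], ?_⟩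
  · rw [hg]
    refine List.Nodup.map_on ?_ List.nodup_range
    intro x hx y hy hxy
    rw [List.mem_range] at hx hy
    have := hcast _ _ (by omega) (by omega) (h.inj hxy)
    omega
  · rw [List.isChain_iff_getElem]
    intro i hi
    rw [hget, hget]
    have := h.ad ((i + 1 : ℕ) : ZMod (n + 2))
    have e : (((i + 1 : ℕ) : ZMod (n + 2)) + 1) = ((i + 1 + 1 : ℕ) : ZMod (n + 2)) := by
      push_cast; ring
    rwa [e] at this
  · rw [List.head?_eq_getElem?, List.getElem?_eq_getElem (by omega), hget]
    simp only [zero_add, Nat.cast_one]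
    rw [h1]
  · rw [List.getLast?_eq_getElem?, List.getElem?_eq_getElem (by omega), hget]
    have e : ((g.length - 1 + 1 : ℕ) : ZMod (n + 2)) = -1 := by
      rw [hgl]
      have : ((n + 2 : ℕ) : ZMod (n + 2)) = 0 := ZMod.natCast_self _
      have e2 : ((n + 1 - 1 + 1 : ℕ) : ZMod (n + 2)) + 1 = 0 := by
        rw [← this]; push_cast; ring_nf
      exact eq_neg_of_add_eq_zero_left e2
    rw [e, hm1]
  · intro v hv
    rw [hg, List.mem_map] at hv
    obtain ⟨i, hi, rfl⟩ := hv
    rw [List.mem_range] at hi
    apply h.lp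
    intro h3
    have := hcast (i + 1) 0 (by omega) (by omega) (by simpa using h3)
    omega
  · funext i
    unfold cyc
    have hi := ZMod.val_lt i
    rcases Nat.eq_zero_or_pos i.val with h3 | h3
    · have : i = 0 := (ZMod.val_eq_zero i).mp h3
      subst this
      simp [h.z]
    · obtain ⟨j, hj⟩ : ∃ j, i.val = j + 1 := ⟨i.val - 1, by omega⟩
      rw [hj, List.getD_cons_succ, List.getD_eq_getElem _ _ (by omega), hget, ← hj,
        ZMod.natCast_zmod_val]

/-- direction of a loop -/
def dr {m : ℕ} (e : Bool) (i : ZMod m) : ZMod m := if e then -i else i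

lemma adj_sub {u v w : V} (h : adj u v) : adj (u - w) (v - w) := by
  unfold adj at *
  simp only [Prod.fst_sub, Prod.snd_sub]
  omega

lemma loop_can {m : ℕ} (hm : 3 ≤ m) {f : ZMod m → V} (hf : IsLoop m f) :
    ∃ (g : List V) (k : ZMod m) (e : Bool), Can g ∧ g.length + 1 = m ∧
      (∀ i, f i = cyc g m (dr e (i - k)) - cyc g m (dr e (-k))) ∧ width m f ≤ ht g := by
  obtain ⟨n, rfl⟩ : ∃ n, m = n + 2 := ⟨m - 2, by omega⟩
  obtain ⟨h0, hinj, hadj⟩ := hf
  obtain ⟨k, -, hk⟩ := Finset.exists_min_image (Finset.univ : Finset (ZMod (n + 2)))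
    (fun i => (toLex (f i) : ℤ ×ₗ ℤ)) ⟨0, Finset.mem_univ _⟩
  have hmin : ∀ i, i ≠ k → lexpos (f i - f k) := by
    intro i hi
    have h1 := hk i (Finset.mem_univ _)
    rw [Prod.Lex.le_iff] at h1
    simp only [ofLex_toLex] at h1
    unfold lexpos
    simp only [Prod.fst_sub, Prod.snd_sub]
    have h2 : f i ≠ f k := fun h => hi (hinj h)
    rcases h1 with h1 | ⟨h1, h3⟩
    · left; omega
    · right
      refine ⟨by omega, ?_⟩
      have : (f k).2 ≠ (f i).2 := fun h => h2 (Prod.ext h1.symm h.symm)
      omega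
  have had : ∀ i, adj (f i) (f (i + 1)) := fun i => (adj_iff_abs _ _).mpr (hadj i)
  have N1 : NL (n + 2) (fun i => f (k + i) - f k) := by
    refine ⟨by simp; rfl, ?_, ?_, ?_⟩
    · intro i j hij
      simp only [sub_left_inj] at hij
      exact add_left_cancel (hinj hij)
    · intro i
      have := adj_sub (w := f k) (had (k + i))
      rwa [add_assoc] at this
    · intro i hi
      apply hmin
      intro h
      exact hi (by simpa using h)
  have N2 : NL (n + 2) (fun i => f (k - i) - f k) := by
    refine ⟨by simp; rfl, ?_, ?_, ?_⟩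
    · intro i j hij
      simp only [sub_left_inj] at hij
      exact sub_right_injective (hinj hij)
    · intro i
      have := adj_sub (w := f k) (had (k - (i + 1)))
      have e : k - (i + 1) + 1 = k - i := by ring
      rw [e] at this
      exact adj_symm this
    · intro i hi
      apply hmin
      intro h
      exact hi (by simpa using h)
  -- the width
  have hwid : ∀ (g : List V) (e : Bool), Can g → (∀ i, f i = cyc g (n + 2) (dr e (i - k)) -
      cyc g (n + 2) (dr e (-k))) → width (n + 2) f ≤ ht g := by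
    intro g e hg h
    apply width_le
    intro i j
    rw [h i, h j]
    simp only [Prod.fst_sub]
    have key : ∀ x, 0 ≤ (cyc g (n + 2) x).1 ∧ (cyc g (n + 2) x).1 ≤ ht g := by
      intro x
      unfold cyc
      by_cases hx : x.val < ((0, 0) :: g).length
      · rw [List.getD_eq_getElem _ _ hx]
        have hmem := List.getElem_mem hx
        have : ((0, 0) :: g)[x.val] ∈ g ∨ ((0, 0) :: g)[x.val] = (0, 0) := by
          rcases List.mem_cons.mp hmem with h | h
          · exact Or.inr h
          · exact Or.inl h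
        exact ⟨hg.nonneg this, Can.le_ht this⟩
      · rw [List.getD_eq_default _ _ (by omega)]
        simp
    have k1 := key (dr e (i - k))
    have k2 := key (dr e (j - k))
    omega
  have h1 : f (k + 1) - f k = (1, 0) ∨ f (k + 1) - f k = (0, 1) := by
    have a1 := N1.ad 0
    have a2 := N1.lp 1 (by
      intro h
      have := (ZMod.natCast_eq_zero_iff 1 (n + 2)).mp (by simpa using h)
      have := Nat.le_of_dvd (by omega) this
      omega)
    rw [N1.z, zero_add] at a1
    exact adj_zero a1 a2
  have h2 : f (k - 1) - f k = (1, 0) ∨ f (k - 1) - f k = (0, 1) := by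
    have a1 := N2.ad 0
    have a2 := N2.lp 1 (by
      intro h
      have := (ZMod.natCast_eq_zero_iff 1 (n + 2)).mp (by simpa using h)
      have := Nat.le_of_dvd (by omega) this
      omega)
    rw [N2.z, zero_add] at a1
    exact adj_zero a1 a2
  rcases h1 with h1 | h1
  · obtain ⟨g, hg, hgl, hc⟩ := NL.can (by omega) N1 h1
    have hf2 : ∀ i, f i = cyc g (n + 2) (dr false (i - k)) - cyc g (n + 2) (dr false (-k)) := by
      intro i
      rw [hc]
      simp only [dr, Bool.false_eq_true, if_false]
      rw [show k + (i - k) = i by ring, show k + -k = 0 by ring, h0]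
      simp
    exact ⟨g, k, false, hg, hgl, hf2, hwid g false hg hf2⟩
  · have h3 : f (k - 1) - f k = (1, 0) := by
      rcases h2 with h2 | h2
      · exact h2
      · exfalso
        have h4 : f (k - 1) = f (k + 1) := by
          have := h2.trans h1.symm
          simpa using this
        have h5 := hinj h4
        have h6 : ((2 : ℕ) : ZMod (n + 2)) = 0 := by
          push_cast
          have : (2 : ZMod (n + 2)) = (k + 1) - (k - 1) := by ring
          rw [this, h5, sub_self]
        have h7 := (ZMod.natCast_eq_zero_iff 2 (n + 2)).mp h6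
        have := Nat.le_of_dvd (by omega) h7
        omega
    obtain ⟨g, hg, hgl, hc⟩ := NL.can (by omega) N2 h3
    have hf2 : ∀ i, f i = cyc g (n + 2) (dr true (i - k)) - cyc g (n + 2) (dr true (-k)) := by
      intro i
      rw [hc]
      simp only [dr, if_true]
      rw [show k - -(i - k) = i by ring, show k - - -k = 0 by ring, h0]
      simp
    exact ⟨g, k, true, hg, hgl, hf2, hwid g true hg hf2⟩

end Pool.Agent.W870.Pg
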