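import Pool.Agent.W870.Pg.Finger

/-!
The modified polygon, split at the new vertical edge.
-/

set_option autoImplicit false

namespace Pool.Agent.W870.Pg

/-- `P`, `R` are the two halves of the modified polygon of `m` -/
def FS (m P R : List V) (k : Fin 5) (σ : ℤ) (b : Bool) (y a : ℤ) : Prop :=
  ∃ L1 L2 : List V,
    (b = false ∧ m = L1 ++ old k σ y a ++ L2 ∧ P = L1 ++ n1 k σ y a ∧ R = n2 k σ y a ++ L2) ∨
    (b = true ∧ m.reverse = L1 ++ old k σ y a ++ L2 ∧ P = (n2 k σ y a ++ L2).reverse ∧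
      R = (L1 ++ n1 k σ y a).reverse)

lemma n1_last (k : Fin 5) (σ y a : ℤ) : (n1 k σ y a).getLast? = some (y, a + 2) := by
  fin_cases k <;> simp [n1]

lemma n2_head (k : Fin 5) (σ y a : ℤ) : (n2 k σ y a).head? = some (y + σ, a + 2) := by
  fin_cases k <;> simp [n2]

lemma n1_ne (k : Fin 5) (σ y a : ℤ) : n1 k σ y a ≠ [] := by
  fin_cases k <;> simp [n1]

lemma n2_ne (k : Fin 5) (σ y a : ℤ) : n2 k σ y a ≠ [] := by
  fin_cases k <;> simp [n2]

lemma old_ne (k : Fin 5) (σ y a : ℤ) : old k σ y a ≠ [] := by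
  fin_cases k <;> simp [old]

lemma nw_head (k : Fin 5) (σ y a : ℤ) : (n1 k σ y a ++ n2 k σ y a).head? = (old k σ y a).head? := by
  fin_cases k <;> simp [n1, n2, old]

lemma nw_last (k : Fin 5) (σ y a : ℤ) :
    (n1 k σ y a ++ n2 k σ y a).getLast? = (old k σ y a).getLast? := by
  fin_cases k <;> simp [n1, n2, old]

lemma nw_chain (k : Fin 5) {σ : ℤ} (hσ : σ = 1 ∨ σ = -1) (y a : ℤ) :
    (n1 k σ y a ++ n2 k σ y a).IsChain adj := by
  rcases hσ with rfl | rfl <;> fin_cases k <;> simp [n1, n2, adj] <;> omega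

lemma nw_nodup (k : Fin 5) {σ : ℤ} (hσ : σ = 1 ∨ σ = -1) (y a : ℤ) :
    (n1 k σ y a ++ n2 k σ y a).Nodup := by
  rcases hσ with rfl | rfl <;> fin_cases k <;> simp [n1, n2] <;> omega

/-- increase of the length -/
def cf (k : Fin 5) : ℕ := if k = 1 ∨ k = 2 then 6 else 4

lemma nw_length (k : Fin 5) (σ y a : ℤ) :
    (n1 k σ y a).length + (n2 k σ y a).length = (old k σ y a).length + cf k := by
  fin_cases k <;> simp [n1, n2, old, cf]

/-- uniqueness of the polygon -/
lemma FS_inj {m m' P R : List V} {k : Fin 5} {σ : ℤ} {b : Bool} {y a y' a' : ℤ}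
    (h : FS m P R k σ b y a) (h' : FS m' P R k σ b y' a') : m = m' := by
  obtain ⟨L1, L2, h⟩ := h
  obtain ⟨L1', L2', h'⟩ := h'
  rcases h with ⟨hb, h1, h2, h3⟩ | ⟨hb, h1, h2, h3⟩ <;>
  rcases h' with ⟨hb', h1', h2', h3'⟩ | ⟨hb', h1', h2', h3'⟩
  · have e1 := congrArg List.getLast? h2
    rw [h2', List.getLast?_append_of_ne_nil _ (n1_ne _ _ _ _),
      List.getLast?_append_of_ne_nil _ (n1_ne _ _ _ _), n1_last, n1_last] at e1
    simp only [Option.some.injEq, Prod.mk.injEq, add_left_inj] at e1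
    obtain ⟨rfl, rfl⟩ := e1
    have e2 := List.append_cancel_right (h2.symm.trans h2')
    have e3 := List.append_cancel_left (h3.symm.trans h3')
    rw [h1, h1', e2, e3]
  · rw [hb] at hb'; simp at hb'
  · rw [hb] at hb'; simp at hb'
  · have h2'' := List.reverse_injective (h2.symm.trans h2')
    have h3'' := List.reverse_injective (h3.symm.trans h3')
    have e1 := congrArg List.getLast? h3''
    rw [List.getLast?_append_of_ne_nil _ (n1_ne _ _ _ _),
      List.getLast?_append_of_ne_nil _ (n1_ne _ _ _ _), n1_last, n1_last] at e1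
    simp only [Option.some.injEq, Prod.mk.injEq, add_left_inj] at e1
    obtain ⟨rfl, rfl⟩ := e1
    have e2 := List.append_cancel_right h3''
    have e3 := List.append_cancel_left h2''
    apply List.reverse_injective
    rw [h1, h1', e2, e3]

/-- properties of the modified polygon -/
structure FP (m P R : List V) (k : Fin 5) (σ : ℤ) (b : Bool) (y a : ℤ) : Prop where
  fs : FS m P R k σ b y a
  can : Can (P ++ R)
  pn : P ≠ []
  rn : R ≠ []
  ends : (P.getLast? = some (y, a + 2) ∧ R.head? = some (y + σ, a + 2)) ∨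
    (P.getLast? = some (y + σ, a + 2) ∧ R.head? = some (y, a + 2))
  el : ∀ v ∈ P ++ R, v ∈ m ∨ (a ≤ v.2 ∧ v.2 ≤ a + 2 ∧ |v.1 - y| ≤ 1)
  len : (P ++ R).length = m.length + cf k

lemma replace_all {m L1 L2 : List V} {k : Fin 5} {σ y a : ℤ} (hσ : σ = 1 ∨ σ = -1)
    (hnd : m.Nodup) (hch : m.IsChain adj) (h : m = L1 ++ old k σ y a ++ L2)
    (hF : ∀ w ∈ n1 k σ y a ++ n2 k σ y a, w ∈ old k σ y a ∨ w ∉ m) :
    ((L1 ++ n1 k σ y a) ++ (n2 k σ y a ++ L2)).Nodup ∧
    ((L1 ++ n1 k σ y a) ++ (n2 k σ y a ++ L2)).IsChain adj ∧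
    ((L1 ++ n1 k σ y a) ++ (n2 k σ y a ++ L2)).head? = m.head? ∧
    ((L1 ++ n1 k σ y a) ++ (n2 k σ y a ++ L2)).getLast? = m.getLast? := by
  have e : (L1 ++ n1 k σ y a) ++ (n2 k σ y a ++ L2) =
      L1 ++ (n1 k σ y a ++ n2 k σ y a) ++ L2 := by simp
  rw [e]
  subst h
  exact ⟨nodup_replace hnd (nw_nodup k hσ y a) hF,
    chain_replace hch (nw_chain k hσ y a) (old_ne _ _ _ _) (nw_head _ _ _ _) (nw_last _ _ _ _),
    head?_replace (old_ne _ _ _ _) (nw_head _ _ _ _),
    getLast?_replace (old_ne _ _ _ _) (nw_last _ _ _ _)⟩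

theorem split {m : List V} (hm : Can m) {k : Fin 5} {σ y a : ℤ} {L1 L2 : List V}
    (hσ : σ = 1 ∨ σ = -1)
    (h : m = L1 ++ old k σ y a ++ L2 ∨ m.reverse = L1 ++ old k σ y a ++ L2)
    (hF : Fresh m k σ y a) : ∃ (b : Bool) (P R : List V), FP m P R k σ b y a := by
  have hlen := nw_length k σ y a
  rcases h with h | h
  · obtain ⟨c1, c2, c3, c4⟩ := replace_all hσ hm.nd hm.ch h (fun w hw => by
      rcases hF w hw with h2 | h2
      · exact Or.inl h2
      · exact Or.inr h2.1)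
    have hel : ∀ v ∈ (L1 ++ n1 k σ y a) ++ (n2 k σ y a ++ L2),
        v ∈ m ∨ (lexpos v ∧ a ≤ v.2 ∧ v.2 ≤ a + 2 ∧ |v.1 - y| ≤ 1) := by
      intro v hv
      have hv' : v ∈ L1 ∨ v ∈ n1 k σ y a ++ n2 k σ y a ∨ v ∈ L2 := by
        simp only [List.mem_append] at hv ⊢; tauto
      rcases hv' with h2 | h2 | h2
      · left; rw [h]; simp [h2]
      · rcases hF v h2 with h3 | h3
        · left; rw [h]; simp [h3]
        · right; exact h3.2
      · left; rw [h]; simp [h2]
    refine ⟨false, L1 ++ n1 k σ y a, n2 k σ y a ++ L2, ⟨⟨L1, L2, Or.inl ⟨rfl, h, rfl, rfl⟩⟩,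
      ⟨c1, c2, ?_, ?_, ?_⟩, ?_, ?_, ?_, ?_, ?_⟩⟩
    · rw [c3]; exact hm.hd
    · rw [c4]; exact hm.lt
    · intro v hv
      rcases hel v hv with h2 | h2
      · exact hm.lp v h2
      · exact h2.1
    · simp [n1_ne]
    · simp [n2_ne]
    · left
      rw [List.getLast?_append_of_ne_nil _ (n1_ne _ _ _ _), n1_last]
      refine ⟨rfl, ?_⟩
      rw [List.head?_append, n2_head]; rfl
    · intro v hv
      rcases hel v hv with h2 | h2
      · exact Or.inl h2
      · exact Or.inr h2.2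
    · rw [h]
      simp only [List.length_append]
      omega
  · obtain ⟨c1, c2, c3, c4⟩ := replace_all hσ (List.nodup_reverse.mpr hm.nd) (chain_symm hm.ch) h
      (fun w hw => by
      rcases hF w hw with h2 | h2
      · exact Or.inl h2
      · right; simpa using h2.1)
    have hel : ∀ v ∈ (L1 ++ n1 k σ y a) ++ (n2 k σ y a ++ L2),
        v ∈ m ∨ (lexpos v ∧ a ≤ v.2 ∧ v.2 ≤ a + 2 ∧ |v.1 - y| ≤ 1) := by
      intro v hv
      have hv' : v ∈ L1 ∨ v ∈ n1 k σ y a ++ n2 k σ y a ∨ v ∈ L2 := by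
        simp only [List.mem_append] at hv ⊢; tauto
      rw [← List.mem_reverse (as := m)]
      rcases hv' with h2 | h2 | h2
      · left; rw [h]; simp [h2]
      · rcases hF v h2 with h3 | h3
        · left; rw [h]; simp [h3]
        · right; exact h3.2
      · left; rw [h]; simp [h2]
    have e : (n2 k σ y a ++ L2).reverse ++ (L1 ++ n1 k σ y a).reverse =
        ((L1 ++ n1 k σ y a) ++ (n2 k σ y a ++ L2)).reverse := by simp
    refine ⟨true, (n2 k σ y a ++ L2).reverse, (L1 ++ n1 k σ y a).reverse,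
      ⟨⟨L1, L2, Or.inr ⟨rfl, h, rfl, rfl⟩⟩,
      ⟨?_, ?_, ?_, ?_, ?_⟩, ?_, ?_, ?_, ?_, ?_⟩⟩
    · rw [e, List.nodup_reverse]; exact c1
    · rw [e]; exact chain_symm c2
    · rw [e, List.head?_reverse, c4, List.getLast?_reverse]; exact hm.hd
    · rw [e, List.getLast?_reverse, c3, List.head?_reverse]; exact hm.lt
    · intro v hv
      rw [e, List.mem_reverse] at hv
      rcases hel v hv with h2 | h2
      · exact hm.lp v h2
      · exact h2.1
    · simp [n2_ne]
    · simp [n1_ne]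
    · right
      rw [List.getLast?_reverse, List.head?_reverse,
        List.getLast?_append_of_ne_nil _ (n1_ne _ _ _ _), n1_last]
      refine ⟨?_, rfl⟩
      rw [List.head?_append, n2_head]; rfl
    · intro v hv
      rw [e, List.mem_reverse] at hv
      rcases hel v hv with h2 | h2
      · exact Or.inl h2
      · exact Or.inr h2.2
    · rw [e, List.length_reverse, ← List.length_reverse (as := m), h]
      simp only [List.length_append]
      omega

end Pool.Agent.W870.Pg
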