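import Pool.Agent.W870.Pg.Basic

/-!
Exchange of the tails of two disjoint walks at a set of places where they are adjacent.
-/

set_option autoImplicit false

namespace Pool.Agent.W870.Pg

/-- exchange of the tails -/
def sw1 (a b : ℕ) (p : List V × List V) : List V × List V :=
  (p.1.take a ++ p.2.drop (b - 1), p.2.take b ++ p.1.drop (a - 1))

/-- exchange of the tails at all places of the list -/
def sw : List (ℕ × ℕ) → List V × List V → List V × List V
  | [], p => p
  | c :: t, p => sw1 c.1 c.2 (sw t p)

/-- the list of places is increasing, all above `(a0, b0)`, and the walks are adjacent there -/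
def Vd (p : List V × List V) : ℕ → ℕ → List (ℕ × ℕ) → Prop
  | _, _, [] => True
  | a0, b0, c :: t => a0 < c.1 ∧ b0 < c.2 ∧ c.1 < p.1.length ∧ c.2 < p.2.length ∧
      (∀ x ∈ (p.1.take c.1).getLast?, ∀ y ∈ (p.2.take c.2).getLast?, adj x y) ∧ Vd p c.1 c.2 t

lemma head?_drop_pred {l : List V} {b : ℕ} (h1 : 1 ≤ b) (h2 : b ≤ l.length) :
    (l.drop (b - 1)).head? = (l.take b).getLast? := by
  rw [List.head?_drop, List.getLast?_take]
  have : b ≠ 0 := by omega
  simp only [this, if_false]
  rw [List.getElem?_eq_getElem (by omega)]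
  simp

lemma take_sw1 {a b a0 : ℕ} {p : List V × List V} (h : a0 ≤ a) (hl : a ≤ p.1.length) :
    (sw1 a b p).1.take a0 = p.1.take a0 := by
  unfold sw1
  simp only
  rw [List.take_append_of_le_length (by rw [List.length_take]; omega), List.take_take]
  congr 1
  omega

lemma take_sw1' {a b b0 : ℕ} {p : List V × List V} (h : b0 ≤ b) (hl : b ≤ p.2.length) :
    (sw1 a b p).2.take b0 = p.2.take b0 := by
  unfold sw1
  simp only
  rw [List.take_append_of_le_length (by rw [List.length_take]; omega), List.take_take]
  congr 1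
  omega

lemma mem_take_iff {l : List V} {x : V} {n : ℕ} : x ∈ l.take n → x ∈ l := List.mem_of_mem_take

lemma not_mem_drop_of_nodup {l : List V} (h : l.Nodup) {x : V} {n m : ℕ} (hx : x ∈ l.take n)
    (hnm : n ≤ m) : x ∉ l.drop m := by
  intro h2
  have h3 : l.drop m = (l.drop n).drop (m - n) := by
    rw [List.drop_drop]; congr 1; omega
  rw [h3] at h2
  have h4 := List.mem_of_mem_drop h2
  have h5 := List.take_append_drop n l
  rw [← h5] at h
  exact (List.nodup_append.mp h).2.2 x hx x h4 rfl

/-- the invariants -/
structure Inv (p : List V × List V) (n a0 b0 : ℕ) (p' : List V × List V) : Prop where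
  t1 : p'.1.take (a0 + 1) = p.1.take (a0 + 1)
  t2 : p'.2.take (b0 + 1) = p.2.take (b0 + 1)
  n1 : p'.1.Nodup
  n2 : p'.2.Nodup
  e1 : ∀ x ∈ p'.1, x ∈ p.1 ∨ x ∈ p.2
  e2 : ∀ x ∈ p'.2, x ∈ p.1 ∨ x ∈ p.2
  d1 : ∀ x ∈ p.1.take a0, x ∉ p'.2
  d2 : ∀ x ∈ p.2.take b0, x ∉ p'.1
  c1 : p'.1.IsChain adj
  c2 : p'.2.IsChain adj
  len : p'.1.length + p'.2.length = p.1.length + p.2.length + 2 * n
  lst : ∀ Q : V → Prop, (∀ x ∈ p.1.getLast?, Q x) → (∀ x ∈ p.2.getLast?, Q x) →
    (∀ x ∈ p'.1.getLast?, Q x) ∧ (∀ x ∈ p'.2.getLast?, Q x)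

lemma take_of_take {l l' : List V} {n m : ℕ} (h : l'.take (n + 1) = l.take (n + 1)) (hm : m ≤ n + 1) :
    l'.take m = l.take m := by
  have h1 := congrArg (List.take m) h
  rw [List.take_take, List.take_take, min_eq_left hm] at h1
  exact h1

/-- a pair of disjoint walks -/
structure Dp (p : List V × List V) : Prop where
  n1 : p.1.Nodup
  n2 : p.2.Nodup
  d : ∀ x ∈ p.1, x ∉ p.2
  c1 : p.1.IsChain adj
  c2 : p.2.IsChain adj

lemma len_of_take {l l' : List V} {a : ℕ} (h : l'.take (a + 1) = l.take (a + 1))
    (ha : a < l.length) : a < l'.length := by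
  have := congrArg List.length h
  rw [List.length_take, List.length_take] at this
  omega

theorem inv {p : List V × List V} (hp : Dp p) : ∀ (t : List (ℕ × ℕ)) (a0 b0 : ℕ), Vd p a0 b0 t →
    Inv p t.length a0 b0 (sw t p) := by
  intro t
  induction t with
  | nil =>
    intro a0 b0 _
    simp only [sw, List.length_nil]
    exact ⟨rfl, rfl, hp.n1, hp.n2, fun x h => Or.inl h, fun x h => Or.inr h,
      fun x h => hp.d x (List.mem_of_mem_take h),
      fun x h h2 => hp.d x h2 (List.mem_of_mem_take h), hp.c1, hp.c2, by omega,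
      fun Q h1 h2 => ⟨h1, h2⟩⟩
  | cons c t ih =>
    intro a0 b0 h
    obtain ⟨h1, h2, h3, h4, h5, h6⟩ := h
    have I := ih c.1 c.2 h6
    obtain ⟨a, b⟩ := c
    simp only at h1 h2 h3 h4 h5 I
    set q := sw t p with hq
    have ha : a < q.1.length := len_of_take I.t1 h3
    have hb : b < q.2.length := len_of_take I.t2 h4
    have ta : q.1.take a = p.1.take a := take_of_take I.t1 (by omega)
    have tb : q.2.take b = p.2.take b := take_of_take I.t2 (by omega)
    have e : sw ((a, b) :: t) p = (q.1.take a ++ q.2.drop (b - 1), q.2.take b ++ q.1.drop (a - 1)) := rfl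
    have hda : q.1.drop (a - 1) ≠ [] := by
      intro h
      have := congrArg List.length h
      rw [List.length_drop] at this
      simp at this
      omega
    have hdb : q.2.drop (b - 1) ≠ [] := by
      intro h
      have := congrArg List.length h
      rw [List.length_drop] at this
      simp at this
      omega
    have hja : (q.1.drop (a - 1)).head? = (p.1.take a).getLast? := by
      rw [head?_drop_pred (by omega) ha.le, ta]
    have hjb : (q.2.drop (b - 1)).head? = (p.2.take b).getLast? := by
      rw [head?_drop_pred (by omega) hb.le, tb]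
    rw [e]
    refine ⟨?_, ?_, ?_, ?_, ?_, ?_, ?_, ?_, ?_, ?_, ?_, ?_⟩
    · have := take_sw1 (a := a) (b := b) (a0 := a0 + 1) (p := q) (by omega) ha.le
      unfold sw1 at this
      simp only at this ⊢
      rw [this]
      exact take_of_take I.t1 (by omega)
    · have := take_sw1' (a := a) (b := b) (b0 := b0 + 1) (p := q) (by omega) hb.le
      unfold sw1 at this
      simp only at this ⊢
      rw [this]
      exact take_of_take I.t2 (by omega)
    · rw [List.nodup_append]
      refine ⟨I.n1.sublist (List.take_sublist _ _), I.n2.sublist (List.drop_sublist _ _), ?_⟩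
      intro x hx y hy hxy
      subst hxy
      rw [ta] at hx
      exact I.d1 x hx (List.mem_of_mem_drop hy)
    · rw [List.nodup_append]
      refine ⟨I.n2.sublist (List.take_sublist _ _), I.n1.sublist (List.drop_sublist _ _), ?_⟩
      intro x hx y hy hxy
      subst hxy
      rw [tb] at hx
      exact I.d2 x hx (List.mem_of_mem_drop hy)
    · intro x hx
      rcases List.mem_append.mp hx with hx | hx
      · rw [ta] at hx; exact Or.inl (List.mem_of_mem_take hx)
      · exact I.e2 x (List.mem_of_mem_drop hx)
    · intro x hx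
      rcases List.mem_append.mp hx with hx | hx
      · rw [tb] at hx; exact Or.inr (List.mem_of_mem_take hx)
      · exact I.e1 x (List.mem_of_mem_drop hx)
    · intro x hx hx2
      have hxa : x ∈ p.1.take a := by
        have : p.1.take a0 = (p.1.take a).take a0 := by
          rw [List.take_take]; congr 1; omega
        rw [this] at hx
        exact List.mem_of_mem_take hx
      rcases List.mem_append.mp hx2 with hx2 | hx2
      · exact I.d1 x hxa (List.mem_of_mem_take hx2)
      · have : q.1.take a0 = p.1.take a0 := take_of_take I.t1 (by omega)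
        rw [← this] at hx
        exact not_mem_drop_of_nodup I.n1 hx (by omega) hx2
    · intro x hx hx2
      have hxa : x ∈ p.2.take b := by
        have : p.2.take b0 = (p.2.take b).take b0 := by
          rw [List.take_take]; congr 1; omega
        rw [this] at hx
        exact List.mem_of_mem_take hx
      rcases List.mem_append.mp hx2 with hx2 | hx2
      · exact I.d2 x hxa (List.mem_of_mem_take hx2)
      · have : q.2.take b0 = p.2.take b0 := take_of_take I.t2 (by omega)
        rw [← this] at hx
        exact not_mem_drop_of_nodup I.n2 hx (by omega) hx2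
    · simp only
      rw [List.isChain_append]
      refine ⟨I.c1.take a, I.c2.drop (b - 1), ?_⟩
      rw [hjb, ta]
      exact h5
    · simp only
      rw [List.isChain_append]
      refine ⟨I.c2.take b, I.c1.drop (a - 1), ?_⟩
      rw [hja, tb]
      intro x hx y hy
      exact adj_symm (h5 y hy x hx)
    · have := I.len
      simp only [List.length_append, List.length_take, List.length_drop, List.length_cons]
      rw [min_eq_left ha.le, min_eq_left hb.le]
      omega
    · intro Q hQ1 hQ2
      have := I.lst Q hQ1 hQ2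
      simp only
      rw [List.getLast?_append_of_ne_nil _ hda, List.getLast?_append_of_ne_nil _ hdb,
        List.getLast?_drop, List.getLast?_drop]
      rw [if_neg (by omega), if_neg (by omega)]
      exact ⟨this.2, this.1⟩

lemma take_mem_of_lt {l : List V} {a : ℕ} (h1 : 1 ≤ a) (h2 : a ≤ l.length) :
    ∃ x, (l.take a).getLast? = some x ∧ x ∈ l.take a := by
  have hne : l.take a ≠ [] := by
    intro h
    have := congrArg List.length h
    rw [List.length_take, List.length_nil] at this
    omega
  exact ⟨(l.take a).getLast hne, List.getLast?_eq_some_getLast hne, List.getLast_mem hne⟩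

/-- the first place is determined -/
lemma first_place {p : List V × List V} (hp : Dp p) {a b : ℕ} {t : List (ℕ × ℕ)}
    (h : Vd p 0 0 ((a, b) :: t)) :
    (∀ x ∈ (sw ((a, b) :: t) p).1.take (a - 1), x ∉ (sw ((a, b) :: t) p).2) ∧
    (∃ x ∈ (sw ((a, b) :: t) p).1.take a, x ∈ (sw ((a, b) :: t) p).2) ∧
    (∀ x ∈ (sw ((a, b) :: t) p).2.take (b - 1), x ∉ (sw ((a, b) :: t) p).1) ∧
    (∃ x ∈ (sw ((a, b) :: t) p).2.take b, x ∈ (sw ((a, b) :: t) p).1) := by
  obtain ⟨h1, h2, h3, h4, h5, h6⟩ := h
  simp only at h1 h2 h3 h4 h5 h6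
  have I := inv hp t a b h6
  set q := sw t p with hq
  have ha : a < q.1.length := len_of_take I.t1 h3
  have hb : b < q.2.length := len_of_take I.t2 h4
  have ta : q.1.take a = p.1.take a := take_of_take I.t1 (by omega)
  have tb : q.2.take b = p.2.take b := take_of_take I.t2 (by omega)
  have e : sw ((a, b) :: t) p = (q.1.take a ++ q.2.drop (b - 1), q.2.take b ++ q.1.drop (a - 1)) := rfl
  rw [e]
  simp only
  have f1 : ∀ n, n ≤ a → (q.1.take a ++ q.2.drop (b - 1)).take n = q.1.take n := by
    intro n hn
    have := take_sw1 (a := a) (b := b) (a0 := n) (p := q) hn ha.le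
    exact this
  have f2 : ∀ n, n ≤ b → (q.2.take b ++ q.1.drop (a - 1)).take n = q.2.take n := by
    intro n hn
    have := take_sw1' (a := a) (b := b) (b0 := n) (p := q) hn hb.le
    exact this
  rw [f1 _ (by omega), f1 _ le_rfl, f2 _ (by omega), f2 _ le_rfl]
  refine ⟨?_, ?_, ?_, ?_⟩
  · intro x hx hx2
    have hxa : x ∈ q.1.take a := by
      have : q.1.take (a - 1) = (q.1.take a).take (a - 1) := by
        rw [List.take_take]; congr 1; omega
      rw [this] at hx
      exact List.mem_of_mem_take hx
    rcases List.mem_append.mp hx2 with hx2 | hx2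
    · rw [ta] at hxa
      exact I.d1 x hxa (List.mem_of_mem_take hx2)
    · exact not_mem_drop_of_nodup I.n1 hx le_rfl hx2
  · obtain ⟨x, hx1, hx2⟩ := take_mem_of_lt (l := q.1) (a := a) (by omega) ha.le
    refine ⟨x, hx2, List.mem_append_right _ ?_⟩
    rw [← head?_drop_pred (by omega) ha.le] at hx1
    exact List.mem_of_head? hx1
  · intro x hx hx2
    have hxa : x ∈ q.2.take b := by
      have : q.2.take (b - 1) = (q.2.take b).take (b - 1) := by
        rw [List.take_take]; congr 1; omega
      rw [this] at hx
      exact List.mem_of_mem_take hx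
    rcases List.mem_append.mp hx2 with hx2 | hx2
    · rw [tb] at hxa
      exact I.d2 x hxa (List.mem_of_mem_take hx2)
    · exact not_mem_drop_of_nodup I.n2 hx le_rfl hx2
  · obtain ⟨x, hx1, hx2⟩ := take_mem_of_lt (l := q.2) (a := b) (by omega) hb.le
    refine ⟨x, hx2, List.mem_append_right _ ?_⟩
    rw [← head?_drop_pred (by omega) hb.le] at hx1
    exact List.mem_of_head? hx1

lemma mem_take_mono {l : List V} {x : V} {n m : ℕ} (h : x ∈ l.take n) (hnm : n ≤ m) :
    x ∈ l.take m := by
  have : l.take n = (l.take m).take n := by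
    rw [List.take_take]; congr 1; omega
  rw [this] at h
  exact List.mem_of_mem_take h

lemma Vd_mono {p : List V × List V} {a0 b0 a1 b1 : ℕ} (ha : a1 ≤ a0) (hb : b1 ≤ b0) :
    ∀ t, Vd p a0 b0 t → Vd p a1 b1 t := by
  intro t h
  cases t with
  | nil => trivial
  | cons c t =>
    obtain ⟨h1, h2, h3⟩ := h
    exact ⟨by omega, by omega, h3⟩

/-- recovering the walks before the last exchange -/
lemma sw1_inj {a b : ℕ} {q q' : List V × List V}
    (ha : a ≤ q.1.length) (hb : b ≤ q.2.length) (ha' : a ≤ q'.1.length) (hb' : b ≤ q'.2.length)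
    (h : sw1 a b q = sw1 a b q') : q = q' := by
  unfold sw1 at h
  simp only [Prod.mk.injEq] at h
  obtain ⟨h1, h2⟩ := h
  have e1 := List.append_inj h1 (by simp [List.length_take, min_eq_left ha, min_eq_left ha'])
  have e2 := List.append_inj h2 (by simp [List.length_take, min_eq_left hb, min_eq_left hb'])
  have f : ∀ {l l' : List V} {n : ℕ}, l.take n = l'.take n → l.drop (n - 1) = l'.drop (n - 1) →
      l = l' := by
    intro l l' n h1 h2
    have h3 : l.take (n - 1) = l'.take (n - 1) := by
      have := congrArg (List.take (n - 1)) h1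
      rw [List.take_take, List.take_take, min_eq_left (by omega)] at this
      exact this
    rw [← List.take_append_drop (n - 1) l, h3, h2, List.take_append_drop]
  exact Prod.ext (f e1.1 e2.2) (f e2.1 e1.2)

/-- **Injectivity of the exchange** -/
theorem sw_inj : ∀ (t t' : List (ℕ × ℕ)) (p p' : List V × List V), Dp p → Dp p' →
    Vd p 0 0 t → Vd p' 0 0 t' → t.length = t'.length → sw t p = sw t' p' → t = t' ∧ p = p' := by
  intro t
  induction t with
  | nil =>
    intro t' p p' _ _ _ _ hl h
    have : t' = [] := List.length_eq_zero_iff.mp (by simpa using hl.symm)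
    subst this
    exact ⟨rfl, h⟩
  | cons c t ih =>
    intro t' p p' hp hp' hv hv' hl h
    cases t' with
    | nil => simp at hl
    | cons c' t' =>
      obtain ⟨a, b⟩ := c
      obtain ⟨a', b'⟩ := c'
      obtain ⟨f1, f2, f3, f4⟩ := first_place hp hv
      obtain ⟨g1, g2, g3, g4⟩ := first_place hp' hv'
      rw [← h] at g1 g2 g3 g4
      have haa : a = a' := by
        by_contra hne
        rcases Nat.lt_or_gt_of_ne hne with h1 | h1
        · obtain ⟨x, hx, hx2⟩ := f2
          exact g1 x (mem_take_mono hx (by omega)) hx2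
        · obtain ⟨x, hx, hx2⟩ := g2
          exact f1 x (mem_take_mono hx (by omega)) hx2
      have hbb : b = b' := by
        by_contra hne
        rcases Nat.lt_or_gt_of_ne hne with h1 | h1
        · obtain ⟨x, hx, hx2⟩ := f4
          exact g3 x (mem_take_mono hx (by omega)) hx2
        · obtain ⟨x, hx, hx2⟩ := g4
          exact f3 x (mem_take_mono hx (by omega)) hx2
      subst haa hbb
      obtain ⟨h1, h2, h3, h4, h5, h6⟩ := hv
      obtain ⟨h1', h2', h3', h4', h5', h6'⟩ := hv'
      simp only at h1 h2 h3 h4 h5 h6 h1' h2' h3' h4' h5' h6'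
      have I := inv hp t a b h6
      have I' := inv hp' t' a b h6'
      have ha : a < (sw t p).1.length := len_of_take I.t1 h3
      have hb : b < (sw t p).2.length := len_of_take I.t2 h4
      have ha' : a < (sw t' p').1.length := len_of_take I'.t1 h3'
      have hb' : b < (sw t' p').2.length := len_of_take I'.t2 h4'
      have hs : sw t p = sw t' p' := sw1_inj ha.le hb.le ha'.le hb'.le h
      obtain ⟨e1, e2⟩ := ih t' p p' hp hp' (Vd_mono (by omega) (by omega) t h6)
        (Vd_mono (by omega) (by omega) t' h6') (by simpa using hl) hs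
      rw [e1]
      exact ⟨rfl, e2⟩

end Pool.Agent.W870.Pg
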