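import Pool.Agent.W870.Pg.Swap
import Pool.Agent.H981R2.Plain

/-!
Counting weak bridges (lists of sites).
-/

set_option autoImplicit false

namespace Pool.Agent.W870.Pg

open H981

/-- a self-avoiding list of sites from the origin -/
structure SL (u : List V) : Prop where
  hd : u.head? = some (0, 0)
  nd : u.Nodup
  ch : u.IsChain adj

lemma SL.word {u : List V} (h : SL u) {l : ℕ} (hl : u.length = l + 1) :
    ∃ w : List St, w.length = l ∧ ∀ i : ℕ, i < l + 1 → u[i]? = some (path w i) := by
  have h0 : IsSAW l (fun i : Fin (l + 1) => u[(i : ℕ)]'(by rw [hl]; exact i.2)) := by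
    refine ⟨?_, ?_, ?_⟩
    · have := h.hd
      rw [List.head?_eq_getElem?, List.getElem?_eq_getElem (by omega)] at this
      simpa using this
    · intro i
      have := List.isChain_iff_getElem.mp h.ch i (by rw [hl]; have := i.2; omega)
      rw [adj_iff_abs] at this
      simpa using this
    · intro i j hij
      have := (List.Nodup.getElem_inj_iff h.nd).mp hij
      exact Fin.ext this
  obtain ⟨w, hw, hp⟩ := exists_word' l _ h0
  refine ⟨w, hw, fun i hi => ?_⟩
  have := hp ⟨i, hi⟩
  simp only at this
  rw [this, List.getElem?_eq_getElem]

lemma finite_words (l : ℕ) : {w : List St | w.length = l}.Finite := List.finite_length_eq St l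

lemma finite_SL (l : ℕ) : {u : List V | SL u ∧ u.length = l}.Finite := by
  cases l with
  | zero =>
    refine (Set.finite_singleton ([] : List V)).subset ?_
    rintro u ⟨-, h⟩
    exact List.length_eq_zero_iff.mp h
  | succ l =>
    classical
    have hch : ∀ u : List V, ∃ w : List St, (SL u ∧ u.length = l + 1) →
        w.length = l ∧ ∀ i : ℕ, i < l + 1 → u[i]? = some (path w i) := by
      intro u
      by_cases h : SL u ∧ u.length = l + 1
      · obtain ⟨w, h1, h2⟩ := h.1.word h.2
        exact ⟨w, fun _ => ⟨h1, h2⟩⟩
      · exact ⟨[], fun h' => absurd h' h⟩
    choose f hf using hch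
    refine Set.Finite.of_finite_image ((finite_words l).subset ?_) (f := f) ?_
    · rintro w ⟨u, hu, rfl⟩
      exact (hf u hu).1
    · intro u hu u' hu' he
      apply List.ext_getElem?
      intro i
      by_cases hi : i < l + 1
      · rw [(hf u hu).2 i hi, (hf u' hu').2 i hi, he]
      · rw [List.getElem?_eq_none (by rw [hu.2]; omega), List.getElem?_eq_none (by rw [hu'.2]; omega)]

/-- weak bridges -/
structure WB (u : List V) : Prop where
  sl : SL u
  lv : ∀ v ∈ u, 0 ≤ v.1
  tp : ∀ K ∈ u.getLast?, ∀ v ∈ u, v.1 ≤ K.1

lemma finite_WB (l : ℕ) : {u : List V | WB u ∧ u.length = l}.Finite :=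
  (finite_SL l).subset (fun _ h => ⟨h.1.sl, h.2⟩)

/-- the finset of weak bridges with `l` sites -/
noncomputable def WBF (l : ℕ) : Finset (List V) := (finite_WB l).toFinset

lemma mem_WBF {l : ℕ} {u : List V} : u ∈ WBF l ↔ WB u ∧ u.length = l := by
  unfold WBF
  rw [Set.Finite.mem_toFinset]
  rfl

lemma WBF_card_le (l : ℕ) : ((WBF l).card : ℝ) ≤ mu ^ l := by
  cases l with
  | zero =>
    have : WBF 0 = ∅ := by
      ext u
      rw [mem_WBF]
      simp only [Finset.notMem_empty, iff_false, not_and]
      intro h h2
      have := h.sl.hd
      rw [List.length_eq_zero_iff.mp h2] at this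
      simp at this
    rw [this]
    simp
  | succ l =>
    refine le_trans ?_ (br'_le (l + 1))
    rw [br'_eq, B_card_eq]
    norm_cast
    classical
    -- the word of the shifted walk
    have hch : ∀ u : List V, ∃ w : List St, (WB u ∧ u.length = l + 1) →
        (IsB w ∧ w.length = l + 1) ∧ ∀ i : ℕ, i < l + 1 →
          u[i]? = some ((path w (i + 1)).1 - 1, (path w (i + 1)).2) := by
      intro u
      by_cases h : WB u ∧ u.length = l + 1
      · obtain ⟨w, h1, h2⟩ := h.1.sl.word h.2
        refine ⟨St.E :: w, fun _ => ?_⟩
        have hp : ∀ i, path (St.E :: w) (i + 1) = ((path w i).1 + 1, (path w i).2) := by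
          intro i
          unfold path
          simp only [List.take_succ_cons, dx_cons, dy_cons, St.x_E, St.y_E]
          ext <;> simp <;> ring
        have hlen : (St.E :: w).length = l + 1 := by simp [h1]
        have hget : ∀ i, i < l + 1 → path w i ∈ u := by
          intro i hi
          have := h2 i hi
          exact List.mem_of_getElem? this
        refine ⟨⟨?_, hlen⟩, ?_⟩
        · rw [isB_iff hlen]
          have hlast : u.getLast? = some (path w l) := by
            rw [List.getLast?_eq_getElem?, h.2]
            exact h2 l (by omega)
          have key : ∀ i : ℕ, i < l + 1 → 0 ≤ (path w i).1 ∧ (path w i).1 ≤ (path w l).1 := by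
            intro i hi
            exact ⟨h.1.lv _ (hget i hi), h.1.tp _ hlast _ (hget i hi)⟩
          constructor
          · rw [saw_iff (l + 1) hlen]
            have inj : ∀ i j : ℕ, i < l + 1 → j < l + 1 → path w i = path w j → i = j := by
              intro i j hi hj hij
              have a1 := h2 i hi
              have a2 := h2 j hj
              rw [hij] at a1
              rw [List.getElem?_eq_getElem (by rw [h.2]; exact hi)] at a1
              rw [List.getElem?_eq_getElem (by rw [h.2]; exact hj)] at a2
              have := (Option.some.inj a1).trans (Option.some.inj a2).symm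
              exact (List.Nodup.getElem_inj_iff h.1.sl.nd).mp this
            intro i j hij
            simp only at hij
            obtain ⟨i, hi⟩ := i
            obtain ⟨j, hj⟩ := j
            simp only at hij
            rw [Fin.mk.injEq]
            cases i with
            | zero =>
              cases j with
              | zero => rfl
              | succ j =>
                exfalso
                rw [hp j] at hij
                have h3 := (key j (by omega)).1
                have h4 := congrArg Prod.fst hij
                simp [path] at h4
                simp [path] at h3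
                omega
            | succ i =>
              cases j with
              | zero =>
                exfalso
                rw [hp i] at hij
                have h3 := (key i (by omega)).1
                have h4 := congrArg Prod.fst hij
                simp [path] at h4
                simp [path] at h3
                omega
              | succ j =>
                rw [hp i, hp j] at hij
                congr 1
                apply inj i j (by omega) (by omega)
                rw [Prod.mk.injEq] at hij
                exact Prod.ext (by omega) hij.2
          · intro i hi0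
            obtain ⟨i, hi⟩ := i
            cases i with
            | zero => simp at hi0
            | succ i =>
              simp only [Fin.val_last]
              rw [hp i, hp l]
              have := key i (by omega)
              simp only
              omega
        · intro i hi
          rw [hp i, h2 i hi]
          simp
      · exact ⟨[], fun h' => absurd h' h⟩
    choose f hf using hch
    have hfin : Finite {w : List St // IsB w ∧ w.length = l + 1} := by
      have : {w : List St | IsB w ∧ w.length = l + 1}.Finite :=
        (finite_words (l + 1)).subset (fun w h => h.2)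
      exact this.to_subtype
    have hcard : (WBF (l + 1)).card = Nat.card {u : List V // u ∈ WBF (l + 1)} := by
      rw [Nat.card_eq_fintype_card, Fintype.card_coe]
    rw [hcard]
    refine Nat.card_le_card_of_injective (fun u : {u : List V // u ∈ WBF (l + 1)} =>
      (⟨f u.1, (hf u.1 (mem_WBF.mp u.2)).1⟩ : {w : List St // IsB w ∧ w.length = l + 1})) ?_
    rintro ⟨u, hu⟩ ⟨u', hu'⟩ he
    simp only [Subtype.mk.injEq] at he
    rw [mem_WBF] at hu hu'
    rw [Subtype.mk.injEq]
    apply List.ext_getElem?
    intro i
    by_cases hi : i < l + 1
    · rw [(hf u hu).2 i hi, (hf u' hu').2 i hi, he]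
    · rw [List.getElem?_eq_none (by rw [hu.2]; omega), List.getElem?_eq_none (by rw [hu'.2]; omega)]

/-- pairs of weak bridges with `T` sites in total -/
noncomputable def WP (T : ℕ) : Finset (List V × List V) :=
  (Finset.range (T + 1)).biUnion (fun l => WBF l ×ˢ WBF (T - l))

lemma WP_card_le (T : ℕ) : ((WP T).card : ℝ) ≤ (T + 1) * mu ^ T := by
  have h1 : (WP T).card ≤ ∑ l ∈ Finset.range (T + 1), (WBF l ×ˢ WBF (T - l)).card :=
    Finset.card_biUnion_le
  have hmu := mu_pos
  calc ((WP T).card : ℝ) ≤ ((∑ l ∈ Finset.range (T + 1), (WBF l ×ˢ WBF (T - l)).card : ℕ) : ℝ) := by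
        exact_mod_cast h1
    _ = ∑ l ∈ Finset.range (T + 1), (((WBF l).card : ℝ) * ((WBF (T - l)).card : ℝ)) := by
        push_cast
        apply Finset.sum_congr rfl
        intro l _
        rw [Finset.card_product]
        push_cast
        rfl
    _ ≤ ∑ l ∈ Finset.range (T + 1), mu ^ T := by
        apply Finset.sum_le_sum
        intro l hl
        have hl' : l ≤ T := by rw [Finset.mem_range] at hl; omega
        calc ((WBF l).card : ℝ) * ((WBF (T - l)).card : ℝ) ≤ mu ^ l * mu ^ (T - l) :=
              mul_le_mul (WBF_card_le l) (WBF_card_le _) (by positivity) (by positivity)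
          _ = mu ^ T := by rw [← pow_add]; congr 1; omega
    _ = (T + 1) * mu ^ T := by
        rw [Finset.sum_const, Finset.card_range, nsmul_eq_mul]
        push_cast; ring

lemma mem_WP {T : ℕ} {u v : List V} (hu : WB u) (hv : WB v) (h : u.length + v.length = T) :
    (u, v) ∈ WP T := by
  unfold WP
  rw [Finset.mem_biUnion]
  refine ⟨u.length, by rw [Finset.mem_range]; omega, ?_⟩
  rw [Finset.mem_product]
  exact ⟨mem_WBF.mpr ⟨hu, rfl⟩, mem_WBF.mpr ⟨hv, by simp only; omega⟩⟩

end Pool.Agent.W870.Pg
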